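import Pool.Agent.MP_9181f8_al.Q.QBasic
import Pool.Agent.MP_9181f8_al.N.Atom

namespace Pool.Agent.N9181

open scoped commutatorElement

theorem atomN {V : Type} [AddCommGroup V] [Module K V] [Module.Finite K V]
    {H : Type} [Group H] [Finite H] [Group.IsSolvable H] (h13 : ¬ 13 ∣ Nat.card H) (ρ : Representation K H V) (N m : ℕ)
    (hNM : NM H N m) (hU : HU ρ N m) (c : H)
    (hE : ∀ v, ρ c v = v → ∀ l : K, l ≠ 0 → ∃ h, ρ h v = l • v) : ∀ v, ρ c v = v → v = 0 := by
  intro v hv
  by_contra hv0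
  have : Finite V := (card_sub (⊤ : Submodule K V)).1
  obtain ⟨v0, ⟨hv00, hv0c⟩, hmax⟩ := Set.exists_max_image {u : V | u ≠ 0 ∧ ρ c u = u}
    (fun u => Nat.card (xatomStab ρ u)) (Set.toFinite _) ⟨v, hv0, hv⟩
  have hcJ : c ∈ xatomStab ρ v0 := hv0c
  have hst : ∀ w ∈ xatomFix ρ (xatomStab ρ v0), w ≠ 0 → xatomStab ρ v0 = xatomStab ρ w := by
    intro w hw hw0
    exact Subgroup.eq_of_le_of_card_ge (fun y hy => hw y hy) (hmax w ⟨hw0, hw c hcJ⟩)
  have hinv : ∀ h ∈ Subgroup.normalizer (xatomStab ρ v0 : Set H),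
      ∀ w ∈ xatomFix ρ (xatomStab ρ v0), ρ h w ∈ xatomFix ρ (xatomStab ρ v0) := by
    intro h hh w hw y hy
    have h1 : h⁻¹ * y * h ∈ xatomStab ρ v0 := by
      rw [Subgroup.mem_normalizer_iff] at hh
      apply (hh _).2
      have : h * (h⁻¹ * y * h) * h⁻¹ = y := by group
      rw [this]
      exact hy
    have h2 : y * h = h * (h⁻¹ * y * h) := by group
    rw [← Module.End.mul_apply, ← map_mul, h2, map_mul, Module.End.mul_apply, hw _ h1]
  obtain ⟨σ, hσ⟩ := exists_res ρ _ _ hinv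
  have hd : Nat.card (Subgroup.normalizer (xatomStab ρ v0 : Set H)) ∣ Nat.card H :=
    Subgroup.card_subgroup_dvd_card _
  have hU' := (inherit h13 ρ N m hNM (xatomStab ρ v0) _ le_rfl _ (xatom_fix ρ _) σ hσ).2 hU
  refine app (fun h => h13 (h.trans hd)) σ ⟨⟨v0, fun y hy => hy⟩, ?_⟩ ?_ N m
    ⟨hd.trans hNM.1, hNM.2⟩ hU' ?_
  · intro h0
    exact hv00 (congrArg Subtype.val h0)
  · intro h w hw0 hh
    have hw0' : (w : V) ≠ 0 := fun h0 => hw0 (Subtype.ext h0)
    have h1 : (h : H) ∈ xatomStab ρ v0 := by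
      apply (hst w w.2 hw0').ge
      rw [xatom_mem, ← hσ, hh]
    ext u
    rw [hσ, Module.End.one_apply]
    exact u.2 _ h1
  · intro l hl w
    by_cases hw0 : (w : V) = 0
    · refine ⟨1, ?_⟩
      have : w = 0 := Subtype.ext hw0
      rw [this, map_zero, smul_zero]
    · obtain ⟨h, hh⟩ := hE w (w.2 c hcJ) l hl
      have h1 := xatom_norm ρ w h l hl hh
      rw [← hst w w.2 hw0] at h1
      refine ⟨⟨h, h1⟩, Subtype.ext ?_⟩
      rw [hσ]
      exact hh

theorem xqatomd_pow {V : Type} [AddCommGroup V] [Module K V] (a : Module.End K V) (n : ℕ) :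
    (show Module.End K (Module.Dual K V) from Module.Dual.transpose (R := K) a) ^ n
      = Module.Dual.transpose (R := K) (a ^ n) := by
  induction n with
  | zero =>
    ext f v
    simp [Module.Dual.transpose_apply]
  | succ n ih =>
    rw [pow_succ, ih, pow_succ']
    ext f v
    simp [Module.Dual.transpose_apply]

theorem bt_dual {V : Type} [AddCommGroup V] [Module K V] [Module.Finite K V]
    (a : Module.End K V) (N : ℕ) (hN : ¬ 13 ∣ N) (ha : a ^ N = 1) (M : ℕ) :
    bt (V := Module.Dual K V) (Module.Dual.transpose (R := K) a) M = bt a M := by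
  obtain ⟨n, b, A, N', hN', hA, hm, ht⟩ := isBt_bt a N hN ha M
  have h1 : (show Module.End K (Module.Dual K V) from Module.Dual.transpose (R := K) a) ^ N
      = 1 := by
    rw [xqatomd_pow, ha]
    ext f v
    simp [Module.Dual.transpose_apply]
  refine isBt_unique _ M _ _ (isBt_bt _ N hN h1 M) ⟨n, b.dualBasis, A.transpose, N', hN', ?_, ?_, ?_⟩
  · rw [← Matrix.transpose_pow, hA, Matrix.transpose_one]
  · rw [LinearMap.toMatrix_transpose, ← hm, Matrix.transpose_map]
  · rw [Matrix.trace_transpose, ht]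

theorem atomD {V : Type} [AddCommGroup V] [Module K V] [Module.Finite K V]
    {H : Type} [Group H] [Finite H] [Group.IsSolvable H] (h13 : ¬ 13 ∣ Nat.card H) (ρ : Representation K H V) (N m : ℕ)
    (hNM : NM H N m) (hU : HU ρ N m) (c : H)
    (hE : ∀ f : Module.Dual K V, f ∘ₗ ρ c = f → ∀ l : K, l ≠ 0 → ∃ h, f ∘ₗ ρ h = l • f) :
    ∀ v, ρ c v = v → v = 0 := by
  have hb : ∀ (h : H) (M : ℕ), bt (ρ.dual h) M = bt (ρ h⁻¹) M := by
    intro h M
    rw [Representation.dual_apply]
    exact bt_dual (ρ h⁻¹) (Nat.card H) h13 (by rw [← map_pow, pow_card_eq_one', map_one]) M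
  have hU' : HU ρ.dual N m := by
    intro h j hj M
    rw [hb, hb, hb, hb, ← inv_pow, ← inv_pow, ← inv_pow]
    exact hU h⁻¹ j hj M
  have key := atomN h13 ρ.dual N m hNM hU' c⁻¹ (by
    intro f hf l hl
    have hf' : f ∘ₗ ρ c = f := by
      rw [Representation.dual_apply, inv_inv] at hf
      exact hf
    obtain ⟨h, hh⟩ := hE f hf' l hl
    refine ⟨h⁻¹, ?_⟩
    rw [Representation.dual_apply, inv_inv]
    exact hh)
  intro v hv
  by_contra hv0
  have hni : ¬ Function.Injective (ρ c - 1 : Module.End K V) := by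
    intro hi
    apply hv0
    apply hi
    rw [map_zero, LinearMap.sub_apply, hv, Module.End.one_apply, sub_self]
  have hns : LinearMap.range (ρ c - 1 : Module.End K V) < ⊤ := by
    rw [lt_top_iff_ne_top, Ne, LinearMap.range_eq_top]
    intro hs
    exact hni (LinearMap.injective_iff_surjective.2 hs)
  obtain ⟨f, hf0, hf⟩ := Submodule.exists_dual_map_eq_bot_of_lt_top hns inferInstance
  apply hf0
  apply key f
  rw [Representation.dual_apply, inv_inv]
  ext u
  have h1 : f ((ρ c - 1 : Module.End K V) u) ∈ (⊥ : Submodule K K) := by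
    rw [← hf]
    exact Submodule.mem_map_of_mem (LinearMap.mem_range_self _ u)
  rw [Submodule.mem_bot, LinearMap.sub_apply, map_sub, sub_eq_zero] at h1
  exact h1

end Pool.Agent.N9181
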