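import Pool.Agent.MP_9181f8_al.Q.QBasic

namespace Pool.Agent.N9181

open scoped commutatorElement

theorem xqblk_inv {F : Type} [Field F] {M : Type} [AddCommGroup M] [Module F M] {G : Type}
    [Group G] (σ : Representation F G M) (hσ : IrrF σ) (E : Module.End F M) (W : Submodule F M)
    (v : M) (hv : v ≠ 0) (h : ∀ g, E (σ g v) ∈ W) (m : M) : E m ∈ W := by
  let X : Submodule F M := ⨅ g : G, W.comap (E * σ g)
  have hX : ∀ x, x ∈ X ↔ ∀ g, E (σ g x) ∈ W := fun x => by
    simp only [X, Submodule.mem_iInf, Submodule.mem_comap, Module.End.mul_apply]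
  rcases hσ.2 X (fun k x hx => (hX _).2 fun g => by
    rw [← Module.End.mul_apply (σ g), ← map_mul]
    exact (hX x).1 hx _) with h0 | h0
  · have := (hX v).2 h
    rw [h0] at this
    exact absurd this hv
  · simpa using (hX m).1 (h0 ▸ Submodule.mem_top) 1

theorem blk_act {F : Type} [CommRing F] (f : Oo →+* F) {S : Type} [Ring S] [Algebra F S]
    {G : Type} [Group G] [Finite G] (R Q : Subgroup G) [R.Normal] {I : Type} [Fintype I] [MulAction G I]
    (e : I → MonoidAlgebra Oo R) (a : I → G → MonoidAlgebra Oo R) (hC : CD R Q I e a) (σ : G →* S) (g : G) (i : I) :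
    σ g * gv f σ R (e i) = gv f σ R (e (g • i)) * σ g := by
  rw [gv_cj, hC.act]

theorem blk_ex {F : Type} [Field F] (f : Oo →+* F) {M : Type} [AddCommGroup M] [Module F M]
    {G : Type} [Group G] [Finite G] (R Q : Subgroup G) [R.Normal] {I : Type} [Fintype I] [MulAction G I]
    (e : I → MonoidAlgebra Oo R) (a : I → G → MonoidAlgebra Oo R) (hC : CD R Q I e a) (σ : Representation F G M) (hσ : IrrF σ) : ∃ i, gv f σ R (e i) ≠ 0 := by
  by_contra h
  push Not at h
  obtain ⟨v, hv⟩ := hσ.1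
  have h1 : gv f σ R (∑ i, e i) = 0 := by
    rw [map_sum]
    exact Finset.sum_eq_zero fun i _ => h i
  rw [hC.sum, map_one] at h1
  exact hv (LinearMap.congr_fun h1 v)

theorem blk_orbit {F : Type} [Field F] (f : Oo →+* F) {M : Type} [AddCommGroup M]
    [Module F M] {G : Type} [Group G] [Finite G] (R Q : Subgroup G) [R.Normal] {I : Type} [Fintype I] [MulAction G I]
    (e : I → MonoidAlgebra Oo R) (a : I → G → MonoidAlgebra Oo R) (hC : CD R Q I e a) (σ : Representation F G M) (hσ : IrrF σ) (i j : I)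
    (hi : gv f σ R (e i) ≠ 0) (hj : gv f σ R (e j) ≠ 0) : ∃ g : G, g • i = j := by
  by_contra h
  push Not at h
  obtain ⟨v, hv⟩ : ∃ v, gv f σ R (e i) v ≠ 0 := by
    by_contra h'
    push Not at h'
    exact hi (LinearMap.ext h')
  refine hj (LinearMap.ext fun m => ?_)
  refine xqblk_inv σ hσ (gv f σ R (e j)) ⊥ _ hv (fun g => ?_) m
  rw [← Module.End.mul_apply (σ g), blk_act f R Q e a hC, ← Module.End.mul_apply, ← mul_assoc,
    ← map_mul, hC.orth j _ (h g).symm, map_zero, zero_mul]
  exact Submodule.zero_mem _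

theorem blk_irr {F : Type} [Field F] (f : Oo →+* F) {M : Type} [AddCommGroup M]
    [Module F M] {G : Type} [Group G] [Finite G] (R Q : Subgroup G) [R.Normal] {I : Type} [Fintype I] [MulAction G I]
    (e : I → MonoidAlgebra Oo R) (a : I → G → MonoidAlgebra Oo R) (hC : CD R Q I e a) (σ : Representation F G M) (hσ : IrrF σ) (i : I)
    (W : Submodule F M) (hle : W ≤ LinearMap.range (gv f σ R (e i)))
    (hW : ∀ g : G, g • i = i → ∀ w ∈ W, σ g w ∈ W) :
    W = ⊥ ∨ W = LinearMap.range (gv f σ R (e i)) := by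
  by_cases h0 : W = ⊥
  · exact Or.inl h0
  refine Or.inr (le_antisymm hle ?_)
  obtain ⟨w, hw, hw0⟩ := (Submodule.ne_bot_iff W).1 h0
  rintro _ ⟨m, rfl⟩
  refine xqblk_inv σ hσ (gv f σ R (e i)) W w hw0 (fun g => ?_) m
  by_cases hg : g • i = i
  · obtain ⟨x, hx⟩ := hle (hW g hg w hw)
    rw [← hx, ← Module.End.mul_apply, ← map_mul, hC.idem, hx]
    exact hW g hg w hw
  · obtain ⟨x, rfl⟩ := hle hw
    rw [← Module.End.mul_apply (σ g), blk_act f R Q e a hC, ← Module.End.mul_apply, ← mul_assoc,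
      ← map_mul, hC.orth i _ (Ne.symm hg), map_zero, zero_mul]
    exact Submodule.zero_mem _

end Pool.Agent.N9181
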