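import Pool.Agent.MP_9181f8_al.Q.Blk

namespace Pool.Agent.N9181

open scoped commutatorElement

theorem fixF {L : Type} [Field L] [CharP L 13] {M : Type} [AddCommGroup M] [Module L M]
    {S : Type} [Group S] [Finite S] (β : S →* Module.End L M)
    (h : ∀ s, ∃ a : ℕ, (β s) ^ (13 ^ a) = 1) (hM : ∃ v : M, v ≠ 0) :
    ∃ v : M, v ≠ 0 ∧ ∀ s, β s v = v := by
  obtain ⟨v, hv⟩ := hM
  have hP : IsPGroup 13 β.toHomUnits.range := by
    rintro ⟨_, s, rfl⟩
    obtain ⟨a, ha⟩ := h s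
    exact ⟨a, Subtype.ext (Units.ext ha)⟩
  have h13 (x : M) : 13 • x = 0 := by
    rw [← Nat.cast_smul_eq_nsmul L, CharP.cast_eq_zero, zero_smul]
  let X : AddSubgroup M := AddSubgroup.closure (Set.range fun s => β s v)
  have hX : Finite X := AddCommGroup.finite_of_fg_torsion X fun x =>
    isOfFinAddOrder_iff_nsmul_eq_zero.2 ⟨13, by norm_num, Subtype.ext (h13 x)⟩
  have hst (s : S) : X ≤ X.comap (β s).toAddMonoidHom := by
    refine (AddSubgroup.closure_le _).2 ?_
    rintro _ ⟨t, rfl⟩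
    exact AddSubgroup.subset_closure ⟨s * t, by simp⟩
  have hst' (p : β.toHomUnits.range) (x : X) : p.1.1 x.1 ∈ X := by
    obtain ⟨_, s, rfl⟩ := p
    exact hst s x.2
  let _ : MulAction β.toHomUnits.range X :=
    { smul := fun p x => ⟨p.1.1 x.1, hst' p x⟩
      one_smul := fun _ => rfl
      mul_smul := fun _ _ _ => rfl }
  have hvX : v ∈ X := AddSubgroup.subset_closure ⟨1, by simp⟩
  have hd : 13 ∣ Nat.card X := by
    have h1 : addOrderOf (⟨v, hvX⟩ : X) = 13 :=
      addOrderOf_eq_prime (Subtype.ext (h13 v)) fun e => hv (congrArg Subtype.val e)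
    rw [← h1]
    exact addOrderOf_dvd_natCard _
  obtain ⟨b, hb, hne⟩ := hP.exists_fixed_point_of_prime_dvd_card_of_fixed_point X hd
    (a := 0) (fun p => Subtype.ext (map_zero p.1.1))
  exact ⟨b, fun e => hne (Subtype.ext e.symm),
    fun s => congrArg Subtype.val (hb ⟨β.toHomUnits s, s, rfl⟩)⟩

theorem xqblkq_be {F : Type} [CommRing F] (f : Oo →+* F) {S : Type} [Ring S] [Algebra F S]
    {G : Type} [Group G] [Finite G] (R Q : Subgroup G) [R.Normal] {I : Type} [Fintype I]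
    [MulAction G I] (e : I → MonoidAlgebra Oo R) (a : I → G → MonoidAlgebra Oo R)
    (hC : CD R Q I e a) (hQ : RQ R Q) (σ : G →* S) (i : I) (be : G → S)
    (hbe : ∀ x, be x = σ x * gv f σ R (a i x⁻¹)) :
    (∀ x ∈ Q ⊓ MulAction.stabilizer G i, ∀ y ∈ Q ⊓ MulAction.stabilizer G i,
      be (x * y) = be x * be y) ∧ (∀ r ∈ R, be r = gv f σ R (e i)) ∧
    ∀ t : G, t • i = i → ∀ y ∈ Q ⊓ MulAction.stabilizer G i,
      σ t * be y = be (t * y * t⁻¹) * σ t := by
  set T := Q ⊓ MulAction.stabilizer G i with hT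
  have hr (r : G) (h : r ∈ R) : gv f σ R (a i r) = σ r * gv f σ R (e i) := by
    rw [hC.rst i ⟨r, h⟩, map_mul, gv, gev_of]
    rfl
  have hm (x : G) (hx : x ∈ T) (y : G) (hy : y ∈ T) :
      gv f σ R (a i (x * y)) = gv f σ R (a i x) * gv f σ R (a i y) := by
    rw [hC.mul i x hx.1 y hy.1 hx.2 hy.2, map_mul]
  have hRT (r : G) (h : r ∈ R) : r ∈ T := ⟨hQ.le h, hC.triv r h i⟩
  have h1 : gv f σ R (a i 1) = gv f σ R (e i) := by rw [hr 1 R.one_mem, map_one, one_mul]
  have hc (y : G) (hy : y ∈ T) (r : G) (h : r ∈ R) :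
      gv f σ R (a i y) * σ r = σ (y * r * y⁻¹) * gv f σ R (a i y) := by
    have h2 := hm y hy 1 T.one_mem
    have h3 := hm 1 T.one_mem y hy
    have h4 := blk_act f R Q e a hC σ r i
    have h5 : y * r * y⁻¹ ∈ R := hQ.nR.conj_mem r h y
    rw [mul_one, h1] at h2
    rw [one_mul, h1] at h3
    rw [hC.triv r h i] at h4
    calc gv f σ R (a i y) * σ r = gv f σ R (a i y) * gv f σ R (a i r) := by
          rw [hr r h, h4, ← mul_assoc, ← h2]
      _ = gv f σ R (a i (y * r * y⁻¹)) * gv f σ R (a i y) := by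
          rw [← hm y hy r (hRT r h), ← hm _ (hRT _ h5) y hy, inv_mul_cancel_right]
      _ = σ (y * r * y⁻¹) * gv f σ R (a i y) := by rw [hr _ h5, mul_assoc, ← h3]
  have hcomm (x : G) (hx : x ∈ T) (z : MonoidAlgebra Oo R) :
      be x * gv f σ R z = gv f σ R z * be x := by
    refine gev_comm f _ _ (fun r => ?_) z
    show be x * σ r = σ r * be x
    rw [hbe, mul_assoc, hc _ (T.inv_mem hx) r r.2, ← mul_assoc, ← mul_assoc, ← map_mul,
      ← map_mul]
    congr 2
    group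
  refine ⟨fun x hx y hy => ?_, fun r h => ?_, fun t ht y hy => ?_⟩
  · rw [hbe x, mul_assoc, ← hcomm y hy, hbe y, hbe, mul_inv_rev,
      hm _ (T.inv_mem hy) _ (T.inv_mem hx), map_mul, mul_assoc, mul_assoc]
  · rw [hbe, hr _ (R.inv_mem h), ← mul_assoc, ← map_mul, mul_inv_cancel, map_one, one_mul]
  · have h2 := gv_cj f σ R t (a i y⁻¹)
    rw [hC.equi i t _ (T.inv_mem hy).1 (T.inv_mem hy).2, ht] at h2
    rw [hbe, hbe, conj_inv, mul_assoc, ← h2, ← mul_assoc, ← mul_assoc, ← map_mul, ← map_mul,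
      inv_mul_cancel_right]

theorem blk_q {M : Type} [AddCommGroup M] [Module Kp M] [Module.Finite Kp M] {G : Type} [Group G] [Finite G] (R Q : Subgroup G) [R.Normal] {I : Type} [Fintype I] [MulAction G I]
    (e : I → MonoidAlgebra Oo R) (a : I → G → MonoidAlgebra Oo R) (hC : CD R Q I e a) (hQ : RQ R Q)
    (σ : Representation Kp G M) (hσ : IrrF σ) (i : I) (q : G) (hq : q ∈ Q) (hi : q • i = i) :
    ∀ w ∈ LinearMap.range (gv res σ R (e i)), σ q w = gv res σ R (a i q) w := by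
  intro w hw
  by_cases hw0 : w = 0
  · rw [hw0, map_zero, map_zero]
  obtain ⟨be, hbe⟩ : ∃ be : G → Module.End Kp M, ∀ x, be x = σ x * gv res σ R (a i x⁻¹) :=
    ⟨_, fun _ => rfl⟩
  obtain ⟨h1, h2, h3⟩ := xqblkq_be res R Q e a hC hQ σ i be hbe
  set T := Q ⊓ MulAction.stabilizer G i with hT
  set W := LinearMap.range (gv res σ R (e i)) with hW
  have hE (u : M) (hu : u ∈ W) : gv res σ R (e i) u = u := by
    obtain ⟨z, rfl⟩ := hu
    rw [← Module.End.mul_apply, ← map_mul, hC.idem]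
  have hin (x : T) (u : M) (_ : u ∈ W) : be x u ∈ W :=
    ⟨be x u, by rw [← h2 1 R.one_mem, ← Module.End.mul_apply, ← h1 1 T.one_mem x x.2, one_mul]⟩
  let β : T →* Module.End Kp W :=
    { toFun := fun x => (be x).restrict (hin x)
      map_one' := LinearMap.ext fun u => Subtype.ext (by
        show be 1 u = u
        rw [h2 1 R.one_mem, hE u u.2])
      map_mul' := fun x y => LinearMap.ext fun u => Subtype.ext (by
        show be (x * y) u = be x (be y u)
        rw [h1 x x.2 y y.2, Module.End.mul_apply]) }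
  obtain ⟨v, hv, hfix⟩ := fixF β (fun s => by
    obtain ⟨n, hn⟩ := hQ.pw s s.2.1
    refine ⟨n, LinearMap.ext fun u => Subtype.ext ?_⟩
    rw [← map_pow]
    show be (s ^ 13 ^ n) u = u
    rw [h2 _ hn, hE u u.2]) ⟨⟨w, hw⟩, fun h => hw0 (congrArg Subtype.val h)⟩
  let U : Submodule Kp M := W ⊓ ⨅ x : T, LinearMap.ker (be x - 1)
  have hU (u : M) : u ∈ U ↔ u ∈ W ∧ ∀ x ∈ T, be x u = u := by
    simp only [U, Submodule.mem_inf, Submodule.mem_iInf, LinearMap.mem_ker, LinearMap.sub_apply,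
      Module.End.one_apply, sub_eq_zero, Subtype.forall]
  rcases blk_irr res R Q e a hC σ hσ i U inf_le_left (fun g hg u hu => by
    obtain ⟨⟨z, hz⟩, hu2⟩ := (hU u).1 hu
    refine (hU _).2 ⟨⟨σ g z, ?_⟩, fun x hx => ?_⟩
    · have h4 := blk_act res R Q e a hC σ g i
      rw [hg] at h4
      rw [← Module.End.mul_apply, ← h4, Module.End.mul_apply, hz]
    · have h4 : g⁻¹ * x * g ∈ T := ⟨hQ.nQ.conj_mem' x hx.1 g, by
        show (g⁻¹ * x * g) • i = i
        rw [mul_smul, mul_smul, hg, show x • i = i from hx.2, inv_smul_eq_iff, hg]⟩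
      have h5 := h3 g hg _ h4
      rw [show g * (g⁻¹ * x * g) * g⁻¹ = x by group] at h5
      rw [← Module.End.mul_apply, ← h5, Module.End.mul_apply, hu2 _ h4]) with h | h
  · have hm : (v : M) ∈ U := (hU v).2 ⟨v.2, fun x hx => congrArg Subtype.val (hfix ⟨x, hx⟩)⟩
    rw [h] at hm
    exact absurd (Subtype.ext ((Submodule.mem_bot Kp).1 hm)) hv
  · have h4 := ((hU w).1 (h ▸ hw)).2 q⁻¹ (T.inv_mem ⟨hq, hi⟩)
    rw [hbe, inv_inv, Module.End.mul_apply] at h4
    conv_lhs => rw [← h4]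
    rw [← Module.End.mul_apply, ← map_mul, mul_inv_cancel, map_one, Module.End.one_apply]

end Pool.Agent.N9181
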