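import Pool.Agent.MP_9181f8_al.Q.QBasic

namespace Pool.Agent.N9181

open scoped commutatorElement

theorem xqcsep_conj {G A : Type} [Group G] [Fintype G] [AddCommMonoid A] (y : G) (F : G → A) :
    ∑ g, F (y * g * y⁻¹) = ∑ g, F g :=
  Equiv.sum_comp (MulAut.conj y).toEquiv F

theorem xqcsep_irr {G : Type} [Group G] [Fintype G] (ψ : G → ℂ)
    (hψ : ∀ y g, ψ (y * g * y⁻¹) = ψ g) {M : Type} [AddCommGroup M] [Module ℂ M]
    [Module.Finite ℂ M] (τ : Representation ℂ G M) (hi : IrrF τ)
    (h : ∑ g, ψ g * τ.character g = 0) : ∑ g, ψ g • τ g = 0 := by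
  obtain ⟨⟨v, hv⟩, hi⟩ := hi
  have : Nontrivial M := ⟨v, 0, hv⟩
  have hc (y : G) : τ y * ∑ g, ψ g • τ g = (∑ g, ψ g • τ g) * τ y := by
    rw [Finset.mul_sum, ← xqcsep_conj y fun g => ψ g • τ g, Finset.sum_mul]
    refine Finset.sum_congr rfl fun g _ => ?_
    rw [hψ, mul_smul_comm, smul_mul_assoc, ← map_mul, ← map_mul, inv_mul_cancel_right]
  have ht : LinearMap.trace ℂ M (∑ g, ψ g • τ g) = 0 := by
    rw [map_sum, ← h]
    exact Finset.sum_congr rfl fun g _ => by rw [map_smul]; rfl
  generalize (∑ g, ψ g • τ g : Module.End ℂ M) = Z at hc ht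
  obtain ⟨c, hcz⟩ := Module.End.exists_eigenvalue Z
  have hW := (hi (Z.eigenspace c) fun y w hw => by
    rw [Module.End.mem_eigenspace_iff] at hw ⊢
    rw [← Module.End.mul_apply, ← hc, Module.End.mul_apply, hw, map_smul]).resolve_left hcz
  have hZ : Z = c • (1 : Module.End ℂ M) := LinearMap.ext fun w =>
    Module.End.mem_eigenspace_iff.1 (hW ▸ Submodule.mem_top)
  rw [hZ, map_smul, LinearMap.trace_one, smul_eq_mul, mul_eq_zero] at ht
  rcases ht with ht | ht
  · rw [hZ, ht, zero_smul]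
  · exact absurd (Nat.cast_eq_zero.1 ht) Module.finrank_pos.ne'

theorem xqcsep_all {G : Type} [Group G] [Fintype G] (ψ : G → ℂ)
    (h : ∀ (M : Type) [AddCommGroup M] [Module ℂ M] [Module.Finite ℂ M]
      (τ : Representation ℂ G M), IrrF τ → ∑ g, ψ g • τ g = 0) (n : ℕ) :
    ∀ (M : Type) [AddCommGroup M] [Module ℂ M] [Module.Finite ℂ M]
      (τ : Representation ℂ G M), Module.finrank ℂ M = n → ∑ g, ψ g • τ g = 0 := by
  induction n using Nat.strong_induction_on with
  | _ n ih =>
  intro M _ _ _ τ hn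
  by_cases hi : IrrF τ
  · exact h M τ hi
  have key (W : Submodule ℂ M) (hW : ∀ g, ∀ w ∈ W, τ g w ∈ W) (hne : W ≠ ⊤) (w : M)
      (hw : w ∈ W) : (∑ g, ψ g • τ g) w = 0 := by
    have h1 := ih _ (hn ▸ Submodule.finrank_lt hne) W
      (Representation.subrepresentation τ W fun g w hw => hW g w hw) rfl
    have h2 := congrArg Subtype.val (LinearMap.congr_fun h1 ⟨w, hw⟩)
    rw [LinearMap.sum_apply, Submodule.coe_sum] at h2
    rw [LinearMap.sum_apply]
    exact h2
  by_cases hv : ∃ v : M, v ≠ 0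
  · have : ¬ ∀ W : Submodule ℂ M, (∀ h, ∀ v ∈ W, τ h v ∈ W) → W = ⊥ ∨ W = ⊤ :=
      fun h' => hi ⟨hv, h'⟩
    push Not at this
    obtain ⟨W, hW, h0, h1⟩ := this
    obtain ⟨W', hW', hc⟩ := exists_compl (Nat.cast_ne_zero.2 Nat.card_pos.ne') τ W hW
    have h2 : W' ≠ ⊤ := fun h' => h0 (by
      have := hc.inf_eq_bot
      rwa [h', inf_top_eq] at this)
    refine LinearMap.ext fun v => ?_
    obtain ⟨a, ha, b, hb, rfl⟩ := Submodule.mem_sup.1 (hc.sup_eq_top ▸ Submodule.mem_top (x := v))
    rw [map_add, key W hW h1 a ha, key W' hW' h2 b hb, add_zero, LinearMap.zero_apply]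
  · push Not at hv
    exact LinearMap.ext fun v => (hv _).trans (hv _).symm

/-- the regular representation on functions -/
def xqcsep_reg (G : Type) [Group G] : Representation ℂ G (G → ℂ) where
  toFun g := LinearMap.funLeft ℂ ℂ fun x => x * g
  map_one' := by
    ext f x
    simp [LinearMap.funLeft_apply]
  map_mul' g h := by
    ext f x
    simp [LinearMap.funLeft_apply, mul_assoc]

theorem csep {G : Type} [Group G] [Fintype G] [DecidableRel (IsConj : G → G → Prop)]
    (φ : G → ℂ)
    (h : ∀ (M : Type) [AddCommGroup M] [Module ℂ M] [Module.Finite ℂ M]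
      (τ : Representation ℂ G M), IrrF τ → ∑ g, φ g * τ.character g = 0) (x : G) :
    ∑ g ∈ Finset.univ.filter (fun g => IsConj x g), φ g = 0 := by
  classical
  let ψ : G → ℂ := fun g => ∑ y, φ (y * g * y⁻¹)
  have hψ (y g : G) : ψ (y * g * y⁻¹) = ψ g := by
    refine Eq.trans ?_ (Equiv.sum_comp (Equiv.mulRight y) fun z => φ (z * g * z⁻¹))
    refine Finset.sum_congr rfl fun z _ => ?_
    simp [mul_assoc]
  have hZ := xqcsep_all ψ (fun M _ _ _ τ hi => xqcsep_irr ψ hψ τ hi (by
    simp only [ψ, Finset.sum_mul]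
    rw [Finset.sum_comm]
    refine Finset.sum_eq_zero fun y _ => ?_
    rw [← h M τ hi, ← xqcsep_conj y fun g => φ g * τ.character g]
    exact Finset.sum_congr rfl fun g _ => by rw [Representation.char_conj])) _ (G → ℂ)
    (xqcsep_reg G) rfl
  have h0 (g : G) : ψ g = 0 := by
    have h1 := congrFun (LinearMap.congr_fun hZ (Pi.single g 1)) 1
    rw [LinearMap.sum_apply, Finset.sum_apply, Finset.sum_eq_single g] at h1
    · simpa [xqcsep_reg, LinearMap.funLeft_apply] using h1
    · intro b _ hb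
      simp [xqcsep_reg, LinearMap.funLeft_apply, hb]
    · simp
  have h2 : ∑ g, (if IsConj x g then ψ g else 0) =
      ∑ _y : G, ∑ g, (if IsConj x g then φ g else 0) := by
    have h3 (g : G) : (if IsConj x g then ψ g else 0) =
        ∑ y : G, if IsConj x (y * g * y⁻¹) then φ (y * g * y⁻¹) else 0 := by
      have h4 (y : G) : IsConj x (y * g * y⁻¹) ↔ IsConj x g :=
        have h5 : IsConj g (y * g * y⁻¹) := isConj_iff.2 ⟨y, rfl⟩
        ⟨fun h6 => h6.trans h5.symm, fun h6 => h6.trans h5⟩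
      simp only [h4]
      split_ifs
      · rfl
      · simp
    simp only [h3]
    rw [Finset.sum_comm]
    exact Finset.sum_congr rfl fun y _ => xqcsep_conj y fun g => if IsConj x g then φ g else 0
  simp only [h0, ite_self, Finset.sum_const_zero, Finset.sum_const, Finset.card_univ,
    nsmul_eq_mul] at h2
  rw [Finset.sum_filter]
  exact (mul_eq_zero.1 h2.symm).resolve_left (Nat.cast_ne_zero.2 Fintype.card_ne_zero)

theorem qp_sq {G : Type} [Group G] [Finite G] (N : ℕ) (hP : QP G N) (x : G) (j : ℕ) (hj : j.Coprime N) :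
    IsConj x (x ^ (j * j)) := by
  classical
  have := Fintype.ofFinite G
  have h := csep (fun g => (if g = x then 1 else 0) - if g = x ^ (j * j) then 1 else 0)
    (fun M _ _ _ τ hi => by
      have hs : SS τ (j * j) := by
        have h1 (h : SS τ j) : SS τ (j * j) := fun g => by rw [pow_mul, h, h]
        rcases hP.2.2 M τ hi j j hj hj with h | h | h
        exacts [h1 h, h1 h, h]
      simp [sub_mul, Finset.sum_sub_distrib, hs x]) x
  by_contra hx
  simp [Finset.sum_sub_distrib, hx, IsConj.refl, -isConj_iff] at h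

end Pool.Agent.N9181
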