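import Pool.Agent.MP_9181f8_al.Q.CDualA
import Pool.Agent.MP_9181f8_al.Q.CSep

namespace Pool.Agent.N9181

open scoped commutatorElement

theorem xqcdual_pow {V : Type} [AddCommGroup V] [Module K V]
    {G : Type} [Group G] (ρ : Representation K G V) (ι : V → G) (hι : Emb ρ ι) (c : G) (v : V)
    (k : ℕ) : (ι v * c) ^ k = ι (∑ i ∈ Finset.range k, ρ (c ^ i) v) * c ^ k := by
  induction k with
  | zero => simp [xembb_zero ρ ι hι]
  | succ k ih =>
    rw [pow_succ, ih, Finset.sum_range_succ, hι.add, hι.act, pow_succ]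
    group

theorem xqcdual_f {V : Type} [AddCommGroup V] [Module K V]
    {G : Type} [Group G] (ρ : Representation K G V) (c : G) (f : Module.Dual K V)
    (hf : f ∘ₗ ρ c = f) (v : V) (k : ℕ) :
    f (∑ i ∈ Finset.range k, ρ (c ^ i) v) = (k : K) * f v := by
  have h1 : ∀ i : ℕ, f (ρ (c ^ i) v) = f v := by
    intro i
    induction i with
    | zero => simp
    | succ i ih =>
      rw [pow_succ', map_mul, Module.End.mul_apply, ← ih]
      exact LinearMap.congr_fun hf _
  rw [map_sum, Finset.sum_congr rfl fun i _ => h1 i]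
  simp

theorem xqcdual_zero {V : Type} [AddCommGroup V] [Module K V]
    {G : Type} [Group G] (ρ : Representation K G V) (ι : V → G) (hι : Emb ρ ι) (c d : G) (v : V)
    (n : ℕ) (hc : c ^ n = 1) (hd : d ^ n = 1) (h : IsConj c (ι v * d)) :
    ∑ i ∈ Finset.range n, ρ (d ^ i) v = 0 := by
  obtain ⟨g, hg⟩ := isConj_iff.1 h
  have h1 : (ι v * d) ^ n = 1 := by rw [← hg, conj_pow, hc]; group
  rw [xqcdual_pow ρ ι hι, hd, mul_one] at h1
  exact hι.inj (h1.trans (xembb_zero ρ ι hι).symm)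

theorem xqcdual_tel {V : Type} [AddCommGroup V] [Module K V]
    {G : Type} [Group G] (ρ : Representation K G V) (d : G) (v : V) (k : ℕ) :
    ∃ w : V, v - ρ (d ^ k) v = w - ρ d w := by
  induction k with
  | zero => exact ⟨0, by simp⟩
  | succ k ih =>
    obtain ⟨w, hw⟩ := ih
    refine ⟨w + ρ (d ^ k) v, ?_⟩
    rw [pow_succ', map_mul, Module.End.mul_apply, map_add]
    have : v = w - ρ d w + ρ (d ^ k) v := by rw [← hw]; abel
    conv_lhs => rw [this]
    rw [← this]
    have h2 : v - ρ d (ρ (d ^ k) v) = (v - ρ (d ^ k) v) + ρ (d ^ k) v - ρ d (ρ (d ^ k) v) := by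
      abel
    rw [h2, hw]
    abel

theorem xqcdual_conj {V : Type} [AddCommGroup V] [Module K V]
    {G : Type} [Group G] (ρ : Representation K G V) (ι : V → G) (hι : Emb ρ ι) (d : G) (v : V)
    (n : ℕ) (hn : (n : K) ≠ 0) (h : ∑ i ∈ Finset.range n, ρ (d ^ i) v = 0) :
    IsConj d (ι v * d) := by
  choose w hw using xqcdual_tel ρ d v
  have h1 : (n : K) • v = (∑ i ∈ Finset.range n, w i) - ρ d (∑ i ∈ Finset.range n, w i) := by
    rw [map_sum, ← Finset.sum_sub_distrib, ← Finset.sum_congr rfl fun i _ => hw i,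
      Finset.sum_sub_distrib, h, sub_zero, Finset.sum_const, Finset.card_range,
      Nat.cast_smul_eq_nsmul]
  obtain ⟨u, hu⟩ : ∃ u : V, v = u + ρ d (-u) := by
    refine ⟨(n : K)⁻¹ • ∑ i ∈ Finset.range n, w i, ?_⟩
    rw [map_neg, map_smul, ← sub_eq_add_neg, ← smul_sub, ← h1, smul_smul, inv_mul_cancel₀ hn,
      one_smul]
  refine isConj_iff.2 ⟨ι u, ?_⟩
  rw [hu, hι.add, hι.act, xembb_neg ρ ι hι]
  group

theorem xqcdual_sum {V : Type} [AddCommGroup V] [Module K V] [Fintype V]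
    {G : Type} [Group G] [Finite G] (ρ : Representation K G V) (ι : V → G) (hι : Emb ρ ι)
    (c : G) (f : Module.Dual K V) (hf : f ∘ₗ ρ c = f) (j : ℕ) (hj : (j : K) = 1)
    (hjG : (Nat.card G).Coprime j) (χ : G → ℂ) (hχ : ∀ g, χ (g ^ j) = χ g) :
    ∑ v : V, (ZMod.stdAddChar (-(f v)) : ℂ) * χ (ι v * c) =
      ∑ v : V, (ZMod.stdAddChar (-(f v)) : ℂ) * χ (ι v * c ^ j) := by
  have hinj : Function.Injective (fun v : V => ∑ i ∈ Finset.range j, ρ (c ^ i) v) := by
    intro v w h
    have h1 : (ι v * c) ^ j = (ι w * c) ^ j := by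
      rw [xqcdual_pow ρ ι hι, xqcdual_pow ρ ι hι]
      exact congrArg (fun x => ι x * c ^ j) h
    exact hι.inj (mul_right_cancel ((powCoprime hjG).injective h1))
  refine Fintype.sum_bijective _ (Finite.injective_iff_bijective.1 hinj) _ _ fun v => ?_
  rw [xqcdual_f ρ c f hf, hj, one_mul, ← xqcdual_pow ρ ι hι, hχ]

theorem xqcdual_sep {V : Type} [Fintype V] {G : Type} [Group G] [Finite G]
    [DecidableRel (IsConj : G → G → Prop)] (a : V → ℂ) (x y : V → G)
    (h : ∀ (M : Type) [AddCommGroup M] [Module ℂ M] [Module.Finite ℂ M]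
      (τ : Representation ℂ G M), IrrF τ →
        ∑ v, a v * τ.character (x v) = ∑ v, a v * τ.character (y v)) (c : G) :
    ∑ v, (if IsConj c (x v) then a v else 0) = ∑ v, (if IsConj c (y v) then a v else 0) := by
  classical
  have := Fintype.ofFinite G
  have key : ∀ (z : V → G) (χ : G → ℂ),
      ∑ g, (∑ v, if g = z v then a v else 0) * χ g = ∑ v, a v * χ (z v) := by
    intro z χ
    simp only [Finset.sum_mul]
    rw [Finset.sum_comm]
    refine Finset.sum_congr rfl fun v _ => ?_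
    simp
  have h1 := csep (fun g => (∑ v, if g = x v then a v else 0) - ∑ v, if g = y v then a v else 0)
    (fun M _ _ _ τ hτ => by
      simp only [sub_mul, Finset.sum_sub_distrib, key]
      exact sub_eq_zero.2 (h M τ hτ)) c
  have key2 : ∀ z : V → G, ∑ g ∈ Finset.univ.filter (fun g => IsConj c g),
      (∑ v, if g = z v then a v else 0) = ∑ v, (if IsConj c (z v) then a v else 0) := by
    intro z
    rw [Finset.sum_comm]
    refine Finset.sum_congr rfl fun v _ => ?_
    simp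
  rw [Finset.sum_sub_distrib, key2, key2] at h1
  exact sub_eq_zero.1 h1

theorem xqcdual_j (n N a b : ℕ) (hn : Nat.Coprime 13 n) (hd : 13 * n ∣ N) (hN : 0 < N)
    (ha : a.Coprime 13) (hb : b.Coprime n) :
    ∃ j : ℕ, j.Coprime N ∧ j ≡ a [MOD 13] ∧ j ≡ b [MOD n] := by
  obtain ⟨j1, h11, h12⟩ := Nat.chineseRemainder hn a b
  have hc1 : j1.Coprime 13 := by
    rw [Nat.Coprime, h11.gcd_eq]
    exact ha
  have hc2 : j1.Coprime n := by
    rw [Nat.Coprime, h12.gcd_eq]
    exact hb
  obtain ⟨j, hjN, hj⟩ := exists_j (13 * n) N j1 hd hN (hc1.mul_right hc2)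
  exact ⟨j, hjN, (hj.of_mul_right _).trans h11, (hj.of_mul_left _).trans h12⟩

theorem qp_dual {V : Type} [AddCommGroup V] [Module K V] [Module.Finite K V]
    {G : Type} [Group G] [Finite G] (ρ : Representation K G V) (ι : V → G) (hι : Emb ρ ι) (N : ℕ) (hP : QP G N) (c : G) (hc : ¬ 13 ∣ orderOf c)
    (hn : Nonrat N c) (f : Module.Dual K V) (hf : f ∘ₗ ρ c = f) (l : K) (hl : l ≠ 0) :
    ∃ g : G, f ∘ₗ ρ g = l • f := by
  classical
  by_contra hcon
  have hfin : Finite V := Module.finite_of_finite K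
  have := Fintype.ofFinite V
  obtain ⟨j0, hj0, hn⟩ := hn
  obtain ⟨h0, -, h13, -⟩ := emb_basic ρ ι hι
  obtain ⟨v0, hv0⟩ : ∃ v : V, v ≠ 0 := by
    by_contra h
    refine hcon ⟨1, LinearMap.ext fun v => ?_⟩
    have hv : v = 0 := by
      by_contra hv
      exact h ⟨v, hv⟩
    simp [hv]
  have cop : Nat.Coprime 13 (orderOf c) := (Nat.Prime.coprime_iff_not_dvd (by norm_num)).2 hc
  have hne : ι v0 ≠ 1 := fun h => hv0 (hι.inj (h.trans h0.symm))
  have ho : orderOf (ι v0) = 13 := orderOf_eq_prime (h13 v0) hne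
  have hd1 : 13 ∣ N := (ho ▸ orderOf_dvd_natCard (ι v0)).trans hP.1
  have hd2 : orderOf c ∣ N := (orderOf_dvd_natCard c).trans hP.1
  have hd : 13 * orderOf c ∣ N := cop.mul_dvd_of_dvd_of_dvd hd1 hd2
  have hlc : l.val.Coprime 13 :=
    (Nat.coprime_of_lt_prime (fun h => hl ((ZMod.val_eq_zero l).1 h)) (ZMod.val_lt l)
      (by norm_num)).symm
  obtain ⟨j, hjN, hj1, -⟩ := xqcdual_j (orderOf c) N l.val 1 cop hd hP.2.1 hlc (by simp)
  obtain ⟨j', hjN', hj1', hj2'⟩ := xqcdual_j (orderOf c) N 1 j0 cop hd hP.2.1 (by simp)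
    (hj0.coprime_dvd_right hd2)
  have hjl : (j : K) = l := by
    rw [(ZMod.natCast_eq_natCast_iff j l.val 13).2 hj1, ZMod.natCast_zmod_val]
  have hjl' : (j' : K) = 1 := by
    rw [(ZMod.natCast_eq_natCast_iff j' 1 13).2 hj1', Nat.cast_one]
  have hcj : c ^ j' = c ^ j0 := pow_eq_pow_of_modEq hj2' (pow_orderOf_eq_one c)
  have hnK : ((orderOf c : ℕ) : K) ≠ 0 := fun h => hc ((ZMod.natCast_eq_zero_iff _ 13).1 h)
  have hsep := xqcdual_sep (fun v : V => (ZMod.stdAddChar (-(f v)) : ℂ)) (fun v => ι v * c)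
    (fun v => ι v * c ^ j') (fun M _ _ _ τ hτ => by
      by_cases hp : pj τ ι f = 0
      · have e1 := pj_trace ρ ι hι τ f c
        have e2 := pj_trace ρ ι hι τ f (c ^ j')
        rw [hp, zero_mul, map_zero, finsum_eq_sum_of_fintype] at e1 e2
        exact e1.symm.trans e2
      · have hno : ∀ k : ℕ, (k : K) = l → ¬ SS τ k := fun k hk hS => by
          have := pj_orbit ρ ι hι τ hτ f _ hp (pj_ss ρ ι hι τ k (hk ▸ hl) hS f hp)
          rw [hk] at this
          exact hcon this
        have hS : SS τ j' := by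
          rcases hP.2.2 M τ hτ j j' hjN hjN' with h | h | h
          · exact absurd h (hno j hjl)
          · exact h
          · exact absurd h (hno _ (by rw [Nat.cast_mul, hjl, hjl', mul_one]))
        exact xqcdual_sum ρ ι hι c f hf j' hjl' (hjN'.coprime_dvd_right hP.1).symm _ hS) c
  have hR : ∀ v : V, ¬ IsConj c (ι v * c ^ j') := fun v h => by
    have hz := xqcdual_zero ρ ι hι c (c ^ j') v (orderOf c) (pow_orderOf_eq_one c)
      (by rw [← pow_mul, mul_comm, pow_mul, pow_orderOf_eq_one, one_pow]) h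
    exact hn (hcj ▸ h.trans (xqcdual_conj ρ ι hι (c ^ j') v _ hnK hz).symm)
  have hL : ∀ v : V, (if IsConj c (ι v * c) then (ZMod.stdAddChar (-(f v)) : ℂ) else 0) =
      if IsConj c (ι v * c) then 1 else 0 := fun v => by
    split_ifs with h
    · have hz := xqcdual_zero ρ ι hι c c v (orderOf c) (pow_orderOf_eq_one c)
        (pow_orderOf_eq_one c) h
      have h1 := xqcdual_f ρ c f hf v (orderOf c)
      rw [hz, map_zero] at h1
      rw [(mul_eq_zero.1 h1.symm).resolve_left hnK, neg_zero, AddChar.map_zero_eq_one]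
    · rfl
  simp only [hR, if_false, Finset.sum_const_zero, hL, Finset.sum_boole, Nat.cast_eq_zero,
    Finset.card_eq_zero, Finset.filter_eq_empty_iff] at hsep
  exact hsep (Finset.mem_univ 0) (by rw [h0, one_mul])

end Pool.Agent.N9181
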