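import Pool.Agent.MP_9181f8_al.Q.QBasic
import Pool.Agent.MP_9181f8_al.N.EmbB

namespace Pool.Agent.N9181

open scoped commutatorElement

section Aux

variable {V : Type} [AddCommGroup V] [Module K V] [Fintype V]
  {G : Type} [Group G] (ρ : Representation K G V) (ι : V → G) (hι : Emb ρ ι)
  {M : Type} [AddCommGroup M] [Module ℂ M] (τ : Representation ℂ G M)

theorem xqcduala_eq (f : Module.Dual K V) :
    pj τ ι f = ∑ v : V, (ZMod.stdAddChar (-(f v)) : ℂ) • τ (ι v) :=
  finsum_eq_sum_of_fintype _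

theorem xqcduala_psi (a b : K) :
    (ZMod.stdAddChar (-a) : ℂ) = ZMod.stdAddChar b * ZMod.stdAddChar (-(b + a)) := by
  rw [← AddChar.map_add_eq_mul]
  congr 1
  ring

include hι

theorem xqcduala_left (f : Module.Dual K V) (w : V) :
    τ (ι w) * pj τ ι f = (ZMod.stdAddChar (f w) : ℂ) • pj τ ι f := by
  rw [xqcduala_eq, Finset.mul_sum, Finset.smul_sum]
  refine Fintype.sum_equiv (Equiv.addLeft w) _ _ fun v => ?_
  rw [Equiv.coe_addLeft, mul_smul_comm, ← map_mul, ← hι.add, smul_smul, map_add,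
    ← xqcduala_psi]

theorem xqcduala_right (f : Module.Dual K V) (w : V) :
    pj τ ι f * τ (ι w) = (ZMod.stdAddChar (f w) : ℂ) • pj τ ι f := by
  rw [xqcduala_eq, Finset.sum_mul, Finset.smul_sum]
  refine Fintype.sum_equiv (Equiv.addLeft w) _ _ fun v => ?_
  rw [Equiv.coe_addLeft, smul_mul_assoc, ← map_mul, ← hι.add, smul_smul, map_add,
    ← xqcduala_psi, add_comm v w]

theorem xqcduala_sq (f : Module.Dual K V) :
    pj τ ι f * pj τ ι f = (Fintype.card V : ℂ) • pj τ ι f := by
  have h : ∀ v : V, ((ZMod.stdAddChar (-(f v)) : ℂ) • τ (ι v)) * pj τ ι f = pj τ ι f := by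
    intro v
    rw [smul_mul_assoc, xqcduala_left ρ ι hι, smul_smul, ← AddChar.map_add_eq_mul,
      neg_add_cancel, AddChar.map_zero_eq_one, one_smul]
  calc pj τ ι f * pj τ ι f
      = (∑ v : V, (ZMod.stdAddChar (-(f v)) : ℂ) • τ (ι v)) * pj τ ι f := by
        rw [← xqcduala_eq]
    _ = (Fintype.card V : ℂ) • pj τ ι f := by
        rw [Finset.sum_mul, Finset.sum_congr rfl fun v _ => h v, Finset.sum_const,
          Finset.card_univ, Nat.cast_smul_eq_nsmul]

theorem xqcduala_orth (f f' : Module.Dual K V) (h : f ≠ f') : pj τ ι f' * pj τ ι f = 0 := by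
  obtain ⟨w, hw⟩ : ∃ w, f w ≠ f' w := by
    by_contra hc
    push Not at hc
    exact h (LinearMap.ext hc)
  have h1 : (ZMod.stdAddChar (f w) : ℂ) • (pj τ ι f' * pj τ ι f) =
      (ZMod.stdAddChar (f' w) : ℂ) • (pj τ ι f' * pj τ ι f) := by
    rw [← mul_smul_comm, ← xqcduala_left ρ ι hι, ← mul_assoc, xqcduala_right ρ ι hι,
      smul_mul_assoc]
  rw [← sub_eq_zero, ← sub_smul] at h1
  refine (smul_eq_zero.1 h1).resolve_left (sub_ne_zero.2 fun e => hw ?_)
  exact ZMod.injective_stdAddChar e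

theorem xqcduala_conj (f : Module.Dual K V) (g : G) :
    τ g * pj τ ι (f ∘ₗ ρ g) = pj τ ι f * τ g := by
  rw [xqcduala_eq, xqcduala_eq, Finset.mul_sum, Finset.sum_mul]
  let e : V ≃ V :=
    { toFun := ρ g
      invFun := ρ g⁻¹
      left_inv := fun v => by
        rw [← Module.End.mul_apply, ← map_mul, inv_mul_cancel, map_one, Module.End.one_apply]
      right_inv := fun v => by
        rw [← Module.End.mul_apply, ← map_mul, mul_inv_cancel, map_one, Module.End.one_apply] }
  refine Fintype.sum_equiv e _ _ fun v => ?_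
  change _ = ((ZMod.stdAddChar (-(f (ρ g v))) : ℂ) • τ (ι (ρ g v))) * τ g
  rw [mul_smul_comm, smul_mul_assoc, ← map_mul, ← map_mul, hι.act, inv_mul_cancel_right]
  rfl

end Aux

theorem pj_orbit {V : Type} [AddCommGroup V] [Module K V] [Module.Finite K V]
    {G : Type} [Group G] [Finite G] (ρ : Representation K G V) (ι : V → G) (hι : Emb ρ ι) {M : Type} [AddCommGroup M] [Module ℂ M] [Module.Finite ℂ M] (τ : Representation ℂ G M) (hτ : IrrF τ)
    (f f' : Module.Dual K V) (hf : pj τ ι f ≠ 0) (hf' : pj τ ι f' ≠ 0) :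
    ∃ g : G, f ∘ₗ ρ g = f' := by
  have hfin : Finite V := Module.finite_of_finite K
  have := Fintype.ofFinite V
  by_contra hc
  push Not at hc
  let W : Submodule ℂ M := ⨅ g : G, LinearMap.ker (pj τ ι f' * τ g)
  have hW : ∀ m, m ∈ W ↔ ∀ g : G, (pj τ ι f' * τ g) m = 0 := fun m => by
    simp only [W, Submodule.mem_iInf, LinearMap.mem_ker]
  rcases hτ.2 W (fun h v hv => (hW _).2 fun g => by
    have h1 := (hW v).1 hv (g * h)
    rw [map_mul, ← mul_assoc, Module.End.mul_apply] at h1
    exact h1) with h | h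
  · apply hf
    ext m
    have hm : pj τ ι f m ∈ W := (hW _).2 fun g => by
      have h1 := xqcduala_conj ρ ι hι τ (f ∘ₗ ρ g⁻¹) g
      have h2 : (f ∘ₗ ρ g⁻¹) ∘ₗ ρ g = f := by
        ext v
        simp only [LinearMap.comp_apply]
        rw [← Module.End.mul_apply, ← map_mul, inv_mul_cancel, map_one, Module.End.one_apply]
      rw [h2] at h1
      rw [← Module.End.mul_apply, mul_assoc, h1, ← mul_assoc,
        xqcduala_orth ρ ι hι τ _ _ (hc g⁻¹), zero_mul, LinearMap.zero_apply]
    rw [h] at hm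
    exact hm
  · apply hf'
    ext m
    have hm : m ∈ W := by
      rw [h]
      exact Submodule.mem_top
    have h1 := (hW m).1 hm 1
    rwa [map_one, mul_one] at h1

theorem pj_trace {V : Type} [AddCommGroup V] [Module K V] [Module.Finite K V]
    {G : Type} [Group G] [Finite G] (ρ : Representation K G V) (ι : V → G) (hι : Emb ρ ι) {M : Type} [AddCommGroup M] [Module ℂ M] [Module.Finite ℂ M] (τ : Representation ℂ G M) (f : Module.Dual K V) (c : G) :
    LinearMap.trace ℂ M (pj τ ι f * τ c) =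
      ∑ᶠ v : V, (ZMod.stdAddChar (-(f v)) : ℂ) * τ.character (ι v * c) := by
  have hfin : Finite V := Module.finite_of_finite K
  have := Fintype.ofFinite V
  rw [xqcduala_eq, finsum_eq_sum_of_fintype, Finset.sum_mul, map_sum]
  refine Finset.sum_congr rfl fun v _ => ?_
  rw [smul_mul_assoc, ← map_mul, map_smul, smul_eq_mul]
  rfl

theorem pj_ss {V : Type} [AddCommGroup V] [Module K V] [Module.Finite K V]
    {G : Type} [Group G] [Finite G] (ρ : Representation K G V) (ι : V → G) (hι : Emb ρ ι) {M : Type} [AddCommGroup M] [Module ℂ M] [Module.Finite ℂ M] (τ : Representation ℂ G M) (j : ℕ) (hj : (j : K) ≠ 0)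
    (hS : SS τ j) (f : Module.Dual K V) (hf : pj τ ι f ≠ 0) : pj τ ι ((j : K) • f) ≠ 0 := by
  have hfin : Finite V := Module.finite_of_finite K
  have := Fintype.ofFinite V
  have hc : (Fintype.card V : ℂ) ≠ 0 := by exact_mod_cast Fintype.card_ne_zero
  have hid : IsIdempotentElem ((Fintype.card V : ℂ)⁻¹ • pj τ ι f) := by
    unfold IsIdempotentElem
    rw [smul_mul_assoc, mul_smul_comm, xqcduala_sq ρ ι hι, smul_smul _ (Fintype.card V : ℂ),
      inv_mul_cancel₀ hc, one_smul]
  have htr : LinearMap.trace ℂ M (pj τ ι ((j : K) • f)) = LinearMap.trace ℂ M (pj τ ι f) := by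
    have h1 := pj_trace ρ ι hι τ ((j : K) • f) 1
    have h2 := pj_trace ρ ι hι τ f 1
    rw [map_one, mul_one, finsum_eq_sum_of_fintype] at h1 h2
    rw [h1, h2]
    refine Fintype.sum_equiv (Equiv.smulRight (β := V) hj) _ _ fun v => ?_
    change _ = (ZMod.stdAddChar (-(f ((j : K) • v))) : ℂ) * τ.character (ι ((j : K) • v) * 1)
    rw [mul_one, mul_one, (emb_basic ρ ι hι).2.1, hS, map_smul]
    rfl
  intro h0
  rw [h0, map_zero] at htr
  have h3 : (Fintype.card V : ℂ)⁻¹ • pj τ ι f = 0 :=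
    (LinearMap.IsIdempotentElem.trace_eq_zero_iff hid).1 (by rw [map_smul, ← htr, smul_zero])
  exact hf ((smul_eq_zero.1 h3).resolve_left (inv_ne_zero hc))

end Pool.Agent.N9181
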