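import Pool.Agent.MP_9181f8_al.Q.QBasic
import Pool.Agent.MP_9181f8_al.Defs

namespace Pool.Agent.N9181

open scoped commutatorElement

theorem char_gal {M : Type} [AddCommGroup M] [Module ℂ M] [Module.Finite ℂ M] (a : Module.End ℂ M) (N : ℕ) (hN : 0 < N) (ha : a ^ N = 1)
    (ζ : ℂ) (hζ : IsPrimitiveRoot ζ N) :
    ∃ m : ℕ → ℕ, ∀ j : ℕ,
      LinearMap.trace ℂ M (a ^ j) = ∑ k ∈ Finset.range N, (m k : ℂ) * (ζ ^ j) ^ k := by
  have hz : ζ ≠ 0 := hζ.ne_zero hN.ne'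
  have hN' : (N : ℂ) ≠ 0 := by exact_mod_cast hN.ne'
  let E : ℕ → Module.End ℂ M := fun k => (N : ℂ)⁻¹ • ∑ i ∈ Finset.range N, (ζ⁻¹ ^ k • a) ^ i
  have h1 : ∀ k, (ζ⁻¹ ^ k • a) * E k = E k := fun k => by
    have h := mul_geom_sum (ζ⁻¹ ^ k • a) N
    rw [smul_pow, ha, ← pow_mul, mul_comm k N, pow_mul, hζ.inv.pow_eq_one, one_pow, one_smul,
      sub_self, sub_mul, one_mul, sub_eq_zero] at h
    simp only [E]
    rw [mul_smul_comm, h]
  have h2 : ∀ k i, (ζ⁻¹ ^ k • a) ^ i * E k = E k := fun k i => by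
    induction i with
    | zero => rw [pow_zero, one_mul]
    | succ i ih => rw [pow_succ, mul_assoc, h1, ih]
  have h3 : ∀ k, IsIdempotentElem (E k) := fun k => by
    change ((N : ℂ)⁻¹ • ∑ i ∈ Finset.range N, (ζ⁻¹ ^ k • a) ^ i) * E k = E k
    rw [smul_mul_assoc, Finset.sum_mul, Finset.sum_congr rfl fun i _ => h2 k i, Finset.sum_const,
      Finset.card_range, ← Nat.cast_smul_eq_nsmul ℂ, smul_smul, inv_mul_cancel₀ hN', one_smul]
  have h4 : ∀ k j, a ^ j * E k = (ζ ^ j) ^ k • E k := fun k j => by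
    conv_rhs => rw [← h2 k j]
    rw [smul_pow, smul_mul_assoc, smul_smul, ← pow_mul, ← pow_mul, mul_comm k j, ← mul_pow,
      mul_inv_cancel₀ hz, one_pow, one_smul]
  have h5 : ∑ k ∈ Finset.range N, E k = 1 := by
    simp only [E]
    rw [← Finset.smul_sum, Finset.sum_comm, Finset.sum_eq_single 0]
    · simp only [pow_zero, Finset.sum_const, Finset.card_range]
      rw [← Nat.cast_smul_eq_nsmul ℂ, smul_smul, inv_mul_cancel₀ hN', one_smul]
    · intro i hi hi0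
      have hne : ζ⁻¹ ^ i - 1 ≠ 0 :=
        sub_ne_zero.2 (hζ.inv.pow_ne_one_of_pos_of_lt hi0 (Finset.mem_range.1 hi))
      have h := mul_geom_sum (ζ⁻¹ ^ i) N
      rw [← pow_mul, mul_comm i N, pow_mul, hζ.inv.pow_eq_one, one_pow, sub_self] at h
      simp only [smul_pow]
      rw [← Finset.sum_smul, Finset.sum_congr rfl fun k _ => pow_right_comm ζ⁻¹ k i,
        (mul_eq_zero.1 h).resolve_left hne, zero_smul]
    · intro h
      exact (h (Finset.mem_range.2 hN)).elim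
  refine ⟨fun k => Module.finrank ℂ (LinearMap.range (E k)), fun j => ?_⟩
  rw [← mul_one (a ^ j), ← h5, Finset.mul_sum, map_sum]
  refine Finset.sum_congr rfl fun k _ => ?_
  rw [h4, map_smul, (LinearMap.IsIdempotentElem.isProj_range _ (h3 k)).trace, smul_eq_mul,
    mul_comm]

theorem xqcqp_irr {G : Type} [Group G] {V : Type} [AddCommGroup V] [Module ℂ V]
    (ρ : Representation ℂ G V) (hρ : IrrF ρ) : ρ.IsIrreducible := by
  obtain ⟨⟨v, hv⟩, h⟩ := hρ
  have : Nontrivial (Subrepresentation ρ) := ⟨⊥, ⊤, fun h1 => hv (by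
    have h2 : (⊥ : Submodule ℂ V) = ⊤ := congrArg Subrepresentation.toSubmodule h1
    have : v ∈ (⊥ : Submodule ℂ V) := h2 ▸ Submodule.mem_top
    simpa using this)⟩
  refine ⟨fun S => ?_⟩
  rcases h S.toSubmodule (fun g v hv => S.apply_mem_toSubmodule g hv) with h1 | h1
  · exact Or.inl (Subrepresentation.toSubmodule_injective h1)
  · exact Or.inr (Subrepresentation.toSubmodule_injective h1)

theorem xqcqp_quad {s : ℂ} {d : ℤ} (hs : s ^ 2 = d) {z : ℂ}
    (hz : z ∈ IntermediateField.adjoin ℚ {s}) : ∃ x y : ℚ, z = x + y * s := by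
  have hi : IsIntegral ℚ s := by
    refine IsIntegral.of_pow two_pos ?_
    rw [hs, ← map_intCast (algebraMap ℚ ℂ)]
    exact isIntegral_algebraMap
  have hz' : z ∈ Algebra.adjoin ℚ {s} := by
    rw [← IntermediateField.adjoin_simple_toSubalgebra_of_isAlgebraic hi.isAlgebraic]
    exact hz
  clear hz
  induction hz' using Algebra.adjoin_induction with
  | mem x hx => exact ⟨0, 1, by simpa using hx⟩
  | algebraMap r => exact ⟨r, 0, by simp⟩
  | add x y _ _ hx hy =>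
    obtain ⟨a, b, rfl⟩ := hx
    obtain ⟨a', b', rfl⟩ := hy
    exact ⟨a + a', b + b', by push_cast; ring⟩
  | mul x y _ _ hx hy =>
    obtain ⟨a, b, rfl⟩ := hx
    obtain ⟨a', b', rfl⟩ := hy
    exact ⟨a * a' + b * b' * d, a * b' + b * a', by
      push_cast
      linear_combination (b * b' : ℂ) * hs⟩

theorem xqcqp_hom {N : ℕ} (hN : 0 < N) {ζ : ℂ} (hζ : IsPrimitiveRoot ζ N) {j : ℕ}
    (hj : j.Coprime N) : ∃ φ : IntermediateField.adjoin ℚ {ζ} →ₐ[ℚ] ℂ,
      φ (IntermediateField.AdjoinSimple.gen ℚ ζ) = ζ ^ j := by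
  have hi : IsIntegral ℚ ζ := (hζ.isIntegral hN).tower_top
  have h : Polynomial.aeval (ζ ^ j) (minpoly ℚ ζ) = 0 := by
    rw [← Polynomial.cyclotomic_eq_minpoly_rat hζ hN,
      Polynomial.cyclotomic_eq_minpoly_rat (hζ.pow_of_coprime j hj) hN]
    exact minpoly.aeval _ _
  exact ⟨_, IntermediateField.algHomAdjoinIntegralEquiv_symm_apply_gen ℚ hi
    ⟨ζ ^ j, Polynomial.mem_aroots.2 ⟨minpoly.ne_zero hi, h⟩⟩⟩

theorem qp_of_qr {G : Type} [Group G] [Finite G] (h : Pool.Agent.MP_9181f8_al.IsQR G) : QP G (Nat.card G) := by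
  have hN : 0 < Nat.card G := Nat.card_pos
  refine ⟨dvd_rfl, hN, fun M _ _ _ τ hτ => ?_⟩
  have hζ := Complex.isPrimitiveRoot_exp _ hN.ne'
  generalize Complex.exp (2 * Real.pi * Complex.I / Nat.card G) = ζ at hζ
  have hg : ∀ g : G, ∃ m : ℕ → ℕ, ∀ j : ℕ, τ.character (g ^ j) =
      ∑ k ∈ Finset.range (Nat.card G), (m k : ℂ) * (ζ ^ j) ^ k := fun g => by
    obtain ⟨m, hm⟩ := char_gal (τ g) _ hN (by rw [← map_pow, pow_card_eq_one', map_one]) ζ hζ
    exact ⟨m, fun j => by rw [← hm, ← map_pow]; rfl⟩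
  choose m hm using hg
  let F := IntermediateField.adjoin ℚ {ζ}
  let w : G → F := fun g =>
    ∑ k ∈ Finset.range (Nat.card G), (m g k : F) * IntermediateField.AdjoinSimple.gen ℚ ζ ^ k
  have hw : ∀ g, (w g : ℂ) = τ.character g := fun g => by
    have h1 := hm g 1
    rw [pow_one, pow_one] at h1
    rw [h1]
    simp [w]
  have hle : IntermediateField.adjoin ℚ (Set.range τ.character) ≤ F :=
    IntermediateField.adjoin_le_iff.2 fun _ ⟨g, hg⟩ => hg ▸ hw g ▸ (w g).2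
  obtain ⟨d, s, hs, hsF, hxy⟩ : ∃ (d : ℤ) (s : ℂ), s ^ 2 = d ∧ s ∈ F ∧
      ∀ g, ∃ x y : ℚ, τ.character g = x + y * s := by
    rcases h M τ (xqcqp_irr τ hτ) with h1 | ⟨d, -, s, hs, h1⟩
    · refine ⟨0, 0, by simp, F.zero_mem, fun g => ?_⟩
      have h2 : τ.character g ∈ (⊥ : IntermediateField ℚ ℂ) :=
        h1 ▸ IntermediateField.subset_adjoin _ _ ⟨g, rfl⟩
      obtain ⟨x, hx⟩ := IntermediateField.mem_bot.1 h2
      exact ⟨x, 0, by simp [← hx]⟩
    · exact ⟨d, s, hs, hle (h1 ▸ IntermediateField.mem_adjoin_simple_self ℚ s), fun g =>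
        xqcqp_quad hs (h1 ▸ IntermediateField.subset_adjoin _ _ ⟨g, rfl⟩)⟩
  have key : ∀ j : ℕ, j.Coprime (Nat.card G) → ∃ t : ℂ, (t = s ∨ t = -s) ∧
      ∀ (g : G) (x y : ℚ), τ.character g = x + y * s → τ.character (g ^ j) = x + y * t := by
    intro j hj
    obtain ⟨φ, hφ⟩ := xqcqp_hom hN hζ hj
    refine ⟨φ ⟨s, hsF⟩, sq_eq_sq_iff_eq_or_eq_neg.1 ?_, fun g x y hxy => ?_⟩
    · rw [← map_pow, hs, ← map_intCast φ]
      exact congrArg φ (Subtype.ext (by simpa using hs))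
    · have h1 : w g = (x : F) + (y : F) * ⟨s, hsF⟩ := Subtype.ext (by
        rw [hw, hxy]
        simp)
      have h2 : φ (w g) = τ.character (g ^ j) := by
        rw [hm]
        simp only [w, map_sum, map_mul, map_natCast, map_pow, hφ]
      rw [← h2, h1, map_add, map_mul, map_ratCast, map_ratCast]
  intro j j' hj hj'
  obtain ⟨t, ht | ht, h1⟩ := key j hj
  · refine Or.inl fun g => ?_
    obtain ⟨x, y, e⟩ := hxy g
    rw [h1 g x y e, e, ht]
  obtain ⟨t', ht' | ht', h2⟩ := key j' hj'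
  · refine Or.inr (Or.inl fun g => ?_)
    obtain ⟨x, y, e⟩ := hxy g
    rw [h2 g x y e, e, ht']
  refine Or.inr (Or.inr fun g => ?_)
  obtain ⟨x, y, e⟩ := hxy g
  rw [pow_mul, h2 (g ^ j) x (-y) (by rw [h1 g x y e, ht]; push_cast; ring), e, ht']
  push_cast
  ring

theorem qp_surj {G : Type} [Group G] [Finite G] {G' : Type} [Group G'] (f : G →* G')
    (hf : Function.Surjective f) (N : ℕ) (hP : QP G N) : QP G' N := by
  obtain ⟨h1, h2, h3⟩ := hP
  refine ⟨(Subgroup.card_dvd_of_surjective f hf).trans h1, h2, fun M _ _ _ τ hτ j j' hj hj' => ?_⟩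
  have key : ∀ i, SS (τ.comp f : Representation ℂ G M) i → SS τ i := fun i h g => by
    obtain ⟨g, rfl⟩ := hf g
    rw [← map_pow]
    exact h g
  refine (h3 M (τ.comp f) ⟨hτ.1, fun W hW => hτ.2 W fun g v hv => ?_⟩ j j' hj hj').imp (key _)
    (Or.imp (key _) (key _))
  obtain ⟨g, rfl⟩ := hf g
  exact hW g v hv

end Pool.Agent.N9181
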