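import Pool.Agent.MP_9181f8_al.Q.QBasic

namespace Pool.Agent.N9181

open scoped commutatorElement

theorem xqcana_det {A : Type} [Ring A] [Algebra ℂ A] [Module.Finite ℂ A] (e : A) (he : e * e = e)
    (c : ℂ) : dl e (c • e) = c ^ bd e := by
  have hW : ∀ x ∈ LinearMap.range (LinearMap.mulLeft ℂ e),
      LinearMap.mulLeft ℂ (c • e + (1 - e)) x = c • x := by
    rintro _ ⟨y, rfl⟩
    simp only [LinearMap.mulLeft_apply, add_mul, sub_mul, smul_mul_assoc, ← mul_assoc, he, one_mul,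
      sub_self, add_zero]
  have hle : LinearMap.range (LinearMap.mulLeft ℂ e) ≤ (LinearMap.range
      (LinearMap.mulLeft ℂ e)).comap (LinearMap.mulLeft ℂ (c • e + (1 - e))) := fun x hx => by
    rw [Submodule.mem_comap, hW x hx]
    exact Submodule.smul_mem _ _ hx
  rw [dl, LinearMap.det_eq_det_mul_det _ _ hle]
  have h1 : (LinearMap.mulLeft ℂ (c • e + (1 - e))).restrict
      (p := LinearMap.range (LinearMap.mulLeft ℂ e)) (q := LinearMap.range (LinearMap.mulLeft ℂ e))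
      hle = c • LinearMap.id := by
    ext x
    exact hW x x.2
  have h2 : Submodule.mapQ _ _ (LinearMap.mulLeft ℂ (c • e + (1 - e))) hle = LinearMap.id := by
    ext x
    refine (Submodule.Quotient.eq _).2 ⟨c • x - x, ?_⟩
    simp only [LinearMap.mulLeft_apply, add_mul, sub_mul, mul_sub, smul_mul_assoc, mul_smul_comm,
      one_mul]
    abel
  rw [h1, h2, LinearMap.det_smul, LinearMap.det_id, LinearMap.det_id, mul_one, mul_one, bd]

theorem xqcana_cop {m n : ℕ} (hm : ¬ 13 ∣ m) (hn : ¬ 13 ∣ n) (s : ℕ) :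
    (m * n).Coprime (13 ^ s) :=
  ((Nat.Prime.coprime_iff_not_dvd fact13.out).2 fun h =>
    ((Nat.Prime.dvd_mul fact13.out).1 h).elim hm hn).symm.pow_right s

theorem dl_mul {A : Type} [Ring A] [Algebra ℂ A] [Module.Finite ℂ A] (e a a' : A) (he : PC e) (ha : a * e = a) (ha' : a' * e = a') :
    dl e (a * a') = dl e a * dl e a' := by
  have h : a * a' + (1 - e) = (a + (1 - e)) * (a' + (1 - e)) := by
    simp only [add_mul, mul_add, mul_sub, sub_mul, mul_one, one_mul, ha, he.2.1, he.2.2.1 a', ha']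
    abel
  rw [dl, dl, dl, h, LinearMap.mulLeft_mul, LinearMap.det_comp]

theorem dl_smul {A : Type} [Ring A] [Algebra ℂ A] [Module.Finite ℂ A] (e a : A) (he : PC e) (ha : a * e = a) (c : ℂ) :
    dl e (c • a) = c ^ bd e * dl e a ∧ dl e e = 1 := by
  have h1 := xqcana_det e he.2.1 1
  rw [one_smul, one_pow] at h1
  refine ⟨?_, h1⟩
  rw [← xqcana_det e he.2.1 c, ← dl_mul e _ a he (by rw [smul_mul_assoc, he.2.1]) ha,
    smul_mul_assoc, he.2.2.1, ha]

theorem can_scal {A : Type} [Ring A] [Algebra ℂ A] (e a a' b' : A) (he : PC e) (ψ : A → A) (ha : a * e = a)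
    (hb : a' * b' = e) (hb' : b' * a' = e) (h : ∀ x, a * x = ψ x * a)
    (h' : ∀ x, a' * x = ψ x * a') (ha' : a' * e = a') : ∃ c : ℂ, a = c • a' := by
  have hea : e * a = a := by rw [he.2.2.1, ha]
  obtain ⟨c, hc⟩ := he.2.2.2 (b' * a) fun x => by
    calc b' * a * x = b' * (ψ x * a') * b' * a := by
          rw [mul_assoc, h, ← hea, ← hb]; simp only [mul_assoc]; rw [← mul_assoc a', hb, hea,
            ← mul_assoc a', hb, hea]
      _ = x * (b' * (e * a)) := by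
          rw [← h', ← mul_assoc b', hb', he.2.2.1 x, mul_assoc x, he.2.2.1 b']
          simp only [mul_assoc]
      _ = x * (b' * a) := by rw [hea]
  refine ⟨c, ?_⟩
  rw [mul_assoc, ha] at hc
  rw [← hea, ← hb, mul_assoc, hc, mul_smul_comm, ha']

theorem can_unique {A : Type} [Ring A] [Algebra ℂ A] [Module.Finite ℂ A]
    {G : Type} [Group G] [Finite G] {R : Subgroup G} [R.Normal]
    (ι : R →* A) (φ : G →* (A ≃ₐ[ℂ] A)) (hA : AD ι φ) (h13 : ¬ 13 ∣ Nat.card R) (s : ℕ) (e : A) (he : PC e) (hD : ¬ 13 ∣ bd e) (q : G)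
    (hq : q ^ (13 ^ s) ∈ R) (a a' : A) (ha : Can ι φ s e q a) (ha' : Can ι φ s e q a') :
    a = a' := by
  obtain ⟨b', hb, hb'⟩ := ha'.inv
  obtain ⟨c, hc⟩ := can_scal e a a' b' he (φ q) ha.sup hb hb' ha.cnj ha'.cnj ha'.sup
  have h1 := ha.det
  rw [hc, (dl_smul e a' he ha'.sup c).1, mul_pow, ha'.det, mul_one, ← pow_mul] at h1
  have h2 := ha.pw ⟨_, hq⟩ rfl
  rw [hc, smul_pow, smul_mul_assoc, ha'.pw ⟨_, hq⟩ rfl] at h2
  have h3 : c ^ 13 ^ s = 1 := by
    have h4 := congrArg (ι (⟨_, hq⟩ : R)⁻¹ * ·) h2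
    simp only [mul_smul_comm, ← mul_assoc, ← map_mul, inv_mul_cancel, map_one, one_mul] at h4
    exact smul_left_injective ℂ he.1 (h4.trans (one_smul ℂ e).symm)
  rw [hc, (pow_eq_one_iff_of_coprime (xqcana_cop hD h13 s)).1 ⟨h1, h3⟩, one_smul]

theorem can_exists {A : Type} [Ring A] [Algebra ℂ A] [Module.Finite ℂ A]
    {G : Type} [Group G] [Finite G] {R : Subgroup G} [R.Normal]
    (ι : R →* A) (φ : G →* (A ≃ₐ[ℂ] A)) (hA : AD ι φ) (h13 : ¬ 13 ∣ Nat.card R) (s : ℕ) (e : A) (he : PC e) (hD : ¬ 13 ∣ bd e) (hS : SN e)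
    (q : G) (hq : q ^ (13 ^ s) ∈ R) (hqe : φ q e = e) : ∃ a, Can ι φ s e q a := by
  obtain ⟨a, b, h1, h2, h3, h4⟩ := hS (φ q) hqe
  have hN : 0 < 13 ^ s := by positivity
  have hc : ∀ x y, x * e * (y * e) = x * y * e := fun x y => by
    rw [mul_assoc, ← mul_assoc e, he.2.2.1 y, mul_assoc y, he.2.1, mul_assoc]
  have hee : ∀ x, x * e * e = x * e := fun x => by rw [mul_assoc, he.2.1]
  have p1 : ∀ (k : ℕ) x, a ^ k * x = φ (q ^ k) x * a ^ k := fun k x => by
    induction k with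
    | zero => simp
    | succ k ih =>
      rw [pow_succ', pow_succ', mul_assoc, ih, ← mul_assoc, h4, map_mul, mul_assoc]
      rfl
  have p2 : ∀ k : ℕ, a ^ k * e * b ^ k = e := fun k => by
    induction k with
    | zero => simp
    | succ k ih => rw [pow_succ, pow_succ', mul_assoc (a ^ k), h1, ← mul_assoc, mul_assoc (a ^ k),
        h2, ih]
  have p3 : ∀ x, x * e = x → ∀ k : ℕ, dl e (x ^ k * e) = dl e x ^ k := fun x hx k => by
    induction k with
    | zero => rw [pow_zero, pow_zero, one_mul, (dl_smul e x he hx 1).2]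
    | succ k ih => rw [pow_succ, pow_succ, ← ih, ← dl_mul e _ x he (hee _) hx, mul_assoc,
        mul_assoc, he.2.2.1]
  have p4 : ∀ (x : A) (k : ℕ), (x * e) ^ k * e = x ^ k * e := fun x k => by
    induction k with
    | zero => simp
    | succ k ih => rw [pow_succ', pow_succ', mul_assoc, ih, hc]
  obtain ⟨r, hr⟩ : ∃ r : R, (r : G) = q ^ 13 ^ s := ⟨⟨_, hq⟩, rfl⟩
  obtain ⟨c, hc'⟩ := can_scal e (a ^ 13 ^ s * e) (ι r * e) (ι r⁻¹ * e) he (φ r) (hee _)
    (by rw [hc, ← map_mul, mul_inv_cancel, map_one, one_mul])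
    (by rw [hc, ← map_mul, inv_mul_cancel, map_one, one_mul])
    (fun x => by rw [mul_assoc, he.2.2.1, ← mul_assoc, p1, hr, mul_assoc])
    (fun x => by rw [mul_assoc, he.2.2.1, ← mul_assoc, ← hA.inn, mul_assoc]) (hee _)
  have hc0 : c ≠ 0 := fun h => he.1 (by rw [← p2 (13 ^ s), hc', h, zero_smul, zero_mul])
  obtain ⟨u, hu⟩ := IsAlgClosed.exists_pow_nat_eq c⁻¹ hN
  have hu0 : u ≠ 0 := fun h => inv_ne_zero hc0 (by rw [← hu, h, zero_pow hN.ne'])
  have q1 : u • a * e = u • a := by rw [smul_mul_assoc, h1]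
  have q2 : (u • a) ^ 13 ^ s * e = ι r * e := by
    rw [smul_pow, smul_mul_assoc, hc', hu, smul_smul, inv_mul_cancel₀ hc0, one_smul]
  have q3 : (dl e (u • a) ^ Nat.card R) ^ 13 ^ s = 1 := by
    rw [pow_right_comm, ← p3 _ q1, q2, ← p3 _ (hee _), p4, ← map_pow, pow_card_eq_one', map_one,
      one_mul, (dl_smul e a he h1 1).2]
  have q4 : (dl e (u • a) ^ Nat.card R)⁻¹ ^ 13 ^ s = 1 := by rw [inv_pow, q3, inv_one]
  obtain ⟨k, hk⟩ := exists_pow_eq_self_of_coprime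
    ((xqcana_cop hD h13 s).of_dvd_right (orderOf_dvd_of_pow_eq_one q4))
  have q5 : ((dl e (u • a) ^ Nat.card R)⁻¹ ^ k) ^ 13 ^ s = 1 := by rw [pow_right_comm, q4, one_pow]
  rw [pow_right_comm] at hk
  generalize (dl e (u • a) ^ Nat.card R)⁻¹ ^ k = w at q5 hk
  have hw0 : w ≠ 0 := fun h => by simp [h] at q5
  refine ⟨w • u • a, by rw [smul_mul_assoc, q1], ⟨(w * u)⁻¹ • b, ?_, ?_⟩, fun x => ?_, ?_,
    fun r' hr' => ?_⟩
  · rw [smul_smul, smul_mul_smul_comm, h2, mul_inv_cancel₀ (mul_ne_zero hw0 hu0), one_smul]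
  · rw [smul_smul, smul_mul_smul_comm, h3, inv_mul_cancel₀ (mul_ne_zero hw0 hu0), one_smul]
  · simp only [smul_mul_assoc, mul_smul_comm, h4]
  · rw [(dl_smul e _ he q1 w).1, mul_pow, ← pow_mul, hk, inv_mul_cancel₀]
    intro h
    simp [h] at q3
  · rw [smul_pow, smul_mul_assoc, q2, q5, one_smul, Subtype.ext (hr'.trans hr.symm)]

end Pool.Agent.N9181
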