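import Pool.Agent.MP_9181f8_al.Q.QBasic
import Pool.Agent.MP_9181f8_al.Q.CanA

namespace Pool.Agent.N9181

open scoped commutatorElement

theorem xqcanb_mul {A : Type} [Ring A] [Algebra ℂ A] {e : A} (he : PC e) (x y : A) :
    x * e * (y * e) = x * y * e := by
  rw [mul_assoc x, ← mul_assoc e, he.2.2.1 y, mul_assoc y, he.2.1, mul_assoc]

theorem xqcanb_pow {A : Type} [Ring A] [Algebra ℂ A] {e : A} (he : PC e) (x : A) (m : ℕ) :
    (x * e) ^ m * e = x ^ m * e := by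
  induction m with
  | zero => rw [pow_zero, pow_zero]
  | succ m ih => rw [pow_succ', mul_assoc, ih, xqcanb_mul he, pow_succ']

theorem xqcanb_dl {A : Type} [Ring A] [Algebra ℂ A] [Module.Finite ℂ A] {e : A} (he : PC e)
    (x : A) (m : ℕ) : dl e (x ^ m * e) = dl e (x * e) ^ m := by
  have h : ∀ y : A, y * e * e = y * e := fun y => by rw [mul_assoc, he.2.1]
  induction m with
  | zero => rw [pow_zero, pow_zero, one_mul, (dl_smul e e he he.2.1 1).2]
  | succ m ih => rw [pow_succ, ← xqcanb_mul he, dl_mul e _ _ he (h _) (h _), ih, pow_succ]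

theorem xqcanb_conj {A : Type} [Ring A] [Algebra ℂ A] (ψ : A ≃ₐ[ℂ] A) (e a : A) :
    dl (ψ e) (ψ a) = dl e a := by
  rw [dl, dl, ← LinearMap.det_conj (LinearMap.mulLeft ℂ (a + (1 - e))) ψ.toLinearEquiv]
  congr 1
  ext x
  simp

theorem can_res {A : Type} [Ring A] [Algebra ℂ A] [Module.Finite ℂ A]
    {G : Type} [Group G] [Finite G] {R : Subgroup G} [R.Normal]
    (ι : R →* A) (φ : G →* (A ≃ₐ[ℂ] A)) (hA : AD ι φ) (s : ℕ) (e : A) (he : PC e) (r : R) : Can ι φ s e (r : G) (ι r * e) := by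
  refine ⟨by rw [mul_assoc, he.2.1], ⟨ι r⁻¹ * e, ?_, ?_⟩, fun x => ?_, ?_, fun r' h => ?_⟩
  · rw [xqcanb_mul he, ← map_mul, mul_inv_cancel, map_one, one_mul]
  · rw [xqcanb_mul he, ← map_mul, inv_mul_cancel, map_one, one_mul]
  · rw [mul_assoc, he.2.2.1 x, ← mul_assoc, ← hA.inn, mul_assoc]
  · rw [← xqcanb_dl he, ← map_pow, pow_card_eq_one', map_one, one_mul, (dl_smul e e he he.2.1 1).2]
  · rw [xqcanb_pow he, ← map_pow, show r' = r ^ 13 ^ s from Subtype.ext h]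

theorem can_equi {A : Type} [Ring A] [Algebra ℂ A] [Module.Finite ℂ A]
    {G : Type} [Group G] [Finite G] {R : Subgroup G} [R.Normal]
    (ι : R →* A) (φ : G →* (A ≃ₐ[ℂ] A)) (hA : AD ι φ) (s : ℕ) (e : A) (q g : G) (a : A) (ha : Can ι φ s e q a) :
    Can ι φ s (φ g e) (g * q * g⁻¹) (φ g a) := by
  obtain ⟨b, hb, hb'⟩ := ha.inv
  refine ⟨by rw [← map_mul, ha.sup], ⟨φ g b, by rw [← map_mul, hb], by rw [← map_mul, hb']⟩,
    fun x => ?_, by rw [xqcanb_conj, ha.det], fun r h => ?_⟩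
  · obtain ⟨y, rfl⟩ := (φ g).surjective x
    rw [← map_mul, ha.cnj, ← AlgEquiv.mul_apply (φ _) (φ g), ← map_mul φ, inv_mul_cancel_right,
      map_mul φ, AlgEquiv.mul_apply, map_mul]
  · have h1 := ha.pw (MulAut.conjNormal g⁻¹ r) (by
      rw [MulAut.conjNormal_apply, h, conj_pow]
      group)
    rw [← map_pow, ← map_mul, h1, map_mul, hA.act, map_inv, MulAut.apply_inv_self]

theorem can_rmul {A : Type} [Ring A] [Algebra ℂ A] [Module.Finite ℂ A]
    {G : Type} [Group G] [Finite G] {R : Subgroup G} [R.Normal]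
    (ι : R →* A) (φ : G →* (A ≃ₐ[ℂ] A)) (hA : AD ι φ) (s : ℕ) (e : A) (he : PC e) (q : G) (a : A) (ha : Can ι φ s e q a) (r : R) :
    Can ι φ s e ((r : G) * q) (ι r * a) := by
  obtain ⟨b, hb, hb'⟩ := ha.inv
  have h0 : ι r * a = ι r * e * a := by rw [mul_assoc, he.2.2.1 a, ha.sup]
  have key : ∀ k : ℕ, ∃ p : R, ((r : G) * q) ^ k = p * q ^ k ∧ (ι r * a) ^ k = ι p * a ^ k := by
    intro k
    induction k with
    | zero => exact ⟨1, by simp, by simp⟩
    | succ k ih =>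
      obtain ⟨p, h1, h2⟩ := ih
      refine ⟨r * MulAut.conjNormal q p, ?_, ?_⟩
      · rw [pow_succ', h1, Subgroup.coe_mul, MulAut.conjNormal_apply, pow_succ']
        group
      · rw [pow_succ', h2, map_mul, ← hA.act, pow_succ', mul_assoc, mul_assoc, ← mul_assoc a,
          ha.cnj, mul_assoc]
  refine ⟨by rw [mul_assoc, ha.sup], ⟨b * ι r⁻¹, ?_, ?_⟩, fun x => ?_, ?_, fun r' h => ?_⟩
  · rw [mul_assoc, ← mul_assoc a, hb, he.2.2.1, ← mul_assoc, ← map_mul, mul_inv_cancel, map_one,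
      one_mul]
  · rw [mul_assoc, ← mul_assoc (ι r⁻¹), ← map_mul, inv_mul_cancel, map_one, one_mul, hb']
  · rw [mul_assoc, ha.cnj, ← mul_assoc, ← hA.inn, map_mul, AlgEquiv.mul_apply, mul_assoc]
  · rw [h0, dl_mul e _ _ he (can_res ι φ hA s e he r).sup ha.sup, mul_pow, ha.det,
      (can_res ι φ hA s e he r).det, one_mul]
  · obtain ⟨p, h1, h2⟩ := key (13 ^ s)
    rw [h2, mul_assoc, ha.pw (p⁻¹ * r') (by
      rw [Subgroup.coe_mul, h, h1, Subgroup.coe_inv, inv_mul_cancel_left]), ← mul_assoc, ← map_mul,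
      mul_inv_cancel_left]

end Pool.Agent.N9181
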