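import Pool.Agent.MP_9181f8_al.Q.QBasic

namespace Pool.Agent.N9181

open scoped commutatorElement

theorem xqwed_c {A : Type} [Ring A] [Algebra ℂ A] {e : A} (h0 : e ≠ 0) (h : e * e = e) {c : ℂ}
    (hc : c • e * c • e = c • e) : c = 0 ∨ c = 1 := by
  rw [smul_mul_smul_comm, h, ← sub_eq_zero, ← sub_smul, smul_eq_zero, sub_eq_zero] at hc
  rcases eq_or_ne c 0 with h1 | h1
  · exact Or.inl h1
  · exact Or.inr (mul_left_cancel₀ h1 ((hc.resolve_right h0).trans (mul_one c).symm))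

theorem pc_orth {A : Type} [Ring A] [Algebra ℂ A] (e e' : A) (he : PC e) (he' : PC e') (h : e ≠ e') : e * e' = 0 := by
  obtain ⟨c, hc⟩ := he.2.2.2 e' he'.2.2.1
  obtain ⟨c', hc'⟩ := he'.2.2.2 e he.2.2.1
  have h1 : e * e' * (e * e') = e * e' := by
    rw [mul_assoc, ← mul_assoc e', he'.2.2.1 e, mul_assoc, he'.2.1, ← mul_assoc, he.2.1]
  have h2 : e * e' = c • e := (he.2.2.1 e').trans hc
  rcases xqwed_c he.1 he.2.1 (h2 ▸ h1) with h3 | h3
  · rw [h2, h3, zero_smul]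
  rcases xqwed_c he'.1 he'.2.1 (hc' ▸ h1) with h4 | h4
  · rw [hc', h4, zero_smul]
  rw [h3, one_smul] at h2
  rw [h4, one_smul] at hc'
  exact absurd (h2.symm.trans hc') h

theorem xqwed_pc {A B : Type} [Ring A] [Algebra ℂ A] [Ring B] [Algebra ℂ B] (φ : A ≃ₐ[ℂ] B)
    {e : A} (he : PC e) : PC (φ e) := by
  refine ⟨(map_ne_zero_iff φ φ.injective).2 he.1, by rw [← map_mul, he.2.1], fun x => ?_,
    fun z hz => ?_⟩
  · obtain ⟨x, rfl⟩ := φ.surjective x
    rw [← map_mul, ← map_mul, he.2.2.1]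
  · obtain ⟨z, rfl⟩ := φ.surjective z
    obtain ⟨c, hc⟩ := he.2.2.2 z fun x => φ.injective (by rw [map_mul, map_mul, hz])
    exact ⟨c, by rw [← map_mul, hc, map_smul]⟩

theorem pc_map {A : Type} [Ring A] [Algebra ℂ A] (φ : A ≃ₐ[ℂ] A) (e : A) (he : PC e) : PC (φ e) :=
  xqwed_pc φ he

theorem xqwed_sn {A B : Type} [Ring A] [Algebra ℂ A] [Ring B] [Algebra ℂ B] (φ : A ≃ₐ[ℂ] B)
    {e : A} (he : SN e) : SN (φ e) := by
  intro ψ hψ
  obtain ⟨a, b, h1, h2, h3, h4⟩ := he (φ.trans (ψ.trans φ.symm)) (by simp [hψ])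
  refine ⟨φ a, φ b, by rw [← map_mul, h1], by rw [← map_mul, h2], by rw [← map_mul, h3],
    fun x => ?_⟩
  obtain ⟨x, rfl⟩ := φ.surjective x
  rw [← map_mul, h4, map_mul]
  simp

theorem xqwed_inn {d : ℕ} (ψ : Matrix (Fin d) (Fin d) ℂ ≃ₐ[ℂ] Matrix (Fin d) (Fin d) ℂ) :
    ∃ a b : Matrix (Fin d) (Fin d) ℂ, a * b = 1 ∧ b * a = 1 ∧ ∀ x, a * x = ψ x * a := by
  let t : Matrix (Fin d) (Fin d) ℂ ≃ₐ[ℂ] Module.End ℂ (Fin d → ℂ) := Matrix.toLinAlgEquiv'
  obtain ⟨T, hT⟩ := (t.symm.trans (ψ.trans t)).eq_linearEquivConjAlgEquiv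
  refine ⟨t.symm T.toLinearMap, t.symm T.symm.toLinearMap, t.injective ?_, t.injective ?_,
    fun x => t.injective ?_⟩
  · rw [map_mul, map_one, t.apply_symm_apply, t.apply_symm_apply]
    exact LinearMap.ext fun v => T.apply_symm_apply v
  · rw [map_mul, map_one, t.apply_symm_apply, t.apply_symm_apply]
    exact LinearMap.ext fun v => T.symm_apply_apply v
  · have h1 : t (ψ x) = T.conjAlgEquiv ℂ (t x) := by
      rw [← hT, AlgEquiv.trans_apply, AlgEquiv.trans_apply, t.symm_apply_apply]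
    rw [map_mul, map_mul, t.apply_symm_apply, h1, LinearEquiv.conjAlgEquiv_apply]
    exact LinearMap.ext fun v => by simp

section
variable {I : Type} [Fintype I] [DecidableEq I] {B : I → Type} [∀ i, Ring (B i)]
  [∀ i, Algebra ℂ (B i)]

omit [Fintype I] [∀ i, Algebra ℂ (B i)] in
theorem xqwed_l (i : I) (a : B i) (x : ∀ i, B i) :
    Pi.single (M := B) i a * x = Pi.single i (a * x i) := (Pi.single_mul_left a).symm

omit [Fintype I] [∀ i, Algebra ℂ (B i)] in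
theorem xqwed_r (i : I) (a : B i) (x : ∀ i, B i) :
    x * Pi.single (M := B) i a = Pi.single i (x i * a) := (Pi.single_mul_right a).symm

omit [Fintype I] in
theorem xqwed_u (i : I) [Nontrivial (B i)]
    (hc : ∀ z : B i, (∀ x, z * x = x * z) → ∃ c : ℂ, z = c • 1) :
    PC (Pi.single (M := B) i 1) := by
  refine ⟨fun h => ?_, by rw [xqwed_l, Pi.single_eq_same, mul_one], fun x => ?_, fun z hz => ?_⟩
  · have := congrFun h i
    rw [Pi.single_eq_same] at this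
    exact one_ne_zero this
  · rw [xqwed_l, xqwed_r, one_mul, mul_one]
  · obtain ⟨c, h⟩ := hc (z i) fun x => by
      have := congrFun (hz (Pi.single i x)) i
      rwa [Pi.mul_apply, Pi.mul_apply, Pi.single_eq_same] at this
    exact ⟨c, by rw [xqwed_r, mul_one, h, Pi.single_smul]⟩

/-- the restriction of an automorphism to a factor -/
def xqwedRes (i : I) (φ : (∀ i, B i) ≃ₐ[ℂ] ∀ i, B i)
    (h : φ (Pi.single i 1) = Pi.single i 1) : B i →ₐ[ℂ] B i :=
  AlgHom.ofLinearMap ((LinearMap.proj i).comp (φ.toLinearMap.comp (LinearMap.single ℂ B i)))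
    (by
      change φ (Pi.single i 1) i = 1
      rw [h, Pi.single_eq_same])
    fun x y => by
      change φ (Pi.single i (x * y)) i = φ (Pi.single i x) i * φ (Pi.single i y) i
      rw [Pi.single_mul, map_mul, Pi.mul_apply]

omit [Fintype I] in
theorem xqwed_res (i : I) (φ : (∀ i, B i) ≃ₐ[ℂ] ∀ i, B i)
    (h : φ (Pi.single i 1) = Pi.single i 1) (x : ∀ i, B i) :
    φ (Pi.single i (x i)) = Pi.single i (φ x i) ∧ xqwedRes i φ h (x i) = φ x i := by
  have h1 : φ (Pi.single i (x i)) = Pi.single i (φ x i) := by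
    rw [← one_mul (x i), ← xqwed_l, map_mul, h, xqwed_l, one_mul]
  refine ⟨h1, ?_⟩
  change φ (Pi.single i (x i)) i = _
  rw [h1, Pi.single_eq_same]

omit [Fintype I] in
theorem xqwed_inv (i : I) (φ : (∀ i, B i) ≃ₐ[ℂ] ∀ i, B i)
    (h : φ (Pi.single i 1) = Pi.single i 1) (h' : φ.symm (Pi.single i 1) = Pi.single i 1)
    (x : B i) : xqwedRes i φ.symm h' (xqwedRes i φ h x) = x := by
  change xqwedRes i φ.symm h' (φ (Pi.single i x) i) = x
  rw [(xqwed_res i φ.symm h' _).2, φ.symm_apply_apply, Pi.single_eq_same]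

omit [Fintype I] in
theorem xqwed_snu (i : I) (hi : ∀ ψ : B i ≃ₐ[ℂ] B i,
    ∃ a b : B i, a * b = 1 ∧ b * a = 1 ∧ ∀ x, a * x = ψ x * a) : SN (Pi.single (M := B) i 1) := by
  intro φ h
  have h' : φ.symm (Pi.single i 1) = Pi.single i 1 := φ.symm_apply_eq.2 h.symm
  obtain ⟨a, b, h1, h2, h3⟩ := hi (AlgEquiv.ofAlgHom (xqwedRes i φ h) (xqwedRes i φ.symm h')
    (AlgHom.ext (xqwed_inv i φ.symm h' h)) (AlgHom.ext (xqwed_inv i φ h h')))
  refine ⟨Pi.single i a, Pi.single i b, by rw [← Pi.single_mul, mul_one],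
    by rw [← Pi.single_mul, h1], by rw [← Pi.single_mul, h2], fun x => ?_⟩
  rw [xqwed_l, xqwed_r, h3, ← (xqwed_res i φ h x).2]
  rfl

end

theorem xqwed_main {A : Type} [Ring A] [Algebra ℂ A] [Module.Finite ℂ A] [IsSemisimpleRing A] :
    ∃ (n : ℕ) (u : Fin n → A), Function.Injective u ∧ (∀ i, PC (u i) ∧ SN (u i)) ∧
      ∑ i, u i = 1 ∧ ∀ e, PC e → ∃ i, u i = e := by
  obtain ⟨n, d, hd, ⟨φ⟩⟩ := IsSemisimpleRing.exists_algEquiv_pi_matrix_of_isAlgClosed ℂ A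
  have h1 : ∀ i, PC (φ.symm (Pi.single i 1)) := fun i => xqwed_pc _ (xqwed_u i fun z hz => by
    obtain ⟨c, hc⟩ := Matrix.mem_range_scalar_iff_commute_single'.2 fun i j => (hz _).symm
    exact ⟨c, by rw [← hc, Matrix.scalar_apply, Matrix.smul_one_eq_diagonal]⟩)
  have h2 : ∑ i, φ.symm (Pi.single i 1) = 1 := by
    rw [← map_sum, ← map_one φ.symm]
    exact congrArg _ (Finset.univ_sum_single (1 : ∀ i, Matrix (Fin (d i)) (Fin (d i)) ℂ))
  refine ⟨n, fun i => φ.symm (Pi.single i 1), fun i j h => ?_,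
    fun i => ⟨h1 i, xqwed_sn _ (xqwed_snu i xqwed_inn)⟩, h2, fun e he => ?_⟩
  · by_contra hij
    have := congrFun (φ.symm.injective h) i
    rw [Pi.single_eq_same, Pi.single_eq_of_ne hij] at this
    exact one_ne_zero this
  · by_contra hc
    refine he.1 ?_
    rw [← one_mul e, ← h2, Finset.sum_mul]
    exact Finset.sum_eq_zero fun i _ => pc_orth _ _ (h1 i) he fun h => hc ⟨i, h⟩

theorem pc_sum {A : Type} [Ring A] [Algebra ℂ A] [Module.Finite ℂ A] [IsSemisimpleRing A] :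
    ∃ s : Finset A, (∀ e, e ∈ s ↔ PC e) ∧ ∑ e ∈ s, e = 1 := by
  obtain ⟨n, u, h1, h2, h3, h4⟩ := xqwed_main (A := A)
  refine ⟨Finset.univ.map ⟨u, h1⟩, fun e => ⟨fun h => ?_, fun h => ?_⟩, ?_⟩
  · obtain ⟨i, -, rfl⟩ := Finset.mem_map.1 h
    exact (h2 i).1
  · obtain ⟨i, rfl⟩ := h4 e h
    exact Finset.mem_map.2 ⟨i, Finset.mem_univ _, rfl⟩
  · rw [Finset.sum_map]
    exact h3

theorem pc_sn {A : Type} [Ring A] [Algebra ℂ A] [Module.Finite ℂ A] [IsSemisimpleRing A] (e : A) (he : PC e) : SN e := by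
  obtain ⟨n, u, -, h2, -, h4⟩ := xqwed_main (A := A)
  obtain ⟨i, rfl⟩ := h4 e he
  exact (h2 i).2

end Pool.Agent.N9181
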