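import Pool.Agent.MP_9181f8_al.Q.CanM
import Pool.Agent.MP_9181f8_al.Q.Wed

namespace Pool.Agent.N9181

open scoped commutatorElement

theorem canC {A : Type} [Ring A] [Algebra ℂ A] [Module.Finite ℂ A]
    {G : Type} [Group G] [Finite G] {R : Subgroup G} [R.Normal]
    (ι : R →* A) (φ : G →* (A ≃ₐ[ℂ] A)) (hA : AD ι φ) (Q : Subgroup G) (hQ : RQ R Q) (h13 : ¬ 13 ∣ Nat.card R)
    (hS : ∀ e : A, PC e → SN e) (hD : ∀ e : A, PC e → ¬ 13 ∣ bd e) :
    ∃ a : A → G → A, ∀ e, PC e → (∀ r : R, a e r = ι r * e) ∧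
      (∀ q ∈ Q, ∀ q' ∈ Q, φ q e = e → φ q' e = e → a e (q * q') = a e q * a e q') ∧
      ∀ g : G, ∀ q ∈ Q, φ q e = e → φ g (a e q) = a (φ g e) (g * q * g⁻¹) := by
  obtain ⟨s, hs⟩ : ∃ s : ℕ, ∀ q ∈ Q, q ^ (13 ^ s) ∈ R := by
    choose! f hf using hQ.pw
    obtain ⟨s, hs⟩ := (Set.finite_range f).bddAbove
    refine ⟨s, fun q hq => ?_⟩
    obtain ⟨c, rfl⟩ := Nat.exists_eq_add_of_le (hs ⟨q, rfl⟩)
    rw [pow_add, pow_mul]
    exact R.pow_mem (hf q hq) _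
  have hne : Nonempty A := ⟨0⟩
  have hu : ∀ e, PC e → ∀ q ∈ Q, ∀ a, Can ι φ s e q a →
      Classical.epsilon (Can ι φ s e q) = a := fun e he q hq a ha =>
    can_unique ι φ hA h13 s e he (hD e he) q (hs q hq) _ _ (Classical.epsilon_spec ⟨a, ha⟩) ha
  have hx : ∀ e, PC e → ∀ q ∈ Q, φ q e = e → Can ι φ s e q (Classical.epsilon (Can ι φ s e q)) :=
    fun e he q hq hqe => Classical.epsilon_spec
      (can_exists ι φ hA h13 s e he (hD e he) (hS e he) q (hs q hq) hqe)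
  refine ⟨fun e q => Classical.epsilon (Can ι φ s e q), fun e he =>
    ⟨fun r => hu e he r (hQ.le r.2) _ (can_res ι φ hA s e he r), fun q hq q' hq' h h' => ?_,
      fun g q hq h => ?_⟩⟩
  · exact hu e he _ (Q.mul_mem hq hq') _ (can_mul ι φ hA Q hQ h13 s hs e he (hD e he) (hS e he)
      q q' hq hq' h h' _ _ (hx e he q hq h) (hx e he q' hq' h'))
  · exact (hu _ (pc_map (φ g) e he) _ (hQ.nQ.conj_mem q hq g) _
      (can_equi ι φ hA s e q g _ (hx e he q hq h))).symm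

end Pool.Agent.N9181
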