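import Pool.Agent.MP_9181f8_al.Q.CanB

namespace Pool.Agent.N9181

open scoped commutatorElement

theorem xqcanm_abs {H : Type} [Group H] [(Subgroup.center H).FiniteIndex] (s m : ℕ)
    (hm : ¬ 13 ∣ m) (h : ∀ g : H, g ^ (13 ^ s) ∈ Subgroup.center H ∧ (g ^ (13 ^ s)) ^ m = 1)
    (x y : H) (hx : x ^ (13 ^ s) = 1) (hy : y ^ (13 ^ s) = 1) : (x * y) ^ (13 ^ s) = 1 := by
  have hp : IsPGroup 13 (H ⧸ Subgroup.center H) := fun g => by
    obtain ⟨g, rfl⟩ := QuotientGroup.mk_surjective g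
    exact ⟨s, by rw [← QuotientGroup.mk_pow]; exact (QuotientGroup.eq_one_iff _).2 (h g).1⟩
  obtain ⟨b, hb⟩ := hp.exists_card_eq
  have ht : ∀ g : H, (MonoidHom.transferCenterPow H g : H) = g ^ (13 ^ b) := fun g => by
    rw [MonoidHom.transferCenterPow_apply, Subgroup.index, hb]
  have h1 : MonoidHom.transferCenterPow H (x * y) ^ (13 ^ s) = 1 := by
    rw [map_mul, Commute.mul_pow (Subtype.ext (Subgroup.mem_center_iff.1
      (MonoidHom.transferCenterPow H y).2 _)), ← map_pow, ← map_pow, hx, hy, map_one, mul_one]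
  have h2 : ((x * y) ^ (13 ^ s)) ^ (13 ^ b) = 1 := by
    rw [← pow_mul, mul_comm, pow_mul, ← ht]
    exact congrArg Subtype.val h1
  have h3 := pow_gcd_eq_one.2 ⟨h2, (h (x * y)).2⟩
  rwa [Nat.Coprime.pow_left b ((Nat.Prime.coprime_iff_not_dvd (by norm_num)).2 hm), pow_one] at h3

theorem xqcanm_abs2 {Γ G : Type} [Group Γ] [Group G] [Finite G] (π : Γ →* G) (N : Subgroup Γ)
    [N.Normal] (s m : ℕ) (hm : ¬ 13 ∣ m)
    (hk : ∀ z, π z = 1 → z ∈ Subgroup.center Γ ∧ z ^ m = 1)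
    (hN : ∀ g, ∃ r ∈ N, π r = π g ^ (13 ^ s)) (x y : Γ) (hx : x ^ (13 ^ s) ∈ N)
    (hy : y ^ (13 ^ s) ∈ N) : (x * y) ^ (13 ^ s) ∈ N := by
  have hc : ∀ z, π z = 1 → (z : Γ ⧸ N) ∈ Subgroup.center (Γ ⧸ N) := fun z hz =>
    Subgroup.mem_center_iff.2 fun g => by
      obtain ⟨g, rfl⟩ := QuotientGroup.mk_surjective g
      rw [← QuotientGroup.mk_mul, ← QuotientGroup.mk_mul, Subgroup.mem_center_iff.1 (hk z hz).1]
  have h1 : (π.ker.map (QuotientGroup.mk' N)).FiniteIndex :=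
    ⟨fun h => Subgroup.FiniteIndex.index_ne_zero (H := π.ker) (Nat.eq_zero_of_zero_dvd
      (h ▸ Subgroup.index_map_dvd π.ker (QuotientGroup.mk'_surjective N)))⟩
  have h2 : (Subgroup.center (Γ ⧸ N)).FiniteIndex :=
    Subgroup.finiteIndex_of_le (H := π.ker.map (QuotientGroup.mk' N)) (by
      rintro _ ⟨z, hz, rfl⟩
      exact hc z hz)
  rw [← QuotientGroup.eq_one_iff, QuotientGroup.mk_pow] at hx hy ⊢
  refine xqcanm_abs s m hm (fun g => ?_) _ _ hx hy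
  obtain ⟨g, rfl⟩ := QuotientGroup.mk_surjective g
  obtain ⟨r, hr, e⟩ := hN g
  have hz : π (r⁻¹ * g ^ (13 ^ s)) = 1 := by rw [map_mul, map_inv, map_pow, e, inv_mul_cancel]
  have e2 : (g : Γ ⧸ N) ^ (13 ^ s) = (r⁻¹ * g ^ (13 ^ s) : Γ) := by
    rw [QuotientGroup.mk_mul, (QuotientGroup.eq_one_iff _).2 (N.inv_mem hr), one_mul,
      QuotientGroup.mk_pow]
  rw [e2]
  exact ⟨hc _ hz, by rw [← QuotientGroup.mk_pow, (hk _ hz).2, QuotientGroup.mk_one]⟩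

section

variable {A : Type} [Ring A] [Algebra ℂ A] {e : A}

theorem xqcanm_me (he : PC e) (u v : A) : u * v * e = u * e * (v * e) := by
  rw [mul_assoc u e, he.2.2.1, mul_assoc v, he.2.1, mul_assoc]

theorem xqcanm_pow (he : PC e) (u : A) (k : ℕ) : u ^ k * e = (u * e) ^ k * e := by
  induction k with
  | zero => rw [pow_zero, pow_zero]
  | succ k ih =>
    rw [pow_succ, pow_succ, xqcanm_me he, ih, xqcanm_me he _ (u * e), mul_assoc u, he.2.1]

theorem xqcanm_unit (he : PC e) {a b : A} (h1 : a * e = a) (h2 : a * b = e) (h3 : b * a = e) :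
    ∃ u : Aˣ, (u : A) * (1 - e) = 1 - e ∧ (u : A) * e = a := by
  have c := he.2.2.1
  have i := he.2.1
  have k : ∀ x y : A, x * e = x → y * e = y → x * y = e → (x + (1 - e)) * (y + (1 - e)) = 1 := by
    intro x y hx hy hxy
    simp only [mul_add, add_mul, mul_sub, sub_mul, mul_one, one_mul, hx, hxy, c y, hy, i]
    abel
  have hb : b * e * e = b * e := by rw [mul_assoc, i]
  refine ⟨⟨a + (1 - e), b * e + (1 - e), k _ _ h1 hb (by rw [← mul_assoc, h2, i]),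
    k _ _ hb h1 (by rw [mul_assoc, c, h1, h3])⟩, ?_, ?_⟩
  · simp only [add_mul, mul_sub, sub_mul, mul_one, one_mul, h1, i]
    abel
  · simp only [add_mul, sub_mul, one_mul, h1, i]
    abel

variable [Module.Finite ℂ A] {G : Type} [Group G]

/-- the elements of the block inducing the action of an element of `Q` -/
def xqcanmG (φ : G →* (A ≃ₐ[ℂ] A)) (Q : Subgroup G) (n : ℕ) (he : PC e) : Subgroup (G × Aˣ) where
  carrier := {x | x.1 ∈ Q ∧ (x.2 : A) * (1 - e) = 1 - e ∧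
    (∀ y, (x.2 : A) * e * y = φ x.1 y * (x.2 * e)) ∧ dl e (x.2 * e) ^ n = 1}
  one_mem' := ⟨Q.one_mem, by simp, fun y => by simp [he.2.2.1 y],
    by simp [(dl_smul e e he he.2.1 1).2]⟩
  mul_mem' := fun {x y} ⟨x1, x2, x3, x4⟩ ⟨y1, y2, y3, y4⟩ => by
    refine ⟨Q.mul_mem x1 y1, ?_, fun z => ?_, ?_⟩ <;>
      simp only [Prod.fst_mul, Prod.snd_mul, Units.val_mul]
    · rw [mul_assoc, y2, x2]
    · rw [xqcanm_me he, mul_assoc, y3, ← mul_assoc, x3, map_mul, AlgEquiv.mul_apply, mul_assoc]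
    · rw [xqcanm_me he, dl_mul e _ _ he (by rw [mul_assoc, he.2.1]) (by rw [mul_assoc, he.2.1]),
        mul_pow, x4, y4, one_mul]
  inv_mem' := fun {x} ⟨x1, x2, x3, x4⟩ => by
    refine ⟨Q.inv_mem x1, ?_, fun z => ?_, ?_⟩ <;> simp only [Prod.fst_inv, Prod.snd_inv]
    · rw [Units.inv_mul_eq_iff_eq_mul, x2]
    · have h := x3 (φ x.1⁻¹ z)
      rw [← AlgEquiv.mul_apply, ← map_mul, mul_inv_cancel, map_one, AlgEquiv.one_apply] at h
      rw [mul_assoc, Units.inv_mul_eq_iff_eq_mul, ← he.2.2.1, ← mul_assoc (φ _ z), ← he.2.2.1,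
        ← mul_assoc, ← mul_assoc, h, ← he.2.2.1 x.2, mul_assoc, mul_assoc, Units.mul_inv, mul_one,
        he.2.2.1]
    · have h := dl_mul e (x.2 * e) ((x.2⁻¹ : Aˣ) * e) he (by rw [mul_assoc, he.2.1])
        (by rw [mul_assoc, he.2.1])
      rw [← xqcanm_me he, Units.mul_inv, one_mul, (dl_smul e e he he.2.1 1).2] at h
      have h2 := congrArg (· ^ n) h
      simp only [mul_pow, x4, one_pow, one_mul] at h2
      exact h2.symm

/-- the image of `R` -/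
def xqcanmN {R : Subgroup G} (ι : R →* A) (he : PC e) (Γ : Subgroup (G × Aˣ)) : Subgroup Γ where
  carrier := {x | ∃ r : R, (r : G) = x.1.1 ∧ (x.1.2 : A) * e = ι r * e}
  one_mem' := ⟨1, rfl, by simp⟩
  mul_mem' := fun {x y} ⟨r, x1, x2⟩ ⟨t, y1, y2⟩ => ⟨r * t, by simp [x1, y1], by
    simp only [Subgroup.coe_mul, Prod.snd_mul, Units.val_mul]
    rw [xqcanm_me he, x2, y2, map_mul, ← xqcanm_me he]⟩
  inv_mem' := fun {x} ⟨r, x1, x2⟩ => ⟨r⁻¹, by simp [x1], by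
    simp only [Subgroup.coe_inv, Prod.snd_inv]
    rw [Units.inv_mul_eq_iff_eq_mul, ← mul_assoc, xqcanm_me he, x2, ← xqcanm_me he, ← map_mul,
      mul_inv_cancel, map_one, one_mul]⟩

end

theorem can_mul {A : Type} [Ring A] [Algebra ℂ A] [Module.Finite ℂ A]
    {G : Type} [Group G] [Finite G] {R : Subgroup G} [R.Normal]
    (ι : R →* A) (φ : G →* (A ≃ₐ[ℂ] A)) (hA : AD ι φ) (Q : Subgroup G) (hQ : RQ R Q) (h13 : ¬ 13 ∣ Nat.card R) (s : ℕ)
    (hs : ∀ q ∈ Q, q ^ (13 ^ s) ∈ R) (e : A) (he : PC e) (hD : ¬ 13 ∣ bd e) (hS : SN e)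
    (q q' : G) (hq : q ∈ Q) (hq' : q' ∈ Q) (hqe : φ q e = e) (hqe' : φ q' e = e) (a a' : A)
    (ha : Can ι φ s e q a) (ha' : Can ι φ s e q' a') : Can ι φ s e (q * q') (a * a') := by
  have lift : ∀ g ∈ Q, ∀ x, Can ι φ s e g x →
      ∃ γ : xqcanmG φ Q (Nat.card R) he, γ.1.1 = g ∧ (γ.1.2 : A) * e = x := by
    intro g hg x hx
    obtain ⟨b, h1, h2⟩ := hx.inv
    obtain ⟨u, u1, u2⟩ := xqcanm_unit he hx.sup h1 h2
    exact ⟨⟨(g, u), hg, u1, fun y => by rw [u2]; exact hx.cnj y, by rw [u2]; exact hx.det⟩, rfl, u2⟩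
  have hn : (xqcanmN ι he (xqcanmG φ Q (Nat.card R) he)).Normal := ⟨by
    rintro x ⟨r, x1, x2⟩ g
    refine ⟨MulAut.conjNormal g.1.1 r, by simp [x1], ?_⟩
    simp only [Subgroup.coe_mul, Subgroup.coe_inv, Prod.snd_mul, Prod.snd_inv, Units.val_mul]
    rw [xqcanm_me he, xqcanm_me he g.1.2, x2, ← mul_assoc _ (ι r), g.2.2.2.1, hA.act, mul_assoc,
      mul_assoc, mul_assoc, ← mul_assoc e, he.2.1, he.2.2.1, mul_assoc, he.2.1,
      Units.mul_inv_cancel_left]⟩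
  obtain ⟨x, x1, x2⟩ := lift q hq a ha
  obtain ⟨y, y1, y2⟩ := lift q' hq' a' ha'
  have key := xqcanm_abs2 ((MonoidHom.fst G Aˣ).comp (xqcanmG φ Q (Nat.card R) he).subtype)
    (xqcanmN ι he _) s (bd e * Nat.card R)
    (fun h => ((by norm_num : Nat.Prime 13).dvd_mul.1 h).elim hD h13) (fun z hz => ?_)
    (fun g => ?_) x y
    ⟨⟨_, hs q hq⟩, by simp [x1], by
      simp only [Subgroup.coe_pow, Prod.pow_snd, Units.val_pow_eq_pow_val]
      rw [xqcanm_pow he, x2, ha.pw ⟨_, hs q hq⟩ rfl]⟩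
    ⟨⟨_, hs q' hq'⟩, by simp [y1], by
      simp only [Subgroup.coe_pow, Prod.pow_snd, Units.val_pow_eq_pow_val]
      rw [xqcanm_pow he, y2, ha'.pw ⟨_, hs q' hq'⟩ rfl]⟩
  · obtain ⟨r, r1, r2⟩ := key
    obtain ⟨-, -, p3, p4⟩ := (x * y).2
    simp only [Subgroup.coe_pow, Subgroup.coe_mul, Prod.pow_snd, Prod.pow_fst, Prod.fst_mul,
      Prod.snd_mul, Units.val_pow_eq_pow_val, Units.val_mul, x1, y1] at r1 r2 p3 p4
    rw [xqcanm_pow he] at r2
    rw [xqcanm_me he, x2, y2] at r2 p3 p4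
    obtain ⟨b, b1, b2⟩ := ha.inv
    obtain ⟨b', b1', b2'⟩ := ha'.inv
    refine ⟨by rw [mul_assoc, ha'.sup], ⟨b' * b, ?_, ?_⟩, p3, p4, fun t ht => ?_⟩
    · rw [mul_assoc, ← mul_assoc a', b1', ← mul_assoc, ha.sup, b1]
    · rw [mul_assoc, ← mul_assoc b, b2, he.2.2.1, ha'.sup, b2']
    · rw [r2, show t = r from Subtype.ext (ht.trans r1.symm)]
  · obtain ⟨-, z2, z3, z4⟩ := z.2
    have hz : z.1.1 = 1 := hz
    obtain ⟨c, hc⟩ := can_scal e (z.1.2 * e) e e he (φ z.1.1) (by rw [mul_assoc, he.2.1]) he.2.1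
      he.2.1 z3 (fun y => by rw [hz, map_one, AlgEquiv.one_apply, he.2.2.1]) he.2.1
    rw [hc, (dl_smul e e he he.2.1 c).1, (dl_smul e e he he.2.1 c).2, mul_one, ← pow_mul] at z4
    have hu : ∀ u : A, u * (1 - e) = 1 - e → u = u * e + (1 - e) := fun u h => by
      rw [← h, ← mul_add, add_sub_cancel, mul_one]
    refine ⟨Subgroup.mem_center_iff.2 fun g => Subtype.ext (Prod.ext (by simp [hz])
      (Units.ext ?_)), Subtype.ext (Prod.ext (by simp [hz]) (Units.ext ?_))⟩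
    · simp only [Subgroup.coe_mul, Prod.snd_mul, Units.val_mul]
      rw [hu _ z2, hc]
      simp only [mul_add, add_mul, mul_sub, sub_mul, mul_one, one_mul, mul_smul_comm,
        smul_mul_assoc, he.2.2.1]
    · have h := hu _ (z ^ (bd e * Nat.card R)).2.2.1
      simp only [Subgroup.coe_pow, Prod.pow_snd, Units.val_pow_eq_pow_val] at h ⊢
      have h1 := xqcanm_pow he 1 (bd e * Nat.card R)
      rw [one_mul, one_pow, one_mul] at h1
      rw [h, xqcanm_pow he, hc, smul_pow, z4, one_smul, ← h1]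
      simp
  · obtain ⟨γ, h1, h2⟩ := lift _ (hQ.le (hs g.1.1 g.2.1)) _
      (can_res ι φ hA s e he ⟨_, hs g.1.1 g.2.1⟩)
    exact ⟨γ, ⟨⟨_, hs g.1.1 g.2.1⟩, h1.symm, h2⟩, h1⟩

end Pool.Agent.N9181
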