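import Pool.Agent.MP_9181f8_al.Q.QBasic

namespace Pool.Agent.N9181

open scoped commutatorElement

theorem xqgint_tr {R : Type} [Group R] [Finite R] (y : MonoidAlgebra ℂ R) :
    LinearMap.trace ℂ _ (LinearMap.mulLeft ℂ y) = (Nat.card R : ℂ) * y.coeff 1 := by
  classical
  have := Fintype.ofFinite R
  rw [LinearMap.trace_eq_matrix_trace ℂ (MonoidAlgebra.basis R ℂ), Matrix.trace]
  have h : ∀ g, Matrix.diag (LinearMap.toMatrix (MonoidAlgebra.basis R ℂ)
      (MonoidAlgebra.basis R ℂ) (LinearMap.mulLeft ℂ y)) g = y.coeff 1 := fun g => by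
    rw [Matrix.diag_apply, LinearMap.toMatrix_apply, MonoidAlgebra.basis_apply]
    change (y * MonoidAlgebra.single g 1).coeff g = _
    rw [MonoidAlgebra.coeff_mul_single_apply, mul_inv_cancel, mul_one]
  rw [Finset.sum_congr rfl fun g _ => h g, Finset.sum_const, Finset.card_univ, nsmul_eq_mul,
    Nat.card_eq_fintype_card]

theorem gcoef {R : Type} [Group R] [Finite R] (y : MonoidAlgebra ℂ R) (r : R) :
    LinearMap.trace ℂ _ (LinearMap.mulLeft ℂ (y * MonoidAlgebra.of ℂ R r⁻¹)) =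
      (Nat.card R : ℂ) * y.coeff r := by
  rw [xqgint_tr, MonoidAlgebra.of_apply, MonoidAlgebra.coeff_mul_single_apply, inv_inv, one_mul,
    mul_one]

theorem trace_mem {M : Type} [AddCommGroup M] [Module ℂ M] [Module.Finite ℂ M] (T : Module.End ℂ M) (N : ℕ) (hN : 0 < N) (h : T ^ (N + 1) = T) :
    LinearMap.trace ℂ M T ∈ Oo := by
  rw [Module.End.trace_eq_sum_roots_charpoly_of_splits (IsAlgClosed.splits _)]
  refine multiset_sum_mem _ fun z hz => ?_
  obtain ⟨v, hv⟩ := ((Module.End.hasEigenvalue_iff_isRoot_charpoly T z).2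
    (Polynomial.isRoot_of_mem_roots hz)).exists_hasEigenvector
  have h1 := hv.pow_apply (N + 1)
  rw [h, hv.apply_eq_smul] at h1
  have h2 : z = z ^ (N + 1) := smul_left_injective ℂ hv.2 h1
  refine mem_Oo_of_root (Polynomial.X ^ (N + 1) - Polynomial.X) (Polynomial.monic_X_pow_sub ?_) z ?_
  · rw [Polynomial.degree_X]
    exact_mod_cast Nat.succ_lt_succ hN
  · rw [map_sub, map_pow, Polynomial.aeval_X, ← h2, sub_self]

theorem xqgint_coeff {R : Type} [Group R] (x : MonoidAlgebra Oo R) (r : R) :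
    (gev Oo.subtype (MonoidAlgebra.of ℂ R) x).coeff r = (x.coeff r : Oo) := by
  classical
  refine gev_ind (fun x => (gev Oo.subtype (MonoidAlgebra.of ℂ R) x).coeff r = (x.coeff r : Oo))
    (by simp) ?_ ?_ x
  · intro x y hx hy
    simp only [map_add, MonoidAlgebra.coeff_add, Finsupp.add_apply, hx, hy]
    rfl
  · intro g c
    rw [gev_single, MonoidAlgebra.of_apply, MonoidAlgebra.coeff_smul_apply,
      MonoidAlgebra.coeff_single, MonoidAlgebra.coeff_single, Finsupp.single_apply,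
      Finsupp.single_apply]
    split_ifs <;> simp

theorem gev_inj {R : Type} [Group R] :
    Function.Injective (gev Oo.subtype (MonoidAlgebra.of ℂ R)) := by
  intro x y h
  refine MonoidAlgebra.ext (Finsupp.ext fun r => Subtype.ext ?_)
  rw [← xqgint_coeff, ← xqgint_coeff, h]

theorem gint {R : Type} [Group R] [Finite R] (h13 : ¬ 13 ∣ Nat.card R)
    (y : MonoidAlgebra ℂ R)
    (h : ∀ r : R, ∃ N : ℕ, 0 < N ∧
      (y * MonoidAlgebra.of ℂ R r) ^ (N + 1) = y * MonoidAlgebra.of ℂ R r) :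
    ∃ x : MonoidAlgebra Oo R, gev Oo.subtype (MonoidAlgebra.of ℂ R) x = y := by
  have hm : ∀ r, y.coeff r ∈ Oo := fun r => by
    obtain ⟨N, hN, h1⟩ := h r⁻¹
    have h2 := trace_mem (LinearMap.mulLeft ℂ (y * MonoidAlgebra.of ℂ R r⁻¹)) N hN
      (by rw [LinearMap.pow_mulLeft, h1])
    rw [gcoef] at h2
    obtain ⟨u, hu⟩ := (unit_nat _ h13).exists_left_inv
    have h3 : (u : ℂ) * (Nat.card R : ℂ) = 1 := congrArg Subtype.val hu
    have h4 := mul_mem u.2 h2
    rwa [← mul_assoc, h3, one_mul] at h4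
  exact ⟨.ofCoeff (Finsupp.equivFunOnFinite.symm fun r => ⟨y.coeff r, hm r⟩),
    MonoidAlgebra.ext (Finsupp.ext fun r => by rw [xqgint_coeff]; rfl)⟩

theorem xqgint_bd {R : Type} [Group R] [Finite R] (e : MonoidAlgebra ℂ R) (he : e * e = e) :
    (bd e : ℂ) = (Nat.card R : ℂ) * e.coeff 1 := by
  rw [← xqgint_tr, bd]
  refine (LinearMap.IsProj.trace ⟨fun x => LinearMap.mem_range_self _ x, ?_⟩).symm
  rintro _ ⟨x, rfl⟩
  change e * (e * x) = e * x
  rw [← mul_assoc, he]

theorem xqgint_w {R : Type} [Group R] [Finite R] (e : MonoidAlgebra ℂ R) (he : PC e) (r : R) :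
    ∃ w ∈ Oo, w * e.coeff 1 = (Nat.card R : ℂ) * e.coeff r⁻¹ := by
  have := Fintype.ofFinite R
  obtain ⟨h0, -, hc, hz⟩ := he
  obtain ⟨w, hw⟩ := hz (∑ x : R, MonoidAlgebra.of ℂ R (x * r * x⁻¹)) fun y => by
    induction y using MonoidAlgebra.induction_linear with
    | zero => simp
    | add a b ha hb => rw [mul_add, add_mul, ha, hb]
    | single g c =>
      rw [Finset.sum_mul, Finset.mul_sum]
      refine (Fintype.sum_equiv (Equiv.mulLeft g) _ _ fun x => ?_).symm
      simp [MonoidAlgebra.single_mul_single, mul_assoc]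
  refine ⟨w, ?_, ?_⟩
  · have h1 : IsIntegral ℤ w := by
      refine isIntegral_of_smul_mem_submodule
        (Submodule.span ℤ (Set.range fun g : R => MonoidAlgebra.of ℂ R g * e)) ?_
        (Submodule.fg_span (Set.finite_range _)) w fun n hn => ?_
      · refine (Submodule.ne_bot_iff _).2 ⟨e, Submodule.subset_span ⟨1, ?_⟩, h0⟩
        simp only [map_one, one_mul]
      · induction hn using Submodule.span_induction with
        | zero => simp
        | add a b _ _ ha hb =>
          rw [smul_add]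
          exact add_mem ha hb
        | smul c a _ ha =>
          rw [smul_comm]
          exact Submodule.smul_mem _ _ ha
        | mem a ha =>
          obtain ⟨g, rfl⟩ := ha
          rw [← mul_smul_comm, ← hw, Finset.sum_mul, Finset.mul_sum]
          refine sum_mem fun x _ => Submodule.subset_span ⟨g * (x * r * x⁻¹), ?_⟩
          simp only [map_mul, mul_assoc]
    obtain ⟨p, hp, hp'⟩ := h1.tower_top (A := Oo)
    exact mem_Oo_of_root p hp w hp'
  · have h1 := congrArg (fun y : MonoidAlgebra ℂ R => y.coeff 1) hw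
    have h2 : ∀ x : R, (MonoidAlgebra.of ℂ R (x * r * x⁻¹) * e).coeff 1 = e.coeff r⁻¹ := fun x => by
      have h3 := congrArg (fun y : MonoidAlgebra ℂ R => y.coeff (x * r⁻¹))
        (hc (MonoidAlgebra.single x 1))
      simp only [MonoidAlgebra.coeff_mul_single_apply, MonoidAlgebra.coeff_single_mul_apply,
        mul_one, one_mul, inv_mul_cancel_left] at h3
      rw [MonoidAlgebra.of_apply, MonoidAlgebra.coeff_single_mul_apply, ← h3, one_mul, mul_one,
        conj_inv]
    simp only [Finset.sum_mul, MonoidAlgebra.coeff_sum, Finsupp.finsetSum_apply, h2,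
      MonoidAlgebra.coeff_smul_apply, smul_eq_mul, Finset.sum_const, Finset.card_univ,
      nsmul_eq_mul] at h1
    rw [← h1, Nat.card_eq_fintype_card]

theorem pc_dim {R : Type} [Group R] [Finite R] (h13 : ¬ 13 ∣ Nat.card R)
    (e : MonoidAlgebra ℂ R) (he : PC e) : ¬ 13 ∣ bd e := by
  have := Fintype.ofFinite R
  choose w hw hw' using xqgint_w e he
  have hD := xqgint_bd e he.2.1
  have hD0 : (bd e : ℂ) ≠ 0 := by
    rw [Nat.cast_ne_zero, bd, Ne, Submodule.finrank_eq_zero]
    exact (Submodule.ne_bot_iff _).2 ⟨e, ⟨1, mul_one e⟩, he.1⟩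
  have h1 : e.coeff 1 = ∑ r, e.coeff r * e.coeff r⁻¹ := by
    conv_lhs => rw [← he.2.1]
    rw [MonoidAlgebra.coeff_mul_apply_left, Finsupp.sum_fintype _ _ (by simp)]
    simp only [mul_one]
  have h2 : (Nat.card R : ℂ) ^ 2 * e.coeff 1 = e.coeff 1 ^ 2 * ∑ r, w r⁻¹ * w r := by
    conv_lhs => rw [h1]
    rw [Finset.mul_sum, Finset.mul_sum]
    refine Finset.sum_congr rfl fun r _ => ?_
    have h3 := hw' r
    have h4 := hw' r⁻¹
    rw [inv_inv] at h4
    linear_combination (-(Nat.card R : ℂ) * e.coeff r) * h3 - w r * e.coeff 1 * h4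
  have h5 : (Nat.card R : ℂ) ^ 3 = bd e * ∑ r, w r⁻¹ * w r := by
    apply mul_left_cancel₀ hD0
    rw [hD]
    linear_combination (Nat.card R : ℂ) ^ 2 * h2
  rintro ⟨k, hk⟩
  have h6 : ((Nat.card R ^ 3 : ℕ) : Oo) = ((13 * k : ℕ) : Oo) *
      ⟨∑ r, w r⁻¹ * w r, sum_mem fun r _ => mul_mem (hw _) (hw _)⟩ := by
    apply Subtype.ext
    rw [← hk]
    change (((Nat.card R ^ 3 : ℕ) : ℂ)) = (bd e : ℂ) * ∑ r, w r⁻¹ * w r
    rw [← h5, Nat.cast_pow]
  have h7 := congrArg res h6
  rw [map_mul, map_natCast, map_natCast, (CharP.cast_eq_zero_iff Kp 13 (13 * k)).2 ⟨k, rfl⟩,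
    zero_mul, CharP.cast_eq_zero_iff Kp 13] at h7
  exact h13 (Nat.Prime.dvd_of_dvd_pow (by norm_num) h7)

end Pool.Agent.N9181
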