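import Pool.Agent.MP_9181f8_al.Q.CanC
import Pool.Agent.MP_9181f8_al.Q.GInt

namespace Pool.Agent.N9181

open scoped commutatorElement

theorem canO {G : Type} [Group G] [Finite G] (R Q : Subgroup G) [R.Normal] (hQ : RQ R Q) (h13 : ¬ 13 ∣ Nat.card R) :
    ∃ (I : Type) (_ : Fintype I) (_ : MulAction G I) (e : I → MonoidAlgebra Oo R)
      (a : I → G → MonoidAlgebra Oo R), CD R Q I e a := by
  classical
  have : NeZero (Nat.card R : ℂ) := ⟨Nat.cast_ne_zero.2 Nat.card_pos.ne'⟩
  let ι := MonoidAlgebra.of ℂ R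
  let φ : G →* (MonoidAlgebra ℂ R ≃ₐ[ℂ] MonoidAlgebra ℂ R) :=
    (MonoidAlgebra.domCongrAut (R := ℂ) (A := ℂ)).comp MulAut.conjNormal
  have hφ : ∀ (g : G) (r : R), φ g (ι r) = ι (MulAut.conjNormal g r) := fun g r => by
    simp [φ, ι, MonoidAlgebra.domCongrAut]
  have hA : AD ι φ := ⟨hφ, fun r x => by
    induction x using MonoidAlgebra.induction_linear with
    | zero => simp
    | add x y hx hy => rw [map_add, add_mul, mul_add, hx, hy]
    | single r' c =>
      have e : MonoidAlgebra.single r' c = c • ι r' := by simp [ι]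
      rw [e, map_smul, hφ, smul_mul_assoc, mul_smul_comm, ← map_mul, ← map_mul]
      congr 2
      exact Subtype.ext (by simp)⟩
  obtain ⟨a, ha⟩ := canC ι φ hA Q hQ h13 pc_sn (pc_dim h13)
  obtain ⟨s, hs, hsum⟩ := pc_sum (A := MonoidAlgebra ℂ R)
  let J := gev Oo.subtype ι
  have hJ : Function.Injective J := gev_inj
  have hJc : ∀ g x, J (cj R g x) = φ g (J x) := fun g =>
    gev_ind _ (by simp) (fun x y hx hy => by simp only [map_add, hx, hy]) fun r c => by
      rw [cj_single, gev_single, gev_single, map_smul, hφ]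
  have hR : ∀ e, PC e → ∀ r ∈ R, φ r e = e := fun e he r hr => by
    have h := hA.inn ⟨r, hr⟩ e
    rw [← he.2.2.1] at h
    exact ((Group.isUnit (⟨r, hr⟩ : R)).map ι).mul_right_cancel h
  have h1 : ∀ e, PC e → a e 1 = e := fun e he => by
    simpa using (ha e he).1 1
  have hex : ∀ e, PC e → ∀ q ∈ Q, φ q e = e → ∃ x, J x = a e q := fun e he q hq hqe => by
    refine gint h13 _ fun r => ⟨Nat.card G, Nat.card_pos, ?_⟩
    have h2 : a e q * ι r = a e (q * r) := by
      rw [(ha e he).2.1 q hq r (hQ.le r.2) hqe (hR e he r r.2), (ha e he).1, ← he.2.2.1,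
        ← mul_assoc]
      congr 1
      rw [← mul_one q, (ha e he).2.1 q hq 1 Q.one_mem hqe (hR e he 1 R.one_mem), h1 e he,
        mul_assoc, he.2.1]
    have h3 : q * r ∈ Q := Q.mul_mem hq (hQ.le r.2)
    have h4 : ∀ n : ℕ, φ ((q * r) ^ n) e = e := fun n => by
      induction n with
      | zero => exact hR e he _ (by rw [pow_zero]; exact R.one_mem)
      | succ n ih =>
        rw [pow_succ, map_mul, map_mul, AlgEquiv.mul_apply, AlgEquiv.mul_apply, hR e he r r.2, hqe,
          ih]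
    have h5 : ∀ n : ℕ, a e (q * r) ^ (n + 1) = a e ((q * r) ^ (n + 1)) := fun n => by
      induction n with
      | zero => rw [zero_add, pow_one, pow_one]
      | succ n ih =>
        rw [pow_succ, ih, pow_succ (q * r) (n + 1),
          (ha e he).2.1 _ (Q.pow_mem h3 _) _ h3 (h4 _) (by simpa using h4 1)]
    rw [h2, h5, pow_succ, pow_card_eq_one', one_mul]
  let act : MulAction G s :=
    { smul := fun g i => ⟨φ g i, (hs _).2 (pc_map _ _ ((hs _).1 i.2))⟩
      one_smul := fun i => Subtype.ext (show φ 1 i = i by rw [map_one]; rfl)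
      mul_smul := fun g h i => Subtype.ext (show φ (g * h) i = φ g (φ h i) by rw [map_mul]; rfl) }
  have hact : ∀ (g : G) (i : s), ((g • i : s) : MonoidAlgebra ℂ R) = φ g i := fun _ _ => rfl
  let b : s → G → MonoidAlgebra Oo R := fun i q => Function.invFun J (a i q)
  have hp : ∀ i : s, PC (i : MonoidAlgebra ℂ R) := fun i => (hs _).1 i.2
  have hb : ∀ (i : s), ∀ q ∈ Q, q • i = i → J (b i q) = a i q := fun i q hq h =>
    Function.invFun_eq (hex i (hp i) q hq (congrArg Subtype.val h))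
  have he : ∀ i : s, J (b i 1) = i := fun i =>
    (hb i 1 Q.one_mem (one_smul _ _)).trans (h1 _ (hp i))
  have ht : ∀ r ∈ R, ∀ i : s, r • i = i := fun r hr i => Subtype.ext (hR _ (hp i) r hr)
  refine ⟨s, inferInstance, act, fun i => b i 1, b, hJ ?_, fun i => hJ ?_, fun i j h => hJ ?_,
    fun g i => hJ ?_, ht, fun i r => hJ ?_, fun i q hq q' hq' h h' => hJ ?_,
    fun i g q hq h => hJ ?_⟩
  · simp only [map_sum, he, map_one]
    rw [← hsum, Finset.sum_coe_sort s fun e => e]
  · rw [map_mul, he, (hp i).2.1]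
  · rw [map_mul, he, he, map_zero, pc_orth _ _ (hp i) (hp j) fun e => h (Subtype.ext e)]
  · rw [hJc, he, he, hact]
  · rw [hb i r (hQ.le r.2) (ht r r.2 i), map_mul, he, gev_of, (ha _ (hp i)).1]
  · rw [map_mul, hb i q hq h, hb i q' hq' h', hb i _ (Q.mul_mem hq hq') (by rw [mul_smul, h', h]),
      (ha _ (hp i)).2.1 q hq q' hq' (congrArg Subtype.val h) (congrArg Subtype.val h')]
  · rw [hJc, hb i q hq h, hb _ _ (hQ.nQ.conj_mem q hq g)
      (by rw [mul_smul, mul_smul, inv_smul_smul, h]), hact,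
      (ha _ (hp i)).2.2 g q hq (congrArg Subtype.val h)]

end Pool.Agent.N9181
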