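import Pool.Agent.MP_9181f8_al.N.Basic

/-! Definitions for the class of quadratic rational groups: a valuation ring of the complex
numbers over 13, complex Brauer traces, and the abstract list of properties used by the
induction on the order of the group. -/

namespace Pool.Agent.N9181

open scoped commutatorElement

theorem exists_Oo : ∃ O : ValuationSubring ℂ, (13 : ℂ) ∈ O.nonunits := by
  have hne : Ideal.span {(13 : (⊥ : Subring ℂ))} ≠ ⊤ := by
    rw [Ne, Ideal.span_singleton_eq_top]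
    intro h
    obtain ⟨x, hx⟩ := h.exists_right_inv
    obtain ⟨n, hn⟩ := Subring.mem_bot.1 x.2
    have h1 : (13 : ℂ) * n = 1 := by
      rw [hn]; exact congrArg Subtype.val hx
    have h2 : (13 : ℤ) * n = 1 := by exact_mod_cast h1
    omega
  obtain ⟨O, -, hO⟩ := Ideal.image_subset_nonunits_valuationSubring _ hne
  exact ⟨O, hO ⟨13, Ideal.subset_span rfl, rfl⟩⟩

/-- a valuation ring of the complex numbers in which `13` is not a unit -/
noncomputable def Oo : ValuationSubring ℂ := Classical.choose exists_Oo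

/-- its residue field -/
abbrev Kp : Type := IsLocalRing.ResidueField Oo

noncomputable abbrev res : Oo →+* Kp := IsLocalRing.residue Oo

theorem res_13 : res 13 = 0 := by
  rw [IsLocalRing.residue_eq_zero_iff]
  have h : (13 : ℂ) ∈ Oo.nonunits := Classical.choose_spec exists_Oo
  obtain ⟨h1, h2⟩ := ValuationSubring.mem_nonunits_iff_exists_mem_maximalIdeal.1 h
  exact h2

instance charP_Kp : CharP Kp 13 :=
  (CharP.charP_iff_prime_eq_zero (by norm_num)).2 ((map_natCast res 13).symm.trans res_13)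

theorem mem_Oo_of_root (p : Polynomial Oo) (hp : p.Monic) (z : ℂ)
    (hz : Polynomial.aeval z p = 0) : z ∈ Oo := by
  obtain ⟨y, hy⟩ := IsIntegrallyClosed.algebraMap_eq_of_integral (R := Oo) (K := ℂ)
    (x := z) ⟨p, hp, hz⟩
  exact hy ▸ y.2

instance algClosed_Kp : IsAlgClosed Kp := by
  refine IsAlgClosed.of_exists_root _ fun p hp hirr => ?_
  obtain ⟨q, hq1, hq2, hq3⟩ := Polynomial.lifts_and_degree_eq_and_monic
    (Polynomial.mem_lifts_of_surjective (f := res) IsLocalRing.residue_surjective p) hp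
  obtain ⟨z, hz⟩ := IsAlgClosed.exists_aeval_eq_zero ℂ q
    (by rw [hq2]; exact (Polynomial.degree_pos_of_irreducible hirr).ne')
  refine ⟨res ⟨z, mem_Oo_of_root q hq3 z hz⟩, ?_⟩
  have h0 : Polynomial.eval (⟨z, mem_Oo_of_root q hq3 z hz⟩ : Oo) q = 0 := by
    apply Subtype.ext
    rw [← Polynomial.coe_aeval_eq_eval]
    exact (Polynomial.aeval_algebraMap_apply ℂ (⟨z, mem_Oo_of_root q hq3 z hz⟩ : Oo) q).symm.trans hz
  rw [← hq1, Polynomial.eval_map, Polynomial.eval₂_at_apply, h0, map_zero]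

noncomputable instance algebra_Kp : Algebra K Kp := ZMod.algebra Kp 13

section Lin

variable {L : Type} [Field L] {M : Type} [AddCommGroup M] [Module L M] {H : Type} [Group H]

def IrrF (τ : Representation L H M) : Prop :=
  (∃ v : M, v ≠ 0) ∧ ∀ W : Submodule L M, (∀ h, ∀ v ∈ W, τ h v ∈ W) → W = ⊥ ∨ W = ⊤

noncomputable def edF (a : Module.End L M) (c : L) : ℕ := Module.finrank L (a.eigenspace c)

/-- the character takes the same value at `g ^ j` and at `g` -/
def SS (τ : Representation L H M) (j : ℕ) : Prop := ∀ g, τ.character (g ^ j) = τ.character g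

end Lin

/-- `x` is the trace of a lift of `a` to the valuation ring whose order is prime to `13` -/
def IsCt {M : Type} [AddCommGroup M] [Module Kp M] (a : Module.End Kp M) (x : ℂ) : Prop :=
  ∃ (n : ℕ) (b : Module.Basis (Fin n) Kp M) (A : Matrix (Fin n) (Fin n) Oo) (N : ℕ),
    ¬ 13 ∣ N ∧ A ^ N = 1 ∧ A.map res = LinearMap.toMatrix b b a ∧ ((A.trace : Oo) : ℂ) = x

/-- evaluation of the group ring over the valuation ring in an algebra -/
noncomputable def gev {F : Type} [CommRing F] (f : Oo →+* F) {S : Type} [Ring S] [Algebra F S]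
    {R : Type} [Group R] (τ : R →* S) : MonoidAlgebra Oo R →+* S :=
  MonoidAlgebra.liftNCRingHom ((algebraMap F S).comp f) τ
    (fun x y => Algebra.commute_algebraMap_left (f x) (τ y))

/-- evaluation through the restriction to a subgroup -/
noncomputable def gv {F : Type} [CommRing F] (f : Oo →+* F) {S : Type} [Ring S] [Algebra F S]
    {G : Type} [Group G] (σ : G →* S) (R : Subgroup G) : MonoidAlgebra Oo R →+* S :=
  gev f (σ.comp R.subtype)

/-- conjugation on the group ring of a normal subgroup -/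
noncomputable def cj {G : Type} [Group G] (R : Subgroup G) [R.Normal] (g : G) :
    MonoidAlgebra Oo R →+* MonoidAlgebra Oo R :=
  MonoidAlgebra.mapDomainRingHom Oo (MulAut.conjNormal g : MulAut R).toMonoidHom

/-- block idempotents of the group ring of `R` and the canonical extensions to `Q` -/
structure CD {G : Type} [Group G] (R Q : Subgroup G) [R.Normal] (I : Type) [Fintype I]
    [MulAction G I] (e : I → MonoidAlgebra Oo R) (a : I → G → MonoidAlgebra Oo R) : Prop where
  sum : ∑ i, e i = 1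
  idem : ∀ i, e i * e i = e i
  orth : ∀ i j, i ≠ j → e i * e j = 0
  act : ∀ (g : G) i, cj R g (e i) = e (g • i)
  triv : ∀ r ∈ R, ∀ i : I, r • i = i
  rst : ∀ i (r : R), a i r = MonoidAlgebra.of Oo R r * e i
  mul : ∀ i, ∀ q ∈ Q, ∀ q' ∈ Q, q • i = i → q' • i = i → a i (q * q') = a i q * a i q'
  equi : ∀ i (g : G), ∀ q ∈ Q, q • i = i → cj R g (a i q) = a (g • i) (g * q * g⁻¹)

section Alg

variable {A : Type} [Ring A] [Algebra ℂ A]

/-- primitive central idempotents -/
def PC (e : A) : Prop :=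
  e ≠ 0 ∧ e * e = e ∧ (∀ x, e * x = x * e) ∧
    ∀ z : A, (∀ x, z * x = x * z) → ∃ c : ℂ, z * e = c • e

/-- automorphisms fixing `e` are inner on the block of `e` -/
def SN (e : A) : Prop :=
  ∀ φ : A ≃ₐ[ℂ] A, φ e = e → ∃ a b : A, a * e = a ∧ a * b = e ∧ b * a = e ∧ ∀ x, a * x = φ x * a

/-- dimension of the block of `e` -/
noncomputable def bd (e : A) : ℕ := Module.finrank ℂ (LinearMap.range (LinearMap.mulLeft ℂ e))

/-- determinant of the left multiplication on the block of `e` -/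
noncomputable def dl (e a : A) : ℂ := LinearMap.det (LinearMap.mulLeft ℂ (a + (1 - e)))

variable {G : Type} [Group G] {R : Subgroup G} [R.Normal]

structure AD (ι : R →* A) (φ : G →* (A ≃ₐ[ℂ] A)) : Prop where
  act : ∀ (g : G) (r : R), φ g (ι r) = ι (MulAut.conjNormal g r)
  inn : ∀ (r : R) (x : A), φ r x * ι r = ι r * x

/-- `a` is the canonical element of the block of `e` inducing the action of `q` -/
structure Can (ι : R →* A) (φ : G →* (A ≃ₐ[ℂ] A)) (s : ℕ) (e : A) (q : G) (a : A) : Prop where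
  sup : a * e = a
  inv : ∃ b, a * b = e ∧ b * a = e
  cnj : ∀ x, a * x = φ q x * a
  det : dl e a ^ Nat.card R = 1
  pw : ∀ r : R, (r : G) = q ^ (13 ^ s) → a ^ (13 ^ s) * e = ι r * e

end Alg

/-- `R ≤ Q` normal with `Q / R` a `13`-group -/
structure RQ {G : Type} [Group G] (R Q : Subgroup G) : Prop where
  nR : R.Normal
  nQ : Q.Normal
  le : R ≤ Q
  pw : ∀ k ∈ Q, ∃ a : ℕ, k ^ (13 ^ a) ∈ R

/-- `L` is a Hall subgroup of `T` relative to `R` -/
structure HT {G : Type} [Group G] (R Q T L : Subgroup G) : Prop where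
  le1 : R ≤ L
  le2 : L ≤ T
  cop : ¬ 13 ∣ R.relIndex L
  dec : ∀ t ∈ T, ∃ q ∈ Q, q ∈ T ∧ ∃ l ∈ L, t = q * l
  cnj : ∀ H : Subgroup G, H ≤ T → ¬ 13 ∣ R.relIndex H →
    ∃ x ∈ Q, x ∈ T ∧ ∀ h ∈ H, x * h * x⁻¹ ∈ L

/-- internal form of quadratic rationality -/
def QP (G : Type) [Group G] (N : ℕ) : Prop :=
  Nat.card G ∣ N ∧ 0 < N ∧ ∀ (M : Type) [AddCommGroup M] [Module ℂ M] [Module.Finite ℂ M]
    (τ : Representation ℂ G M), IrrF τ → ∀ j j' : ℕ, j.Coprime N → j'.Coprime N →
      SS τ j ∨ SS τ j' ∨ SS τ (j * j')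

def HU' {V : Type} [AddCommGroup V] [Module K V] {H : Type} [Group H]
    (ρ : Representation K H V) (N m : ℕ) : Prop :=
  ∀ h : H, ¬ 13 ∣ orderOf h → ∀ j : ℕ, j.Coprime N → ∀ M,
    bt (ρ (h ^ j)) M + bt (ρ (h ^ (j * m))) M = bt (ρ h) M + bt (ρ (h ^ m)) M

/-- a multiple of the projection on the part where `ι v` acts through the character `f` -/
noncomputable def pj {V : Type} [AddCommGroup V] [Module K V] {G : Type} [Group G] {M : Type}
    [AddCommGroup M] [Module ℂ M] (τ : Representation ℂ G M) (ι : V → G)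
    (f : Module.Dual K V) : Module.End ℂ M :=
  ∑ᶠ v : V, (ZMod.stdAddChar (-(f v)) : ℂ) • τ (ι v)

def Nonrat {G : Type} [Group G] (N : ℕ) (c : G) : Prop :=
  ∃ j : ℕ, j.Coprime N ∧ ¬ IsConj c (c ^ j)

def T13 {V : Type} [AddCommGroup V] [Module K V] {G : Type} [Group G]
    (ρ : Representation K G V) : Prop :=
  ∀ (g : G) (a : ℕ), g ^ (13 ^ a) = 1 → ρ g = 1

/-- the properties of a group used by the induction -/
structure AP0 (G : Type) [Group G] (N : ℕ) : Prop where
  dvd : Nat.card G ∣ N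
  pos : 0 < N
  sq : ∀ (x : G) (j : ℕ), j.Coprime N → IsConj x (x ^ (j * j))
  rm1 : ∀ (V : Type) [AddCommGroup V] [Module K V] [Module.Finite K V]
    (ρ : Representation K G V) (ι : V → G), Emb ρ ι → Irr ρ → T13 ρ →
    ∀ c : G, ¬ 13 ∣ orderOf c → Nonrat N c → ∀ v, ρ c v = v → v = 0
  rm2 : ∀ (V : Type) [AddCommGroup V] [Module K V] [Module.Finite K V]
    (ρ : Representation K G V) (ι : V → G), Emb ρ ι → Irr ρ →
    ∀ (B R Q : Subgroup G) (z : G), (∀ g, g ∈ B ↔ ∃ v, ι v = g) → GD B R Q z →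
    ∀ (t : G) (a : ℕ), t ^ (3 ^ a) = 1 → (∀ x ∈ Q, ⁅x, t⁆ ∈ R → x ∈ R) → Nonrat N t →
    ∀ v, ρ t v = v → v = 0
  cm : ∀ (V : Type) [AddCommGroup V] [Module K V] [Module.Finite K V]
    (ρ : Representation K G V) (ι : V → G), Emb ρ ι → Irr ρ → T13 ρ →
    Scal ρ ∧ ∃ v, Reg ρ v

/-- the properties hold for all quotients -/
def AP (G : Type) [Group G] (N : ℕ) : Prop :=
  ∀ (G' : Type) [Group G'] [Finite G'] (f : G →* G'), Function.Surjective f → AP0 G' N

end Pool.Agent.N9181
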