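import Pool.Agent.MP_9181f8_al.Q.QBasic

namespace Pool.Agent.N9181

open scoped commutatorElement

theorem ext_hom {G : Type} [Group G] {S : Type} [Monoid S] (R Q T L : Subgroup G)
    (hQ : Q.Normal) (hLT : L ≤ T) (hd : ∀ t ∈ T, ∃ q ∈ Q, q ∈ T ∧ ∃ l ∈ L, t = q * l)
    (hi : ∀ x ∈ L, x ∈ Q → x ∈ R) (h1 : (1 : G) ∈ R) (A : L →* S) (α : G → S)
    (hm : ∀ q ∈ Q, ∀ q' ∈ Q, q ∈ T → q' ∈ T → α (q * q') = α q * α q')
    (hr : ∀ l : L, (l : G) ∈ R → α l = A l)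
    (he : ∀ (l : L), ∀ q ∈ Q, q ∈ T → A l * α q = α (l * q * (l : G)⁻¹) * A l) :
    ∃ τ : T →* S, ∀ l : L, τ ⟨l, hLT l.2⟩ = A l := by
  have key : ∀ q ∈ Q, q ∈ T → ∀ q' ∈ Q, q' ∈ T → ∀ l l' : L, q * l = q' * l' →
      α q * A l = α q' * A l' := by
    intro q hq hqT q' hq' hqT' l l' h
    have e : ((l' * l⁻¹ : L) : G) = q'⁻¹ * q := by
      rw [Subgroup.coe_mul, Subgroup.coe_inv, mul_inv_eq_iff_eq_mul, mul_assoc, h,
        inv_mul_cancel_left]
    have hx : ((l' * l⁻¹ : L) : G) ∈ Q := e ▸ Q.mul_mem (Q.inv_mem hq') hq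
    have h2 := hm q' hq' _ hx hqT' (hLT (l' * l⁻¹).2)
    rw [hr _ (hi _ (l' * l⁻¹).2 hx), e, mul_inv_cancel_left] at h2
    rw [h2, mul_assoc, ← map_mul, inv_mul_cancel_right]
  have h0 : α 1 = 1 := (hr 1 h1).trans (map_one A)
  choose q hq hqT l hl e using fun t : T => hd t t.2
  have hv : ∀ (t : T), ∀ q' ∈ Q, q' ∈ T → ∀ l' : L, t = q' * l' →
      α (q t) * A ⟨l t, hl t⟩ = α q' * A l' := fun t q' hq' hqT' l' h =>
    key _ (hq t) (hqT t) _ hq' hqT' _ _ ((e t).symm.trans h)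
  refine ⟨⟨⟨fun t => α (q t) * A ⟨l t, hl t⟩, ?_⟩, fun t t' => ?_⟩, fun l' => ?_⟩
  · rw [hv 1 1 Q.one_mem T.one_mem 1 (by simp), h0, map_one, one_mul]
  · have h2 : l t * q t' * (l t)⁻¹ ∈ Q := hQ.conj_mem _ (hq t') _
    have h3 : l t * q t' * (l t)⁻¹ ∈ T :=
      T.mul_mem (T.mul_mem (hLT (hl t)) (hqT t')) (T.inv_mem (hLT (hl t)))
    have h4 := he ⟨l t, hl t⟩ _ (hq t') (hqT t')
    dsimp only at h4 ⊢
    rw [hv (t * t') _ (Q.mul_mem (hq t) h2) (T.mul_mem (hqT t) h3) (⟨l t, hl t⟩ * ⟨l t', hl t'⟩) (by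
      rw [Subgroup.coe_mul, Subgroup.coe_mul]
      conv_lhs => rw [e t, e t']
      group), hm _ (hq t) _ h2 (hqT t) h3, map_mul, mul_assoc, ← mul_assoc (α _) (A _) (A _), ← h4]
    simp only [mul_assoc]
  · exact (hv _ 1 Q.one_mem T.one_mem l' (one_mul _).symm).trans (by rw [h0, one_mul])

theorem xqext_ind {G : Type} [Group G] (T : Subgroup G) {U : Type} [AddCommGroup U] [Module ℂ U]
    (τ0 : Representation ℂ T U) (h0 : IrrF τ0) (n : ℕ) :
    ∀ (M : Type) [AddCommGroup M] [Module ℂ M] [Module.Finite ℂ M] (τ : Representation ℂ G M)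
      (j : U →ₗ[ℂ] M), Module.finrank ℂ M = n → j ≠ 0 →
      (∀ (t : T) (u : U), j (τ0 t u) = τ t (j u)) →
    ∃ (M' : Type) (_ : AddCommGroup M') (_ : Module ℂ M') (_ : Module.Finite ℂ M')
      (τ : Representation ℂ G M'), IrrF τ ∧
      ∃ j : U →ₗ[ℂ] M', Function.Injective j ∧ ∀ (t : T) (u : U), j (τ0 t u) = τ t (j u) := by
  induction n using Nat.strong_induction_on with
  | _ n ih =>
  intro M _ _ _ τ j hn hj ht
  by_cases hirr : IrrF τ
  · refine ⟨M, inferInstance, inferInstance, inferInstance, τ, hirr, j, ?_, ht⟩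
    refine LinearMap.ker_eq_bot.1 ((h0.2 _ fun t v hv => ?_).resolve_right
      (mt LinearMap.ker_eq_top.1 hj))
    rw [LinearMap.mem_ker] at hv ⊢
    rw [ht, hv, map_zero]
  obtain ⟨u, hu⟩ := DFunLike.ne_iff.1 hj
  have h1 : ∃ W : Submodule ℂ M, (∀ h, ∀ v ∈ W, τ h v ∈ W) ∧ W ≠ ⊥ ∧ W ≠ ⊤ := by
    by_contra h
    refine hirr ⟨⟨j u, hu⟩, fun W hW => ?_⟩
    by_contra h2
    exact h ⟨W, hW, not_or.1 h2⟩
  obtain ⟨W, hW, hb, htop⟩ := h1
  have h2 := W.finrank_quotient_add_finrank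
  by_cases h3 : ∀ v, j v ∈ W
  · refine ih _ (hn ▸ Submodule.finrank_lt htop) W (τ.subrepresentation W fun g v hv => hW g v hv)
      (j.codRestrict W h3) rfl (fun h => hu ?_) fun t v => Subtype.ext (ht t v)
    exact congrArg Subtype.val (LinearMap.congr_fun h u)
  · have h4 : Module.finrank ℂ W ≠ 0 := mt Submodule.finrank_eq_zero.1 hb
    refine ih _ (by omega) (M ⧸ W) (τ.quotient W fun g v hv => hW g v hv) (W.mkQ ∘ₗ j) rfl
      (fun h => h3 fun v => ?_) fun t v => congrArg W.mkQ (ht t v)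
    exact (Submodule.Quotient.mk_eq_zero W).1 (LinearMap.congr_fun h v)

theorem exists_over {G : Type} [Group G] [Finite G] (T : Subgroup G) {U : Type} [AddCommGroup U] [Module ℂ U]
    [Module.Finite ℂ U] (τ0 : Representation ℂ T U) (h0 : IrrF τ0) :
    ∃ (M' : Type) (_ : AddCommGroup M') (_ : Module ℂ M') (_ : Module.Finite ℂ M')
      (τ : Representation ℂ G M'), IrrF τ ∧
      ∃ j : U →ₗ[ℂ] M', Function.Injective j ∧ ∀ (t : T) (u : U), j (τ0 t u) = τ t (j u) := by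
  classical
  let τ : Representation ℂ G (G → U) :=
    { toFun := fun g => LinearMap.funLeft ℂ U (· * g)
      map_one' := by ext F x; simp
      map_mul' := fun g h => LinearMap.ext fun F => funext fun x => congrArg F (mul_assoc x g h).symm }
  let j : U →ₗ[ℂ] (G → U) := LinearMap.pi fun x => if h : x ∈ T then τ0 ⟨x, h⟩ else 0
  have hj : ∀ u x, j u x = if h : x ∈ T then τ0 ⟨x, h⟩ u else 0 := fun u x => by
    simp only [j, LinearMap.pi_apply]
    split_ifs <;> rfl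
  obtain ⟨v, hv⟩ := h0.1
  refine xqext_ind T τ0 h0 _ (G → U) τ j rfl (fun h => hv ?_) fun t u => funext fun x => ?_
  · have h1 := hj v 1
    rw [dif_pos T.one_mem, h] at h1
    exact (LinearMap.congr_fun (map_one τ0) v).symm.trans h1.symm
  · change j (τ0 t u) x = j u (x * t)
    rw [hj, hj]
    by_cases hx : x ∈ T
    · rw [dif_pos hx, dif_pos (T.mul_mem hx t.2), ← Module.End.mul_apply, ← map_mul]
      rfl
    · rw [dif_neg hx, dif_neg (mt (T.mul_mem_cancel_right t.2).1 hx)]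

end Pool.Agent.N9181
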