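import Pool.Agent.MP_9181f8_al.Q.FSc
import Pool.Agent.MP_9181f8_al.Q.CanO

namespace Pool.Agent.N9181

open scoped commutatorElement

theorem xqfs_card {G : Type} [Group G] [Finite G] (R : Subgroup G) [R.Normal]
    (h13 : ¬ 13 ∣ Nat.card R) (h : G) (hh : ¬ 13 ∣ orderOf h) :
    ¬ 13 ∣ Nat.card ↥(R ⊔ Subgroup.zpowers h) := by
  rw [← (R.subgroupOf (R ⊔ Subgroup.zpowers h)).card_mul_index,
    Nat.card_congr (Subgroup.subgroupOfEquivOfLe le_sup_left).toEquiv]
  intro hd
  rcases (Nat.Prime.dvd_mul (by norm_num)).1 hd with h1 | h1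
  · exact h13 h1
  · change 13 ∣ R.relIndex (R ⊔ Subgroup.zpowers h) at h1
    rw [Subgroup.relIndex_sup_left] at h1
    have h2 := h1.trans (Subgroup.relIndex_dvd_card R _)
    rw [Nat.card_zpowers] at h2
    exact hh h2

theorem fs {M : Type} [AddCommGroup M] [Module Kp M] [Module.Finite Kp M] {G : Type} [Group G] [Finite G] (R Q : Subgroup G) (hQ : RQ R Q) (h13 : ¬ 13 ∣ Nat.card R)
    (hidx : ¬ 13 ∣ Q.index) (σ : Representation Kp G M) (hσ : IrrF σ) :
    ∃ (M' : Type) (_ : AddCommGroup M') (_ : Module ℂ M') (_ : Module.Finite ℂ M')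
      (τ : Representation ℂ G M'), IrrF τ ∧
      ∀ h : G, ¬ 13 ∣ orderOf h → IsCt (σ h) (τ.character h) := by
  classical
  have := hQ.nR
  obtain ⟨I, _, _, e, a, hC⟩ := canO R Q hQ h13
  obtain ⟨M', _, _, _, τ, hτ, H⟩ := fsc R Q e a hC hQ h13 hidx σ hσ
  refine ⟨M', _, _, inferInstance, τ, hτ, fun h hh => ?_⟩
  have hcard := xqfs_card R h13 h hh
  set L := R ⊔ Subgroup.zpowers h with hL
  have hRL : R ≤ L := le_sup_left
  have hhL : h ∈ L := Subgroup.mem_sup_right (Subgroup.mem_zpowers h)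
  let b := Module.finBasis Kp M
  obtain ⟨A, hA⟩ := olift hcard (σ.comp L.subtype) b
  let ga := gev (RingHom.id Oo) (A.comp (Subgroup.inclusion hRL))
  have hga : ∀ x, (ga x).map res = LinearMap.toMatrix b b (gv res σ R x) := by
    intro x
    have h1 := gev_map (RingHom.id Oo) res (A.comp (Subgroup.inclusion hRL))
      ((LinearMap.toMatrixAlgEquiv b).toMulEquiv.toMonoidHom.comp (σ.comp R.subtype))
      (RingHom.mapMatrix res)
      (fun c => by
        ext i j
        by_cases hij : i = j <;> simp [Matrix.algebraMap_matrix_apply, hij])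
      (fun r => hA _) x
    have h2 := gev_map res res (σ.comp R.subtype)
      ((LinearMap.toMatrixAlgEquiv b).toMulEquiv.toMonoidHom.comp (σ.comp R.subtype))
      (LinearMap.toMatrixAlgEquiv b).toRingEquiv.toRingHom
      (fun c => (LinearMap.toMatrixAlgEquiv b).commutes _) (fun r => rfl) x
    exact h1.trans h2.symm
  have hact : ∀ i, A ⟨h, hhL⟩ * ga (e i) = ga (e (h • i)) * A ⟨h, hhL⟩ := by
    intro i
    rw [← hC.act]
    refine gev_cj _ R _ _ h _ (fun r => ?_) _
    simp only [MonoidHom.comp_apply, ← map_mul]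
    congr 1
    ext
    simp
  have hpow : A ⟨h, hhL⟩ ^ Nat.card L = 1 := by rw [← map_pow, pow_card_eq_one', map_one]
  refine ⟨_, b, A ⟨h, hhL⟩, Nat.card L, hcard, hpow, hA _, ?_⟩
  have t1 := tr_blocks (Matrix.traceAddMonoidHom (Fin (Module.finrank Kp M)) Oo)
    (fun x y => Matrix.trace_mul_comm x y) (fun i => ga (e i))
    (by rw [← map_sum, hC.sum, map_one]) (fun i => by rw [← map_mul, hC.idem])
    (fun i j hij => by rw [← map_mul, hC.orth i j hij, map_zero]) (A ⟨h, hhL⟩) (fun i => h • i) hact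
  have t2 := tr_blocks (LinearMap.trace ℂ M').toAddMonoidHom
    (fun x y => LinearMap.trace_mul_comm ℂ x y) (fun i => gv Oo.subtype τ R (e i))
    (by rw [← map_sum, hC.sum, map_one]) (fun i => by rw [← map_mul, hC.idem])
    (fun i j hij => by rw [← map_mul, hC.orth i j hij, map_zero]) (τ h) (fun i => h • i)
    (fun i => blk_act Oo.subtype R Q e a hC τ h i)
  refine (congrArg Oo.subtype t1).trans ?_
  rw [map_sum]
  refine Eq.trans (Finset.sum_congr rfl fun j hj => ?_) t2.symm
  have hj' : h • j = j := (Finset.mem_filter.1 hj).2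
  have hcm : σ h * gv res σ R (e j) = gv res σ R (e j) * σ h := by
    rw [blk_act res R Q e a hC σ h j, hj']
  let s : Module.End Kp (LinearMap.range (gv res σ R (e j))) :=
    (σ h).restrict (fun w ⟨u, hu⟩ => ⟨σ h u, by
      rw [← hu]; exact (LinearMap.congr_fun hcm u).symm⟩)
  refine isCt_unique s _ _ ?_ (H h hh j hj' s fun w => rfl)
  exact oct_idem b (σ h) (gv res σ R (e j)) _ _ (Nat.card L) hcard hpow
    (by rw [← map_mul, hC.idem]) (by rw [hact, hj']) (hA _) (hga _) s fun w => rfl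

end Pool.Agent.N9181
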