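import Pool.Agent.MP_9181f8_al.Q.HallA

namespace Pool.Agent.N9181

open scoped commutatorElement

theorem xqhallb_top {G : Type} [Group G] [Finite G] (R Q : Subgroup G) [R.Normal] [hQ : Q.Normal]
    (pw : ∀ k ∈ Q, ∃ a : ℕ, k ^ (13 ^ a) ∈ R) (hi : ¬ 13 ∣ Q.index) :
    ∃ L : Subgroup G, R ≤ L ∧ ¬ 13 ∣ R.relIndex L ∧ (∀ t, ∃ q ∈ Q, ∃ l ∈ L, t = q * l) ∧
      ∀ H : Subgroup G, ¬ 13 ∣ R.relIndex H → ∃ x ∈ Q, ∀ h ∈ H, x * h * x⁻¹ ∈ L := by
  have : Fact (Nat.Prime 13) := ⟨by norm_num⟩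
  let f := QuotientGroup.mk' R
  have hf : Function.Surjective f := QuotientGroup.mk'_surjective R
  have hk : f.ker = R := QuotientGroup.ker_mk' R
  have hc : ∀ H : Subgroup G, R.relIndex H = Nat.card (H.map f) := fun H => by
    rw [← Subgroup.relIndex_ker, hk]
  have hn : (Q.map f).Normal := hQ.map f hf
  have hp : IsPGroup 13 (Q.map f) := by
    rintro ⟨_, k, hkQ, rfl⟩
    obtain ⟨a, ha⟩ := pw k hkQ
    refine ⟨a, Subtype.ext ?_⟩
    change f k ^ 13 ^ a = 1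
    rw [← map_pow, ← MonoidHom.mem_ker, hk]
    exact ha
  have hi' : ¬ 13 ∣ (Q.map f).index := fun h => hi (h.trans (Q.index_map_dvd hf))
  obtain ⟨n, hn'⟩ := IsPGroup.iff_card.1 hp
  obtain ⟨L, hL⟩ := Subgroup.exists_right_complement'_of_coprime (N := Q.map f) (by
    rw [hn']
    exact Nat.Coprime.pow_left n ((Nat.Prime.coprime_iff_not_dvd Fact.out).2 hi'))
  have hd : ∀ g, ∃ q ∈ Q.map f, ∃ l ∈ L, g = q * l := fun g => by
    obtain ⟨⟨q, l⟩, e⟩ := hL.2 g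
    exact ⟨q, q.2, l, l.2, e.symm⟩
  refine ⟨L.comap f, fun r hr => ?_, ?_, fun t => ?_, fun H hH => ?_⟩
  · rw [← hk] at hr
    change f r ∈ L
    rw [MonoidHom.mem_ker.1 hr]
    exact L.one_mem
  · rwa [hc, Subgroup.map_comap_eq_self_of_surjective hf, ← hL.symm.index_eq_card]
  · obtain ⟨_, ⟨q, hq, rfl⟩, l, hl, e⟩ := hd (f t)
    refine ⟨q, hq, q⁻¹ * t, ?_, (mul_inv_cancel_left q t).symm⟩
    change f (q⁻¹ * t) ∈ L
    rwa [map_mul, map_inv, e, inv_mul_cancel_left]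
  · obtain ⟨_, ⟨x, hx, rfl⟩, h⟩ := compl_conj (Q.map f) L (H.map f) hn hp
      (fun x h1 h2 => Subgroup.disjoint_def.1 hL.disjoint h2 h1) hd (hc H ▸ hH)
    refine ⟨x, hx, fun y hy => ?_⟩
    change f (x * y * x⁻¹) ∈ L
    rw [map_mul, map_mul, map_inv]
    exact h _ ⟨y, hy, rfl⟩

theorem hall_T {G : Type} [Group G] [Finite G] (R Q T : Subgroup G) (h : RQ R Q) (hi : ¬ 13 ∣ Q.index)
    (hT : R ≤ T) : ∃ L : Subgroup G, HT R Q T L := by
  have := h.nR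
  have := h.nQ
  obtain ⟨L, h1, h2, h3, h4⟩ := xqhallb_top (R.subgroupOf T) (Q.subgroupOf T)
    (fun k hk => h.pw k hk)
    fun hd => hi (hd.trans (Subgroup.relIndex_dvd_index_of_normal Q T))
  have hle : L.map T.subtype ≤ T := Subgroup.map_subtype_le L
  refine ⟨L.map T.subtype, fun r hr => ⟨⟨r, hT hr⟩, h1 hr, rfl⟩, hle, ?_, fun t ht => ?_,
    fun H hH hc => ?_⟩
  · rw [← Subgroup.relIndex_subgroupOf hle]
    rwa [show (L.map T.subtype).subgroupOf T = L from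
      Subgroup.comap_map_eq_self_of_injective T.subtype_injective L]
  · obtain ⟨q, hq, l, hl, e⟩ := h3 ⟨t, ht⟩
    exact ⟨q, hq, q.2, l, ⟨l, hl, rfl⟩, congrArg Subtype.val e⟩
  · obtain ⟨x, hx, hc'⟩ := h4 (H.subgroupOf T) (by rwa [Subgroup.relIndex_subgroupOf hH])
    exact ⟨x, hx, x.2, fun y hy => ⟨_, hc' ⟨y, hH hy⟩ hy, rfl⟩⟩

end Pool.Agent.N9181
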