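import Pool.Agent.MP_9181f8_al.Q.OIdem

namespace Pool.Agent.N9181

open scoped commutatorElement

theorem xqoct_trace {n : ℕ} (A A' : Matrix (Fin n) (Fin n) Oo) (L : ℕ)
    (hL : ¬ 13 ∣ L) (hA : A ^ L = 1) (hA' : A' ^ L = 1) (P : Matrix (Fin n) (Fin n) Kp)
    (hP : P.det ≠ 0) (hc : A.map res * P = P * A'.map res) : A.trace = A'.trace := by
  choose f hf using (IsLocalRing.residue_surjective : Function.Surjective res)
  have hP0 : (P.map f).map res = P := by ext i j; exact hf _
  generalize P.map f = P0 at hP0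
  set Q : Matrix (Fin n) (Fin n) Oo := ∑ k ∈ Finset.range L, A ^ k * P0 * A' ^ (L - k) with hQ
  have h1 : A * Q = Q * A' := by
    have e1 : A * Q = ∑ k ∈ Finset.range L, A ^ (k + 1) * P0 * A' ^ (L + 1 - (k + 1)) := by
      rw [hQ, Finset.mul_sum]
      refine Finset.sum_congr rfl fun k _ => ?_
      rw [Nat.add_sub_add_right, pow_succ' A]
      simp only [mul_assoc]
    have e2 : Q * A' = ∑ k ∈ Finset.range L, A ^ k * P0 * A' ^ (L + 1 - k) := by
      rw [hQ, Finset.sum_mul]
      refine Finset.sum_congr rfl fun k hk => ?_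
      have : L + 1 - k = L - k + 1 := by
        have := Finset.mem_range.1 hk
        omega
      rw [this, pow_succ A', mul_assoc _ (A' ^ (L - k))]
    have e3 := Finset.sum_range_succ (fun k => A ^ k * P0 * A' ^ (L + 1 - k)) L
    have e4 := Finset.sum_range_succ' (fun k => A ^ k * P0 * A' ^ (L + 1 - k)) L
    rw [e1, e2]
    have e5 : A ^ L * P0 * A' ^ (L + 1 - L) = A ^ 0 * P0 * A' ^ (L + 1 - 0) := by
      rw [hA, pow_zero, Nat.sub_zero, pow_succ A', hA', Nat.add_sub_cancel_left, pow_one,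
        one_mul A']
    rw [e3, e5] at e4
    exact (add_right_cancel e4).symm
  have hm : ∀ k, (A.map res) ^ k * P = P * (A'.map res) ^ k := by
    intro k
    induction k with
    | zero => simp
    | succ k ih => rw [pow_succ', mul_assoc, ih, ← mul_assoc, hc, mul_assoc, ← pow_succ']
  have hT : (A'.map res) ^ L = 1 := by
    have := congrArg res.mapMatrix hA'
    rw [map_pow, map_one] at this
    exact this
  have h2 : res.mapMatrix Q = (L : Kp) • P := by
    rw [hQ, map_sum]
    have : ∀ k ∈ Finset.range L, res.mapMatrix (A ^ k * P0 * A' ^ (L - k)) = P := by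
      intro k hk
      rw [map_mul, map_mul, map_pow, map_pow]
      simp only [RingHom.mapMatrix_apply]
      rw [hP0, hm, mul_assoc, ← pow_add, Nat.add_sub_cancel' (Finset.mem_range.1 hk).le, hT,
        mul_one]
    rw [Finset.sum_congr rfl this, Finset.sum_const, Finset.card_range, Nat.cast_smul_eq_nsmul]
  have h3 : IsUnit Q.det := by
    apply unit_of_res
    rw [RingHom.map_det, h2, Matrix.det_smul]
    refine mul_ne_zero (pow_ne_zero _ ?_) hP
    exact fun h => hL ((CharP.cast_eq_zero_iff Kp 13 L).1 h)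
  have h4 : A = Q * A' * Q⁻¹ := by
    rw [← h1, mul_assoc, Matrix.mul_nonsing_inv _ h3, mul_one]
  rw [h4, Matrix.trace_mul_comm, ← mul_assoc, Matrix.nonsing_inv_mul _ h3, one_mul]

theorem xqoct_split {M : Type} [AddCommGroup M] [Module Kp M] {n : ℕ}
    (b : Module.Basis (Fin n) Kp M) (e : Module.End Kp M) (E : Matrix (Fin n) (Fin n) Oo)
    (hE : E * E = E) (he : E.map res = LinearMap.toMatrix b b e) {d : ℕ}
    (c : Module.Basis (Fin d) Kp (LinearMap.range e)) :
    (∀ w : LinearMap.range e, e w = w) ∧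
    ∃ (I : Matrix (Fin n) (Fin d) Oo) (P : Matrix (Fin d) (Fin n) Oo), P * I = 1 ∧ I * P = E ∧
      I.map res = LinearMap.toMatrix c b (LinearMap.range e).subtype ∧
      P.map res = LinearMap.toMatrix b c e.rangeRestrict := by
  have hee : e * e = e := by
    apply (LinearMap.toMatrix b b).injective
    rw [LinearMap.toMatrix_mul, ← he, ← Matrix.map_mul, hE]
  have hw : ∀ w : LinearMap.range e, e w = w := by
    rintro ⟨_, v, rfl⟩
    exact congrArg (fun f : Module.End Kp M => f v) hee
  refine ⟨hw, ofact E hE _ _ ?_ ?_⟩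
  · rw [← LinearMap.toMatrix_comp, ← LinearMap.toMatrix_id c]
    congr 1
    ext w
    exact hw w
  · rw [← LinearMap.toMatrix_comp, he]
    rfl

theorem isCt_unique {M : Type} [AddCommGroup M] [Module Kp M] [Module.Finite Kp M] (a : Module.End Kp M) (x y : ℂ) (hx : IsCt a x) (hy : IsCt a y) :
    x = y := by
  obtain ⟨n, b, A, N, hN, hA, hm, rfl⟩ := hx
  obtain ⟨n', b', A', N', hN', hA', hm', rfl⟩ := hy
  have hn : n = n' := by
    have h1 := Module.finrank_eq_card_basis b
    have h2 := Module.finrank_eq_card_basis b'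
    rw [Fintype.card_fin] at h1 h2
    omega
  subst hn
  congr 1
  refine xqoct_trace A A' (N * N') ?_ ?_ ?_ (LinearMap.toMatrix b' b LinearMap.id) ?_ ?_
  · intro h
    rcases (Nat.Prime.dvd_mul fact13.out).1 h with h | h
    · exact hN h
    · exact hN' h
  · rw [pow_mul, hA, one_pow]
  · rw [mul_comm, pow_mul, hA', one_pow]
  · have : LinearMap.toMatrix b' b LinearMap.id * LinearMap.toMatrix b b' LinearMap.id
        = (1 : Matrix (Fin n) (Fin n) Kp) := by
      rw [← LinearMap.toMatrix_comp, LinearMap.id_comp, LinearMap.toMatrix_id]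
    exact (Matrix.isUnit_det_of_right_inverse this).ne_zero
  · rw [hm, hm', ← LinearMap.toMatrix_comp, ← LinearMap.toMatrix_comp, LinearMap.id_comp,
      LinearMap.comp_id]

theorem isCt_conj {M : Type} [AddCommGroup M] [Module Kp M] [Module.Finite Kp M] {M' : Type} [AddCommGroup M'] [Module Kp M'] (e : M ≃ₗ[Kp] M')
    (a : Module.End Kp M) (a' : Module.End Kp M') (h : ∀ v, e (a v) = a' (e v)) (x : ℂ)
    (hx : IsCt a x) : IsCt a' x := by
  obtain ⟨n, b, A, N, hN, hA, hm, ht⟩ := hx
  refine ⟨n, b.map e, A, N, hN, hA, ?_, ht⟩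
  rw [hm]
  ext i j
  rw [LinearMap.toMatrix_apply, LinearMap.toMatrix_apply, Module.Basis.map_apply, ← h]
  simp

theorem oct_idem {M : Type} [AddCommGroup M] [Module Kp M] [Module.Finite Kp M] {n : ℕ} (b : Module.Basis (Fin n) Kp M) (a e : Module.End Kp M)
    (A E : Matrix (Fin n) (Fin n) Oo) (N : ℕ) (hN : ¬ 13 ∣ N) (hA : A ^ N = 1)
    (hE : E * E = E) (hAE : A * E = E * A) (ha : A.map res = LinearMap.toMatrix b b a)
    (he : E.map res = LinearMap.toMatrix b b e) (s : Module.End Kp (LinearMap.range e))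
    (hs : ∀ w, (s w : M) = a w) : IsCt s (((A * E).trace : Oo) : ℂ) := by
  let c := Module.finBasis Kp (LinearMap.range e)
  obtain ⟨hw, I, P, hPI, hIP, hI, hP⟩ := xqoct_split b e E hE he c
  have hAI : I * (P * A * I) = A * I := by
    rw [← Matrix.mul_assoc, ← Matrix.mul_assoc, hIP, ← hAE, ← hIP, Matrix.mul_assoc,
      Matrix.mul_assoc, hPI, Matrix.mul_one]
  have hpow : ∀ k : ℕ, (P * A * I) ^ k = P * A ^ k * I := by
    intro k
    induction k with
    | zero => rw [pow_zero, pow_zero, Matrix.mul_one, hPI]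
    | succ k ih =>
      rw [pow_succ (P * A * I), ih, Matrix.mul_assoc, hAI, pow_succ A]
      simp only [Matrix.mul_assoc]
  have hres : e.rangeRestrict ∘ₗ a ∘ₗ (LinearMap.range e).subtype = s := by
    ext w
    show e (a w) = s w
    rw [← hs, hw]
  refine ⟨_, c, P * A * I, N, hN, ?_, ?_, ?_⟩
  · rw [hpow, hA, Matrix.mul_one, hPI]
  · rw [Matrix.map_mul, Matrix.map_mul, hP, ha, hI, Matrix.mul_assoc,
      ← LinearMap.toMatrix_comp, ← LinearMap.toMatrix_comp, hres]
  · rw [Matrix.mul_assoc, Matrix.trace_mul_comm, ← hIP, Matrix.mul_assoc]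

theorem oct_rank {M : Type} [AddCommGroup M] [Module Kp M] [Module.Finite Kp M] {n : ℕ} (b : Module.Basis (Fin n) Kp M) (e : Module.End Kp M)
    (E : Matrix (Fin n) (Fin n) Oo) (hE : E * E = E)
    (he : E.map res = LinearMap.toMatrix b b e) :
    ((E.trace : Oo) : ℂ) = (Module.finrank Kp (LinearMap.range e) : ℂ) := by
  obtain ⟨-, I, P, hPI, hIP, -, -⟩ :=
    xqoct_split b e E hE he (Module.finBasis Kp (LinearMap.range e))
  rw [← hIP, Matrix.trace_mul_comm, hPI, Matrix.trace_one, Fintype.card_fin]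
  exact map_natCast Oo.subtype _

end Pool.Agent.N9181
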