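import Pool.Agent.MP_9181f8_al.Q.GLift
import Pool.Agent.MP_9181f8_al.Q.HallB
import Pool.Agent.MP_9181f8_al.Q.OCt

namespace Pool.Agent.N9181

open scoped commutatorElement

theorem xqfsc_zero {M : Type} [AddCommGroup M] [Module Kp M] [Subsingleton M]
    (s : Module.End Kp M) : IsCt s 0 :=
  ⟨0, Module.Basis.empty M, 1, 1, by norm_num, pow_one _, Subsingleton.elim _ _, by simp⟩

theorem xqfsc_conj {F : Type} [Field F] {M : Type} [AddCommGroup M] [Module F M] {G : Type}
    [Group G] (σ : Representation F G M) (E E' : Module.End F M) (h k l : G)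
    (hE : σ k * E = E' * σ k) (hk : h * k = k * l) (s : Module.End F (LinearMap.range E'))
    (hs : ∀ w, (s w : M) = σ h w) :
    ∃ (φ : LinearMap.range E ≃ₗ[F] LinearMap.range E') (s' : Module.End F (LinearMap.range E)),
      (∀ w, (s' w : M) = σ l w) ∧ ∀ v, φ (s' v) = s (φ v) := by
  let u : M ≃ₗ[F] M := LinearEquiv.ofLinearMap (σ k) (σ k⁻¹)
    (LinearMap.ext (σ.self_inv_apply k)) (LinearMap.ext (σ.inv_self_apply k))
  have h1 : (LinearMap.range E).map (u : M →ₗ[F] M) = LinearMap.range E' := by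
    rw [← LinearMap.range_comp, ← LinearEquiv.range_comp u E']
    exact congrArg LinearMap.range hE
  let φ := u.ofSubmodules _ _ h1
  have h2 : ∀ v, (φ v : M) = σ k v := fun _ => rfl
  have h3 : ∀ v, φ (φ.symm.conj s v) = s (φ v) := fun v => by simp
  refine ⟨φ, φ.symm.conj s, fun w => u.injective ?_, h3⟩
  change σ k _ = σ k _
  rw [← h2, h3, hs, h2, ← Module.End.mul_apply, ← map_mul, hk, map_mul, Module.End.mul_apply]

theorem xqfsc_tr {F : Type} [Field F] {M : Type} [AddCommGroup M] [Module F M] {G : Type}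
    [Group G] (σ : Representation F G M) (E E' : Module.End F M) (h k l : G)
    (hE : σ k * E = E' * σ k) (hk : h * k = k * l) :
    LinearMap.trace F M (σ h * E') = LinearMap.trace F M (σ l * E) := by
  have h1 : σ h * E' = σ k * (σ l * E * σ k⁻¹) := by
    rw [← mul_assoc, ← mul_assoc, ← map_mul, ← hk, map_mul, mul_assoc (σ h), hE, mul_assoc,
      mul_assoc, ← map_mul, mul_inv_cancel, map_one, mul_one]
  rw [h1, LinearMap.trace_mul_comm, mul_assoc, ← map_mul, inv_mul_cancel, map_one, mul_one]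

theorem fsc {M : Type} [AddCommGroup M] [Module Kp M] [Module.Finite Kp M] {G : Type} [Group G] [Finite G] (R Q : Subgroup G) [R.Normal] {I : Type} [Fintype I] [MulAction G I]
    (e : I → MonoidAlgebra Oo R) (a : I → G → MonoidAlgebra Oo R) (hC : CD R Q I e a) (hQ : RQ R Q) (h13 : ¬ 13 ∣ Nat.card R)
    (hidx : ¬ 13 ∣ Q.index) (σ : Representation Kp G M) (hσ : IrrF σ) :
    ∃ (M' : Type) (_ : AddCommGroup M') (_ : Module ℂ M') (_ : Module.Finite ℂ M')
      (τ : Representation ℂ G M'), IrrF τ ∧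
      ∀ h : G, ¬ 13 ∣ orderOf h → ∀ j : I, h • j = j →
        ∀ s : Module.End Kp (LinearMap.range (gv res σ R (e j))), (∀ w, (s w : M) = σ h w) →
          IsCt s (LinearMap.trace ℂ M' (τ h * gv Oo.subtype τ R (e j))) := by
  obtain ⟨i, hi⟩ := blk_ex res R Q e a hC σ hσ
  obtain ⟨L, hL⟩ := hall_T R Q (MulAction.stabilizer G i) hQ hidx fun r hr => hC.triv r hr i
  obtain ⟨M', _, _, _, τ, hτ, hτi, H⟩ := glift R Q e a hC hQ h13 σ hσ i hi L hL
  refine ⟨M', _, _, inferInstance, τ, hτ, fun h hh j hj s hs => ?_⟩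
  by_cases hg : ∃ g : G, g • i = j
  · obtain ⟨g, hg⟩ := hg
    have hx : (g⁻¹ * h * g) • i = i := by rw [mul_smul, mul_smul, hg, hj, ← hg, inv_smul_smul]
    obtain ⟨y, -, hy, hl⟩ := hL.cnj (Subgroup.zpowers (g⁻¹ * h * g))
      (Subgroup.zpowers_le_of_mem hx) fun hd => hh (by
        have h1 := hd.trans (Subgroup.relIndex_dvd_card R _)
        rw [Nat.card_zpowers] at h1
        have h2 := conj_pow (i := orderOf h) (a := g⁻¹) (b := h)
        rw [inv_inv, pow_orderOf_eq_one, mul_one, inv_mul_cancel] at h2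
        exact h1.trans (orderOf_dvd_of_pow_eq_one h2))
    have hk : (g * y⁻¹) • i = j := by
      rw [mul_smul, show y⁻¹ • i = i from (MulAction.stabilizer G i).inv_mem hy, hg]
    have hm : h * (g * y⁻¹) = g * y⁻¹ * (y * (g⁻¹ * h * g) * y⁻¹) := by group
    obtain ⟨φ, s', h1, h2⟩ := xqfsc_conj σ _ _ _ _ _
      (hk ▸ blk_act res R Q e a hC σ (g * y⁻¹) i) hm s hs
    rw [xqfsc_tr τ _ _ _ _ _ (hk ▸ blk_act Oo.subtype R Q e a hC τ (g * y⁻¹) i) hm]
    exact isCt_conj φ s' s h2 _ (H _ (hl _ (Subgroup.mem_zpowers _)) s' h1)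
  · have h1 : gv res σ R (e j) = 0 :=
      by_contra fun h1 => hg (blk_orbit res R Q e a hC σ hσ i j hi h1)
    have h2 : gv Oo.subtype τ R (e j) = 0 :=
      by_contra fun h2 => hg (blk_orbit Oo.subtype R Q e a hC τ hτ i j hτi h2)
    have : Subsingleton (LinearMap.range (gv res σ R (e j))) :=
      Submodule.subsingleton_iff_eq_bot.2 (LinearMap.range_eq_bot.2 h1)
    rw [h2, mul_zero, map_zero]
    exact xqfsc_zero s

end Pool.Agent.N9181
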