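import Pool.Agent.MP_9181f8_al.Q.QBasic
import Pool.Agent.MP_9181f8_al.N.BaseCh

namespace Pool.Agent.N9181

open scoped commutatorElement

section Abs

variable {F X : Type} [Field F] [AddCommGroup X] [Module F X] {φ : F →+* F}

theorem xqfrob_phi {ι : Type} (B : Module.Basis ι F X) (φ : F →+* F) :
    ∃ Φ : X →ₛₗ[φ] X, ∀ x i, B.repr (Φ x) i = φ (B.repr x i) :=
  ⟨B.repr.symm.toLinearMap ∘ₛₗ Finsupp.mapRange.linearMap φ.toSemilinearMap ∘ₛₗ B.repr.toLinearMap,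
    fun x i => by simp⟩

theorem xqfrob_fix {ι : Type} (B : Module.Basis ι F X) {Φ : X →ₛₗ[φ] X}
    (hΦ : ∀ x i, B.repr (Φ x) i = φ (B.repr x i)) (W : Submodule F X) (h0 : W ≠ ⊥)
    (hW : ∀ w ∈ W, Φ w ∈ W) : ∃ w ∈ W, w ≠ 0 ∧ Φ w = w := by
  obtain ⟨w, ⟨h1, h2⟩, h3⟩ := exists_minimalFor_of_wellFoundedLT (fun w => w ∈ W ∧ w ≠ 0)
    (fun w => (B.repr w).support) ((Submodule.ne_bot_iff W).1 h0)
  obtain ⟨i, hi⟩ := Finsupp.support_nonempty_iff.2 (B.repr.map_ne_zero_iff.2 h2)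
  have hc := Finsupp.mem_support_iff.1 hi
  have h4 := W.smul_mem (B.repr w i)⁻¹ h1
  refine ⟨_, h4, smul_ne_zero (inv_ne_zero hc) h2, sub_eq_zero.1 (by_contra fun h => ?_)⟩
  have h5 := h3 ⟨W.sub_mem (hW _ h4) h4, h⟩ (fun j hj => Finsupp.mem_support_iff.2 fun e =>
    Finsupp.mem_support_iff.1 hj (by rw [map_sub, Finsupp.sub_apply, hΦ]; simp [e])) hi
  refine Finsupp.mem_support_iff.1 h5 ?_
  rw [map_sub, Finsupp.sub_apply, hΦ, map_smul, Finsupp.smul_apply, smul_eq_mul,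
    inv_mul_cancel₀ hc, map_one, sub_self]

theorem xqfrob_sup [Module.Finite F X] (a : Module.End F X) (c : F) {W S : Submodule F X}
    (hW : ∀ w ∈ W, a w ∈ W) (hS : ∀ w ∈ S, a w ∈ S) (h : W ⊓ S = ⊥) :
    Module.finrank F ((W ⊔ S) ⊓ a.eigenspace c : Submodule F X) =
      Module.finrank F (W ⊓ a.eigenspace c : Submodule F X) +
        Module.finrank F (S ⊓ a.eigenspace c : Submodule F X) := by
  have h1 : (W ⊔ S) ⊓ a.eigenspace c = W ⊓ a.eigenspace c ⊔ S ⊓ a.eigenspace c := by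
    refine le_antisymm ?_ (sup_le (inf_le_inf_right _ le_sup_left) (inf_le_inf_right _ le_sup_right))
    rintro x ⟨h2, h3⟩
    obtain ⟨y, hy, z, hz, rfl⟩ := Submodule.mem_sup.1 h2
    have h4 : a y - c • y = -(a z - c • z) := by
      have := Module.End.mem_eigenspace_iff.1 h3
      rw [map_add, smul_add] at this
      linear_combination (norm := module) this
    have h5 : a y - c • y ∈ W ⊓ S := ⟨W.sub_mem (hW y hy) (W.smul_mem c hy),
      h4 ▸ S.neg_mem (S.sub_mem (hS z hz) (S.smul_mem c hz))⟩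
    rw [h, Submodule.mem_bot] at h5
    exact Submodule.add_mem_sup ⟨hy, Module.End.mem_eigenspace_iff.2 (sub_eq_zero.1 h5)⟩
      ⟨hz, Module.End.mem_eigenspace_iff.2 (sub_eq_zero.1 (neg_eq_zero.1 (h4 ▸ h5)))⟩
  have h2 : W ⊓ a.eigenspace c ⊓ (S ⊓ a.eigenspace c) = ⊥ :=
    le_bot_iff.1 ((inf_le_inf inf_le_left inf_le_left).trans h.le)
  rw [h1, ← Submodule.finrank_sup_add_finrank_inf_eq, h2, finrank_bot, add_zero]

variable [RingHomSurjective φ] {Φ : X →ₛₗ[φ] X}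

theorem xqfrob_map (hi : Function.Injective Φ) (a : Module.End F X) (ha : ∀ x, Φ (a x) = a (Φ x))
    (c : F) (S : Submodule F X) :
    Module.finrank F (S.map Φ ⊓ a.eigenspace (φ c) : Submodule F X) =
      Module.finrank F (S ⊓ a.eigenspace c : Submodule F X) := by
  have h1 : S.map Φ ⊓ a.eigenspace (φ c) = (S ⊓ a.eigenspace c).map Φ := by
    ext x
    simp only [Submodule.mem_inf, Submodule.mem_map, Module.End.mem_eigenspace_iff]
    constructor
    · rintro ⟨⟨y, h1, rfl⟩, h2⟩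
      exact ⟨y, ⟨h1, hi (by rw [ha, h2, map_smulₛₗ])⟩, rfl⟩
    · rintro ⟨y, ⟨h1, h2⟩, rfl⟩
      exact ⟨⟨y, h1, rfl⟩, by rw [← ha, h2, map_smulₛₗ]⟩
  rw [h1]
  exact congrArg Cardinal.toNat (rank_eq_of_equiv_equiv φ (AddEquiv.ofBijective
    (Φ.submoduleMap _).toAddMonoidHom ⟨LinearMap.submoduleMap_injective hi _,
      LinearMap.submoduleMap_surjective _ _⟩) ⟨φ.injective, φ.surjective⟩
    fun r m => map_smulₛₗ (Φ.submoduleMap _) r m).symm

theorem xqfrob_abs [Module.Finite F X] {G : Type} (τ : G → Module.End F X)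
    (hi : Function.Injective Φ) (hc : ∀ g x, Φ (τ g x) = τ g (Φ x))
    (hd : ∀ W : Submodule F X, W ≠ ⊥ → (∀ g, ∀ w ∈ W, τ g w ∈ W) → (∀ w ∈ W, Φ w ∈ W) → W = ⊤)
    {M : Submodule F X} (hM : Minimal (fun W => W ≠ ⊥ ∧ ∀ g, ∀ w ∈ W, τ g w ∈ W) M) (h h' : G)
    (hP : ∀ c, Module.finrank F (M ⊓ (τ h).eigenspace c : Submodule F X) =
      Module.finrank F (M ⊓ (τ h').eigenspace c : Submodule F X)) (c : F) :
    edF (τ h) c = edF (τ h') c := by
  let P : Submodule F X → Prop := fun W => ∀ c,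
    Module.finrank F (W ⊓ (τ h).eigenspace c : Submodule F X) =
      Module.finrank F (W ⊓ (τ h').eigenspace c : Submodule F X)
  let T : Set (Submodule F X) :=
    {S | Minimal (fun W => W ≠ ⊥ ∧ ∀ g, ∀ w ∈ W, τ g w ∈ W) S ∧ P S}
  have h1 : ∀ S ∈ T, S.map Φ ∈ T := by
    rintro S ⟨⟨⟨a1, a2⟩, a3⟩, a4⟩
    refine ⟨⟨⟨fun e => a1 ?_, ?_⟩, fun W hW e => ?_⟩, fun c => ?_⟩
    · rw [← Submodule.comap_map_eq_of_injective hi S, e, Submodule.comap_bot,
        LinearMap.ker_eq_bot.2 hi]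
    · rintro g _ ⟨w, hw, rfl⟩
      exact ⟨_, a2 g w hw, hc g w⟩
    · refine Submodule.map_le_iff_le_comap.2 (a3 ⟨fun e' => hW.1 (eq_bot_iff.2 fun w hw => ?_),
        fun g w hw => ?_⟩ ((Submodule.comap_mono e).trans
          (Submodule.comap_map_eq_of_injective hi S).le))
      · obtain ⟨y, -, rfl⟩ := e hw
        rw [(Submodule.eq_bot_iff _).1 e' y hw, map_zero]
        exact Submodule.zero_mem _
      · exact Submodule.mem_comap.2 (hc g w ▸ hW.2 g _ hw)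
    · obtain ⟨c, rfl⟩ := φ.surjective c
      rw [xqfrob_map hi _ (hc h), xqfrob_map hi _ (hc h'), a4]
  obtain ⟨W, ⟨a1, a2, a3⟩, a4⟩ := exists_maximal_of_wellFoundedGT
    (fun W => W ≤ sSup T ∧ (∀ g, ∀ w ∈ W, τ g w ∈ W) ∧ P W)
    ⟨M, le_sSup ⟨hM, hP⟩, hM.1.2, hP⟩
  have h2 : ∀ S ∈ T, S ≤ W := by
    intro S hS
    obtain ⟨⟨⟨b1, b2⟩, b3⟩, b4⟩ := id hS
    by_cases e : W ⊓ S = ⊥
    · refine le_sup_right.trans (a4 ⟨sup_le a1 (le_sSup hS), fun g w hw => ?_, fun c => ?_⟩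
        le_sup_left)
      · obtain ⟨y, hy, z, hz, rfl⟩ := Submodule.mem_sup.1 hw
        rw [map_add]
        exact Submodule.add_mem_sup (a2 g y hy) (b2 g z hz)
      · rw [xqfrob_sup _ _ (a2 h) (b2 h) e, xqfrob_sup _ _ (a2 h') (b2 h') e, a3, b4]
    · exact (b3 ⟨e, fun g w hw => ⟨a2 g w hw.1, b2 g w hw.2⟩⟩ inf_le_right).trans inf_le_left
  have h3 := hd W (fun e => hM.1.1 (le_bot_iff.1 (e ▸ h2 M ⟨hM, hP⟩))) a2 fun w hw =>
    (sSup_le fun S hS => Submodule.map_le_iff_le_comap.1 (h2 _ (h1 S hS)) : _ ≤ W.comap Φ) (a1 hw)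
  have h4 := a3 c
  rwa [h3, top_inf_eq, top_inf_eq] at h4

end Abs

theorem xqfrob_res {F X : Type} [Field F] [AddCommGroup X] [Module F X]
    (W : Submodule F X) (a : Module.End F X) (s : Module.End F W)
    (hs : ∀ w : W, (s w : X) = a w) (c : F) :
    edF s c = Module.finrank F (W ⊓ a.eigenspace c : Submodule F X) := by
  unfold edF
  rw [← Submodule.finrank_map_subtype_eq]
  suffices h : Submodule.map W.subtype (s.eigenspace c) = W ⊓ a.eigenspace c by rw [h]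
  ext v
  simp only [Submodule.mem_map, Module.End.mem_eigenspace_iff, Submodule.mem_inf,
    Submodule.subtype_apply]
  constructor
  · rintro ⟨w, hw, rfl⟩
    exact ⟨w.2, by rw [← hs, hw]; rfl⟩
  · rintro ⟨h1, h2⟩
    exact ⟨⟨v, h1⟩, Subtype.ext (by rw [hs]; exact h2), rfl⟩

open TensorProduct in
theorem frob {V : Type} [AddCommGroup V] [Module K V] [Module.Finite K V]
    {G : Type} [Group G] (ρ : Representation K G V) (hirr : Irr ρ) :
    ∃ (X : Type) (_ : AddCommGroup X) (_ : Module Kp X) (_ : Module.Finite Kp X)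
      (τ : Representation Kp G X) (M : Type) (_ : AddCommGroup M) (_ : Module Kp M)
      (_ : Module.Finite Kp M) (σ : Representation Kp G M), IrrF σ ∧
      (∀ (h : G) (g : Polynomial K),
        Module.finrank Kp (LinearMap.ker (Polynomial.aeval (τ h) (g.map (algebraMap K Kp)))) =
          Module.finrank K (LinearMap.ker (Polynomial.aeval (ρ h) g))) ∧
      ∀ h h' : G, (∀ c, edF (σ h) c = edF (σ h') c) → ∀ c, edF (τ h) c = edF (τ h') c := by
  let τ : Representation Kp G (Kp ⊗[K] V) :=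
    { toFun := fun h => (ρ h).baseChange Kp
      map_one' := by rw [map_one]; exact LinearMap.baseChange_one K V
      map_mul' := fun a b => by rw [map_mul]; exact LinearMap.baseChange_mul _ _ }
  have hτ : ∀ h, τ h = (ρ h).baseChange Kp := fun _ => rfl
  let b := Module.finBasis K V
  let B := Algebra.TensorProduct.basis Kp b
  have hB : ∀ v i, B.repr (1 ⊗ₜ v) i = algebraMap K Kp (b.repr v i) := fun v i => by
    rw [Algebra.TensorProduct.basis_repr_tmul, one_smul, Finsupp.mapRange_apply]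
  have : RingHomSurjective (frobenius Kp 13) := ⟨(bijective_frobenius Kp 13).2⟩
  obtain ⟨Φ, hΦ⟩ := xqfrob_phi B (frobenius Kp 13)
  have h1 : ∀ v, Φ (1 ⊗ₜ v) = 1 ⊗ₜ v := fun v => B.ext_elem fun i => by
    rw [hΦ, hB, frobenius_def, ← map_pow, ZMod.pow_card]
  obtain ⟨v, hv⟩ := hirr.1
  obtain ⟨M, hM⟩ := exists_minimal_of_wellFoundedLT
    (fun W : Submodule Kp (Kp ⊗[K] V) => W ≠ ⊥ ∧ ∀ g, ∀ w ∈ W, τ g w ∈ W)
    ⟨⊤, (Submodule.ne_bot_iff _).2 ⟨1 ⊗ₜ v, trivial, fun e => hv (b.ext_elem fun i =>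
      (algebraMap K Kp).injective (by rw [← hB, e]; simp))⟩, fun _ _ _ => trivial⟩
  refine ⟨Kp ⊗[K] V, inferInstance, inferInstance, inferInstance, τ, M, inferInstance,
    inferInstance, inferInstance, τ.subrepresentation M hM.1.2, ⟨?_, fun W hW => ?_⟩,
    fun h g => by rw [hτ, xbasech_aeval, xbasech_ker], fun h h' hP => ?_⟩
  · obtain ⟨w, h2, h3⟩ := (Submodule.ne_bot_iff _).1 hM.1.1
    exact ⟨⟨w, h2⟩, fun e => h3 (congrArg Subtype.val e)⟩
  · refine or_iff_not_imp_left.2 fun e => eq_top_iff.2 fun w _ => ?_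
    obtain ⟨y, h2, h3⟩ := hM.2 (y := W.map M.subtype) ⟨fun e' => e (by
      rw [← Submodule.comap_map_eq_of_injective M.injective_subtype W, e', Submodule.comap_bot,
        Submodule.ker_subtype]), by
      rintro g _ ⟨y, hy, rfl⟩
      exact ⟨_, hW g y hy, rfl⟩⟩ (Submodule.map_subtype_le _ _) w.2
    exact Subtype.ext h3 ▸ h2
  refine xqfrob_abs (Φ := Φ) τ (fun x y e => B.ext_elem fun i => (frobenius Kp 13).injective
    (by rw [← hΦ, e, hΦ])) (fun g => LinearMap.congr_fun (B.ext (f₁ := Φ ∘ₛₗ τ g)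
      (f₂ := τ g ∘ₛₗ Φ) fun i => ?_)) (fun W a1 a2 a3 => ?_) hM h h' fun c => ?_
  · rw [Algebra.TensorProduct.basis_apply, LinearMap.comp_apply, LinearMap.comp_apply, h1, hτ,
      LinearMap.baseChange_tmul, h1]
  · obtain ⟨w, b1, b2, b3⟩ := xqfrob_fix B hΦ W a1 a3
    have b4 : ∀ i, ∃ c, algebraMap K Kp c = B.repr w i := fun i => by
      have b5 := hΦ w i
      rw [b3, frobenius_def, eq_comm, ← Subfield.mem_bot_iff_pow_eq_self,
        ← ZMod.fieldRange_castHom_eq_bot 13] at b5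
      exact b5
    choose c hc using b4
    obtain rfl : 1 ⊗ₜ b.equivFun.symm c = w := B.ext_elem fun i => by
      rw [hB, ← hc, ← b.equivFun_apply, LinearEquiv.apply_symm_apply]
    rcases hirr.2 ((W.restrictScalars K).comap (TensorProduct.mk K Kp V 1))
      (fun g u hu => a2 g _ hu) with e | e
    · exact absurd (by rw [(Submodule.eq_bot_iff _).1 e _ b1, tmul_zero]) b2
    · rw [eq_top_iff, ← B.span_eq, Submodule.span_le]
      rintro _ ⟨i, rfl⟩
      rw [Algebra.TensorProduct.basis_apply]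
      exact e.ge (Submodule.mem_top (x := b i))
  · rw [← xqfrob_res M _ (τ.subrepresentation M hM.1.2 h) fun _ => rfl, hP,
      xqfrob_res M (τ h') _ fun _ => rfl]

end Pool.Agent.N9181
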