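import Pool.Agent.MP_9181f8_al.Q.TLift

namespace Pool.Agent.N9181

open scoped commutatorElement

theorem glift {M : Type} [AddCommGroup M] [Module Kp M] [Module.Finite Kp M] {G : Type} [Group G] [Finite G] (R Q : Subgroup G) [R.Normal] {I : Type} [Fintype I] [MulAction G I]
    (e : I → MonoidAlgebra Oo R) (a : I → G → MonoidAlgebra Oo R) (hC : CD R Q I e a) (hQ : RQ R Q) (h13 : ¬ 13 ∣ Nat.card R)
    (σ : Representation Kp G M) (hσ : IrrF σ) (i : I) (hi : gv res σ R (e i) ≠ 0)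
    (L : Subgroup G) (hL : HT R Q (MulAction.stabilizer G i) L) :
    ∃ (M' : Type) (_ : AddCommGroup M') (_ : Module ℂ M') (_ : Module.Finite ℂ M')
      (τ : Representation ℂ G M'), IrrF τ ∧
      gv Oo.subtype τ R (e i) ≠ 0 ∧
      ∀ l ∈ L, ∀ s : Module.End Kp (LinearMap.range (gv res σ R (e i))),
        (∀ w, (s w : M) = σ l w) →
          IsCt s (LinearMap.trace ℂ M' (τ l * gv Oo.subtype τ R (e i))) := by
  obtain ⟨n, τ0, h0, h1, h2⟩ := tlift R Q e a hC hQ h13 σ hσ i hi L hL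
  obtain ⟨M', _, _, _, τ, hτ, j, hj, hjt⟩ := exists_over (MulAction.stabilizer G i) τ0 h0
  have hE : ∀ u, gv Oo.subtype τ R (e i) (j u) = j u := fun u => by
    have := gev_int Oo.subtype (τ0.comp (Subgroup.inclusion (hL.le1.trans hL.le2)))
      (MonoidHom.comp τ R.subtype) j (fun r u => hjt _ u) (e i) u
    rw [h1] at this
    exact this.symm
  obtain ⟨u0, hu0⟩ := h0.1
  have hj0 : j u0 ≠ 0 := fun h => hu0 (hj (h.trans (map_zero j).symm))
  have hr : LinearMap.range j = LinearMap.range (gv Oo.subtype τ R (e i)) := by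
    refine (blk_irr Oo.subtype R Q e a hC τ hτ i (LinearMap.range j) ?_ ?_).resolve_left ?_
    · rintro _ ⟨u, rfl⟩
      exact ⟨j u, hE u⟩
    · rintro g hg _ ⟨u, rfl⟩
      exact ⟨τ0 ⟨g, hg⟩ u, hjt ⟨g, hg⟩ u⟩
    · intro h
      exact hj0 ((Submodule.eq_bot_iff _).1 h _ ⟨u0, rfl⟩)
  refine ⟨M', inferInstance, inferInstance, inferInstance, τ, hτ, fun h => hj0 ?_,
    fun l hl s hs => ?_⟩
  · rw [← hE, h, LinearMap.zero_apply]
  · let p : M' →ₗ[ℂ] (Fin n → ℂ) := (LinearEquiv.ofInjective j hj).symm.toLinearMap ∘ₗ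
      LinearMap.codRestrict (LinearMap.range j) (gv Oo.subtype τ R (e i))
        fun x => hr ▸ ⟨x, rfl⟩
    have hp : ∀ x, j (p x) = gv Oo.subtype τ R (e i) x := fun x =>
      congrArg Subtype.val ((LinearEquiv.ofInjective j hj).apply_symm_apply ⟨_, hr ▸ ⟨x, rfl⟩⟩)
    have e1 : τ l * gv Oo.subtype τ R (e i) = j ∘ₗ (τ0 ⟨l, hL.le2 hl⟩ ∘ₗ p) := by
      ext x
      rw [LinearMap.comp_apply, LinearMap.comp_apply, hjt, hp]
      rfl
    have e2 : (τ0 ⟨l, hL.le2 hl⟩ ∘ₗ p) ∘ₗ j = τ0 ⟨l, hL.le2 hl⟩ := by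
      refine LinearMap.ext fun u => ?_
      rw [LinearMap.comp_apply, LinearMap.comp_apply, hj ((hp _).trans (hE u))]
    rw [e1, LinearMap.trace_comp_comm', e2]
    exact h2 l hl s hs

end Pool.Agent.N9181
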