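import Pool.Agent.MP_9181f8_al.Q.HallB

namespace Pool.Agent.N9181

open scoped commutatorElement

theorem xqhallt_conj {G : Type} [Group G] (R Q T L : Subgroup G) (h : RQ R Q) (hL : HT R Q T L)
    (x : G) (hxQ : x ∈ Q) (hxT : x ∈ T) :
    HT R Q T (L.comap (MulAut.conj x).toMonoidHom) := by
  have hm : ∀ y, y ∈ L.comap (MulAut.conj x).toMonoidHom ↔ x * y * x⁻¹ ∈ L := fun y => Iff.rfl
  refine ⟨fun r hr => (hm r).2 (hL.le1 (h.nR.conj_mem r hr x)), fun y hy => ?_, ?_, ?_, ?_⟩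
  · have h1 := hL.le2 ((hm y).1 hy)
    rw [show y = x⁻¹ * (x * y * x⁻¹) * x by group]
    exact T.mul_mem (T.mul_mem (T.inv_mem hxT) h1) hxT
  · have h1 : R.comap (MulAut.conj x).toMonoidHom = R := by
      ext y
      refine ⟨fun hy => ?_, fun hy => h.nR.conj_mem y hy x⟩
      have h2 := h.nR.conj_mem _ (show x * y * x⁻¹ ∈ R from hy) x⁻¹
      rwa [show x⁻¹ * (x * y * x⁻¹) * x⁻¹⁻¹ = y by group] at h2
    have h2 := Subgroup.relIndex_comap R (MulAut.conj x).toMonoidHom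
      (L.comap (MulAut.conj x).toMonoidHom)
    rw [h1, Subgroup.map_comap_eq_self_of_surjective (MulAut.conj x).surjective] at h2
    rw [h2]
    exact hL.cop
  · intro t ht
    obtain ⟨q, hq, hqT, l, hl, e⟩ := hL.dec (x * t * x⁻¹)
      (T.mul_mem (T.mul_mem hxT ht) (T.inv_mem hxT))
    refine ⟨x⁻¹ * q * x, Q.mul_mem (Q.mul_mem (Q.inv_mem hxQ) hq) hxQ,
      T.mul_mem (T.mul_mem (T.inv_mem hxT) hqT) hxT, x⁻¹ * l * x, (hm _).2 ?_, ?_⟩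
    · rwa [show x * (x⁻¹ * l * x) * x⁻¹ = l by group]
    · rw [show x⁻¹ * q * x * (x⁻¹ * l * x) = x⁻¹ * (q * l) * x by group, ← e]
      group
  · intro H hH hc
    obtain ⟨y, hyQ, hyT, hy⟩ := hL.cnj H hH hc
    refine ⟨x⁻¹ * y, Q.mul_mem (Q.inv_mem hxQ) hyQ, T.mul_mem (T.inv_mem hxT) hyT,
      fun k hk => (hm _).2 ?_⟩
    rw [show x * (x⁻¹ * y * k * (x⁻¹ * y)⁻¹) * x⁻¹ = y * k * y⁻¹ by group]
    exact hy k hk

theorem xqhallt_ex {G : Type} [Group G] [Finite G] (R Q T : Subgroup G) (h : RQ R Q)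
    (hi : ¬ 13 ∣ Q.index) (hT : R ≤ T) (t : G) (ht : ¬ 13 ∣ orderOf t) (htT : t ∈ T) :
    ∃ L : Subgroup G, HT R Q T L ∧ t ∈ L := by
  obtain ⟨L, hL⟩ := hall_T R Q T h hi hT
  obtain ⟨x, hxQ, hxT, hx⟩ := hL.cnj (Subgroup.zpowers t) ((Subgroup.zpowers_le).2 htT)
    (fun hd => ht (by
      rw [← Nat.card_zpowers]
      exact hd.trans (Subgroup.relIndex_dvd_card R _)))
  exact ⟨_, xqhallt_conj R Q T L h hL x hxQ hxT, hx t (Subgroup.mem_zpowers t)⟩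

theorem hall_t {G : Type} [Group G] [Finite G] (R Q : Subgroup G) (h : RQ R Q) (hi : ¬ 13 ∣ Q.index) (t : G)
    (ht : ¬ 13 ∣ orderOf t) (hf : ∀ x ∈ Q, ⁅x, t⁆ ∈ R → x ∈ R) :
    ∃ L : Subgroup G, R ≤ L ∧ t ∈ L ∧ ¬ 13 ∣ R.relIndex L ∧
      ∀ Y : Subgroup G, t ∈ Y → ∀ g ∈ Y, ∃ u ∈ Y, (∃ a : ℕ, u ^ (13 ^ a) = 1) ∧
        ∃ l ∈ Y, l ∈ L ∧ g = u * l := by
  obtain ⟨L, hL, htL⟩ := xqhallt_ex R Q ⊤ h hi le_top t ht trivial
  refine ⟨L, hL.le1, htL, hL.cop, fun Y hY g hg => ?_⟩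
  obtain ⟨L', hL', htL'⟩ := xqhallt_ex R Q (R ⊔ Y) h hi le_sup_left t ht
    (Subgroup.mem_sup_right hY)
  obtain ⟨x, hxQ, -, hx⟩ := hL.cnj L' le_top hL'.cop
  have hxR : x ∈ R := by
    refine hf x hxQ (rel_int R Q L h hL.le1 hL.cop _ ?_ ?_)
    · rw [commutatorElement_def]
      exact L.mul_mem (hx t htL') (L.inv_mem htL)
    · rw [commutatorElement_def, show x * t * x⁻¹ * t⁻¹ = x * (t * x⁻¹ * t⁻¹) by group]
      exact Q.mul_mem hxQ (h.nQ.conj_mem _ (Q.inv_mem hxQ) t)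
  have hle : L' ≤ L := by
    intro k hk
    rw [show k = x⁻¹ * (x * k * x⁻¹) * x by group]
    exact L.mul_mem (L.mul_mem (L.inv_mem (hL.le1 hxR)) (hx k hk)) (hL.le1 hxR)
  obtain ⟨q, hq, -, l, hl, e⟩ := hL'.dec g (Subgroup.mem_sup_right hg)
  have := h.nR
  have hl2 : l ∈ ((R ⊔ Y : Subgroup G) : Set G) := hL'.le2 hl
  rw [Subgroup.normal_mul] at hl2
  obtain ⟨r, hr, n, hn, e2⟩ := hl2
  have e2' : r * n = l := e2
  have hnL : n ∈ L := by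
    rw [show n = r⁻¹ * l by rw [← e2']; group]
    exact L.mul_mem (L.inv_mem (hL.le1 hr)) (hle hl)
  have hqQ : g * n⁻¹ ∈ Q := by
    rw [show g * n⁻¹ = q * r by rw [e, ← e2']; group]
    exact Q.mul_mem hq (h.le hr)
  have hqY : g * n⁻¹ ∈ Y := Y.mul_mem hg (Y.inv_mem hn)
  obtain ⟨c, hc, -, -, u, hu, e3, k, hk⟩ := q_part 13 (by norm_num) (g * n⁻¹)
  have hR : (g * n⁻¹) ^ c ∈ R := by
    obtain ⟨b, hb⟩ := h.pw _ (Q.pow_mem hqQ c)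
    obtain ⟨m, hm⟩ := exists_pow_eq_self_of_coprime (x := (g * n⁻¹) ^ c) (n := 13 ^ b)
      (Nat.Coprime.pow_left b ((Nat.Prime.coprime_iff_not_dvd (by norm_num)).2 hc))
    rw [← hm]
    exact R.pow_mem hb m
  refine ⟨u, hk ▸ Y.pow_mem hqY k, hu, (g * n⁻¹) ^ c * n, Y.mul_mem (Y.pow_mem hqY c) hn,
    L.mul_mem (hL.le1 hR) hnL, ?_⟩
  have hcm : (g * n⁻¹) ^ c * u = u * (g * n⁻¹) ^ c := by
    rw [hk]; exact (Commute.pow_pow_self _ c k).eq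
  rw [← mul_assoc, ← hcm, ← e3]
  group

end Pool.Agent.N9181
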