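import Pool.Agent.MP_9181f8_al.Q.QBasic
import Pool.Agent.MP_9181f8_al.N.BtBasic

namespace Pool.Agent.N9181

open scoped commutatorElement

section xqkered

open Polynomial UniqueFactorizationMonoid

theorem xqkered_tor {F : Type} [Field F] {M M' : Type} [AddCommGroup M] [Module F M]
    [Module F[X] M] [IsScalarTower F F[X] M] [Module.Finite F M] [AddCommGroup M'] [Module F M']
    [Module F[X] M'] [IsScalarTower F F[X] M'] [Module.Finite F M'] (g : F[X])
    (hg : Irreducible g) (h : Module.finrank F (Submodule.torsionBy F[X] M g) =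
      Module.finrank F (Submodule.torsionBy F[X] M' g)) :
    Nonempty (Submodule.torsionBy F[X] M g ≃ₗ[F[X]] Submodule.torsionBy F[X] M' g) := by
  have : Ideal.IsMaximal (F[X] ∙ g) := PrincipalIdealRing.isMaximal_of_irreducible hg
  let : Field (F[X] ⧸ (F[X] ∙ g : Ideal F[X])) := Ideal.Quotient.field _
  have : Module.Finite F (F[X] ⧸ (F[X] ∙ g : Ideal F[X])) :=
    (AdjoinRoot.powerBasis hg.ne_zero).finite
  have : Module.Finite F (Submodule.torsionBy F[X] M g) :=
    Module.Finite.of_injective ((Submodule.torsionBy F[X] M g).subtype.restrictScalars F)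
      Subtype.val_injective
  have : Module.Finite F (Submodule.torsionBy F[X] M' g) :=
    Module.Finite.of_injective ((Submodule.torsionBy F[X] M' g).subtype.restrictScalars F)
      Subtype.val_injective
  have := Module.Finite.of_restrictScalars_finite F (F[X] ⧸ (F[X] ∙ g : Ideal F[X]))
    (Submodule.torsionBy F[X] M g)
  have := Module.Finite.of_restrictScalars_finite F (F[X] ⧸ (F[X] ∙ g : Ideal F[X]))
    (Submodule.torsionBy F[X] M' g)
  rw [← Module.finrank_mul_finrank F (F[X] ⧸ (F[X] ∙ g : Ideal F[X])),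
    ← Module.finrank_mul_finrank F (F[X] ⧸ (F[X] ∙ g : Ideal F[X]))
      (Submodule.torsionBy F[X] M' g)] at h
  exact ⟨(LinearEquiv.ofFinrankEq (R := F[X] ⧸ (F[X] ∙ g : Ideal F[X])) _ _
    (Nat.eq_of_mul_eq_mul_left Module.finrank_pos h)).restrictScalars F[X]⟩

theorem xqkered_int {F : Type} [Field F] [DecidableEq F] {V : Type} [AddCommGroup V] [Module F V]
    (a : Module.End F V) (f : F[X]) (hf : Squarefree f) (ha : aeval a f = 0) :
    DirectSum.IsInternal fun g : primeFactors f =>
      Submodule.torsionBy F[X] (Module.AEval' a) (g : F[X]) := by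
  refine Submodule.torsionBy_isInternal (q := fun g : F[X] => g)
    (fun x hx y hy hxy => (pairwise_primeFactors_isRelPrime hx hy hxy).isCoprime) fun x => ?_
  obtain ⟨u, hu⟩ := hf.isRadical.dvd_radical hf.ne_zero
  change aeval a (radical f) • (Module.AEval'.of a).symm x = 0
  rw [hu, map_mul, ha, zero_mul, zero_smul]

theorem xqkered_conj {F : Type} [Field F] {V V' : Type} [AddCommGroup V] [Module F V]
    [Module.Finite F V] [AddCommGroup V'] [Module F V'] [Module.Finite F V']
    (a : Module.End F V) (a' : Module.End F V') (f : F[X]) (hf : Squarefree f)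
    (ha : aeval a f = 0) (ha' : aeval a' f = 0)
    (h : ∀ g : F[X], Irreducible g → g.Monic →
      Module.finrank F (LinearMap.ker (aeval a g)) =
        Module.finrank F (LinearMap.ker (aeval a' g))) :
    ∃ e : V ≃ₗ[F] V', ∀ v, e (a v) = a' (e v) := by
  classical
  have hφ := fun g : primeFactors f => xqkered_tor (M := Module.AEval' a) (M' := Module.AEval' a')
    (g : F[X]) (irreducible_of_normalized_factor _ (mem_primeFactors.1 g.2))
    (h g (irreducible_of_normalized_factor _ (mem_primeFactors.1 g.2))
      ((Polynomial.mem_normalizedFactors_iff hf.ne_zero).1 (mem_primeFactors.1 g.2)).2.1)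
  let e : Module.AEval' a ≃ₗ[F[X]] Module.AEval' a' :=
    (LinearEquiv.ofBijective (DirectSum.coeLinearMap _) (xqkered_int a f hf ha)).symm ≪≫ₗ
      DirectSum.congrLinearEquiv (fun g => (hφ g).some) ≪≫ₗ
        LinearEquiv.ofBijective (DirectSum.coeLinearMap _) (xqkered_int a' f hf ha')
  refine ⟨Module.AEval'.of a ≪≫ₗ e.restrictScalars F ≪≫ₗ (Module.AEval'.of a').symm, fun v => ?_⟩
  simp only [LinearEquiv.trans_apply, LinearEquiv.restrictScalars_apply]
  rw [← Module.AEval'.X_smul_of, map_smul, Module.AEval'.of_symm_X_smul]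

theorem xqkered_sq {F : Type} [Field F] [CharP F 13] {N : ℕ} (hN : ¬ 13 ∣ N) :
    Squarefree (X ^ N - 1 : F[X]) :=
  (X_pow_sub_one_separable_iff.2 fun h => hN ((CharP.cast_eq_zero_iff F 13 N).1 h)).squarefree

end xqkered

theorem ker_ed {L : Type} [Field L] [IsAlgClosed L] [CharP L 13] {M : Type}
    [AddCommGroup M] [Module L M] [Module.Finite L M] (a a' : Module.End L M) (N : ℕ)
    (hN : ¬ 13 ∣ N) (ha : a ^ N = 1) (ha' : a' ^ N = 1) (h : ∀ c, edF a c = edF a' c)
    (g : Polynomial L) :
    Module.finrank L (LinearMap.ker (Polynomial.aeval a g)) =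
      Module.finrank L (LinearMap.ker (Polynomial.aeval a' g)) := by
  obtain ⟨e, he⟩ := xqkered_conj a a' _ (xqkered_sq hN) (by simp [ha]) (by simp [ha'])
    fun p hp hm => by
      have h1 := hm.eq_X_add_C (Polynomial.natDegree_eq_of_degree_eq_some
        (IsAlgClosed.degree_eq_one_of_irreducible L hp))
      have h2 : ∀ b : Module.End L M,
          LinearMap.ker (Polynomial.aeval b p) = b.eigenspace (-p.coeff 0) := fun b => by
        ext v
        rw [Module.End.mem_eigenspace_iff, LinearMap.mem_ker, h1]
        simp [add_eq_zero_iff_eq_neg]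
      rw [h2, h2]
      exact h _
  have h1 : ∀ v, e (Polynomial.aeval a g v) = Polynomial.aeval a' g (e v) := by
    induction g using Polynomial.induction_on with
    | C c => simp
    | add p q hp hq => simp [hp, hq]
    | monomial n c ih =>
      intro v
      rw [pow_succ, ← mul_assoc, map_mul, map_mul (Polynomial.aeval a'), Polynomial.aeval_X,
        Polynomial.aeval_X, Module.End.mul_apply, Module.End.mul_apply, ih, he]
  have h2 : Submodule.map (e : M →ₗ[L] M) (LinearMap.ker (Polynomial.aeval a g)) =
      LinearMap.ker (Polynomial.aeval a' g) := by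
    ext v
    obtain ⟨v, rfl⟩ := e.surjective v
    simp [← h1]
  rw [← h2, e.finrank_map_eq]

theorem conj_of_ker {V : Type} [AddCommGroup V] [Module K V] [Module.Finite K V] {V' : Type} [AddCommGroup V'] [Module K V'] [Module.Finite K V']
    (a : Module.End K V) (a' : Module.End K V') (N : ℕ) (hN : ¬ 13 ∣ N) (ha : a ^ N = 1)
    (ha' : a' ^ N = 1)
    (h : ∀ g : Polynomial K, Module.finrank K (LinearMap.ker (Polynomial.aeval a g)) =
      Module.finrank K (LinearMap.ker (Polynomial.aeval a' g))) :
    ∃ e : V ≃ₗ[K] V', ∀ v, e (a v) = a' (e v) := by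
  exact xqkered_conj a a' _ (xqkered_sq hN) (by simp [ha]) (by simp [ha']) fun g _ _ => h g

end Pool.Agent.N9181
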