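import Pool.Agent.MP_9181f8_al.Q.OCt
import Pool.Agent.MP_9181f8_al.N.BtEig

namespace Pool.Agent.N9181

open scoped commutatorElement

open Polynomial in
theorem root_lift (N : ℕ) (hN : ¬ 13 ∣ N) (c : Kp) (hc : c ^ N = 1) :
    ∃ ζ : Oo, ζ ^ N = 1 ∧ res ζ = c := by
  have hN0 : 0 < N := Nat.pos_of_ne_zero (by rintro rfl; exact hN (dvd_zero _))
  have hz := Complex.isPrimitiveRoot_exp N hN0.ne'
  generalize Complex.exp (2 * Real.pi * Complex.I / N) = z at hz
  have hm : (X ^ N - C 1 : Oo[X]).Monic := monic_X_pow_sub_C 1 hN0.ne'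
  have h0 : z ∈ Oo := mem_Oo_of_root _ hm z (by simp [hz.pow_eq_one])
  have hw : IsPrimitiveRoot (⟨z, h0⟩ : Oo) N :=
    IsPrimitiveRoot.of_map_of_injective (f := Oo.subtype) hz Subtype.val_injective
  generalize (⟨z, h0⟩ : Oo) = w at hw
  have h1 := congrArg (eval₂ res c) (X_pow_sub_C_eq_prod hw hN0 (one_pow N))
  rw [eval₂_sub, eval₂_X_pow, eval₂_C, map_one, hc, sub_self, eval₂_finsetProd] at h1
  obtain ⟨i, -, hi⟩ := Finset.prod_eq_zero_iff.1 h1.symm
  rw [eval₂_sub, eval₂_X, eval₂_C, mul_one, sub_eq_zero] at hi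
  exact ⟨w ^ i, by rw [← pow_mul, mul_comm, pow_mul, hw.pow_eq_one, one_pow], hi.symm⟩

theorem xqochar_core {M : Type} [AddCommGroup M] [Module Kp M] [Module.Finite Kp M]
    (a : Module.End Kp M) (N : ℕ) (hN : ¬ 13 ∣ N) (ha : a ^ N = 1) (x : ℕ → ℂ)
    (hx : ∀ k, IsCt (a ^ k) (x k)) {n : ℕ} (b : Module.Basis (Fin n) Kp M)
    (A : Matrix (Fin n) (Fin n) Oo) (hA : A ^ N = 1) (hAa : A.map res = LinearMap.toMatrix b b a)
    (u c : Oo) (hu : u * N = 1) (hc : c ^ N = 1) :
    (edF a (res c) : ℂ) = ∑ k ∈ Finset.range N, ((u * c ^ (N - k) : Oo) : ℂ) * x k := by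
  have hk : ∀ k, (A ^ k).map res = LinearMap.toMatrix b b (a ^ k) := by
    intro k
    rw [← LinearMap.toMatrix_pow, ← hAa]
    exact map_pow res.mapMatrix A k
  have ht : ∀ k, x k = (((A ^ k).trace : Oo) : ℂ) := fun k =>
    isCt_unique (a ^ k) _ _ (hx k) ⟨n, b, A ^ k, N, hN, by
      rw [← pow_mul, mul_comm, pow_mul, hA, one_pow], hk k, rfl⟩
  have hc' : res c ^ N = 1 := by rw [← map_pow, hc, map_one]
  have hu' : res u * (N : Kp) = 1 := by rw [← map_natCast res, ← map_mul, hu, map_one]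
  have h := oct_rank b (∑ k ∈ Finset.range N, res (u * c ^ (N - k)) • a ^ k)
    (∑ k ∈ Finset.range N, (u * c ^ (N - k)) • A ^ k) ?_ ?_
  · have hr : LinearMap.range (∑ k ∈ Finset.range N, res (u * c ^ (N - k)) • a ^ k) =
        a.eigenspace (res c) := by
      have h1 := xbteig_geom a (res c) N ha hc'
      simp only [map_mul, map_pow, mul_smul, ← Finset.smul_sum]
      ext v
      rw [Module.End.mem_eigenspace_iff, LinearMap.mem_range]
      constructor
      · rintro ⟨w, rfl⟩
        generalize ∑ k ∈ Finset.range N, res c ^ (N - k) • a ^ k = S at h1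
        have h2 : a (S w) = res c • S w := LinearMap.congr_fun h1 w
        rw [LinearMap.smul_apply, map_smul, h2, smul_comm]
      · intro hv
        have hk : ∀ k, (a ^ k) v = res c ^ k • v := by
          intro k
          induction k with
          | zero => simp
          | succ k ih =>
            rw [pow_succ', Module.End.mul_apply, ih, map_smul, hv, smul_smul, ← pow_succ]
        refine ⟨v, ?_⟩
        rw [LinearMap.smul_apply, LinearMap.sum_apply, Finset.sum_congr rfl (g := fun _ => v),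
          Finset.sum_const, Finset.card_range, ← Nat.cast_smul_eq_nsmul Kp, smul_smul, hu',
          one_smul]
        intro k hk'
        rw [LinearMap.smul_apply, hk, smul_smul, ← pow_add,
          Nat.sub_add_cancel (Finset.mem_range.1 hk').le, hc', one_smul]
    rw [edF, ← hr, ← h, Matrix.trace_sum]
    refine (map_sum Oo.subtype _ _).trans (Finset.sum_congr rfl fun k _ => ?_)
    rw [Matrix.trace_smul, smul_eq_mul, ht]
    rfl
  · have h1 := xbteig_geom A c N hA hc
    simp only [mul_smul, ← Finset.smul_sum]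
    generalize hS : ∑ k ∈ Finset.range N, c ^ (N - k) • A ^ k = S at h1
    have h2 : S * S = (N : Oo) • S := by
      nth_rewrite 1 [← hS]
      rw [Finset.sum_mul, Finset.sum_congr rfl (g := fun _ => S), Finset.sum_const,
        Finset.card_range, Nat.cast_smul_eq_nsmul]
      intro k hk
      rw [smul_mul_assoc, xbteig_pow A S c h1, smul_smul, ← pow_add,
        Nat.sub_add_cancel (Finset.mem_range.1 hk).le, hc, one_smul]
    rw [smul_mul_smul_comm, h2, smul_smul, mul_assoc, hu, mul_one]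
  · rw [map_sum]
    refine (map_sum res.mapMatrix _ _).trans (Finset.sum_congr rfl fun k _ => ?_)
    rw [(LinearMap.toMatrix b b).map_smul, ← hk]
    ext i j
    simp

theorem xqochar_zero {M : Type} [AddCommGroup M] [Module Kp M] (a : Module.End Kp M) (N : ℕ)
    (ha : a ^ N = 1) (c : Kp) (hc : c ^ N ≠ 1) : edF a c = 0 := by
  have : a.eigenspace c = ⊥ := by
    by_contra h
    have h1 : (a ^ N).HasEigenvalue (c ^ N) := Module.End.HasEigenvalue.pow h N
    obtain ⟨v, hv⟩ := h1.exists_hasEigenvector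
    have h2 := hv.apply_eq_smul
    rw [ha, Module.End.one_apply] at h2
    refine hc (smul_left_injective Kp hv.2 ?_)
    simpa using h2.symm
  rw [edF, this, finrank_bot]

theorem ochar {M : Type} [AddCommGroup M] [Module Kp M] [Module.Finite Kp M] (a a' : Module.End Kp M) (N : ℕ) (hN : ¬ 13 ∣ N) (ha : a ^ N = 1)
    (ha' : a' ^ N = 1) (x : ℕ → ℂ) (hx : ∀ k, IsCt (a ^ k) (x k))
    (hx' : ∀ k, IsCt (a' ^ k) (x k)) (c : Kp) : edF a c = edF a' c := by
  by_cases hc : c ^ N = 1
  swap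
  · rw [xqochar_zero a N ha c hc, xqochar_zero a' N ha' c hc]
  obtain ⟨z, hz, rfl⟩ := root_lift N hN c hc
  obtain ⟨n, b, A, N1, h1, hA, hAa, -⟩ := hx 1
  obtain ⟨n', b', A', N2, h2, hA', hAa', -⟩ := hx' 1
  rw [pow_one] at hAa hAa'
  have hp : Nat.Prime 13 := by norm_num
  have h3 : ¬ 13 ∣ N * (N1 * N2) := fun h =>
    (hp.dvd_mul.1 h).elim hN fun h => (hp.dvd_mul.1 h).elim h1 h2
  obtain ⟨u, hu⟩ := (unit_nat _ h3).exists_left_inv
  have hz' : z ^ (N * (N1 * N2)) = 1 := by rw [pow_mul, hz, one_pow]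
  have e1 := xqochar_core a _ h3 (by rw [pow_mul, ha, one_pow]) x hx b A
    (by rw [mul_left_comm, pow_mul, hA, one_pow]) hAa u z hu hz'
  have e2 := xqochar_core a' _ h3 (by rw [pow_mul, ha', one_pow]) x hx' b' A'
    (by rw [← mul_assoc, mul_comm, pow_mul, hA', one_pow]) hAa' u z hu hz'
  exact_mod_cast e1.trans e2.symm

end Pool.Agent.N9181
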