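import Pool.Agent.MP_9181f8_al.Q.QBasic

namespace Pool.Agent.N9181

open scoped commutatorElement

theorem det_unit {n : Type} [Fintype n] [DecidableEq n] (S : Matrix n n Oo) (h : S.map res = 1) : IsUnit S.det := by
  refine unit_of_res _ ?_
  rw [RingHom.map_det, RingHom.mapMatrix_apply, h, Matrix.det_one]
  exact one_ne_zero

theorem idem_zero {n : Type} [Fintype n] [DecidableEq n] (E : Matrix n n Oo) (hE : E * E = E) (h : E.map res = 0) : E = 0 := by
  have h1 : (1 - E).map res = 1 := by
    have := map_sub res.mapMatrix (1 : Matrix n n Oo) E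
    rw [map_one, RingHom.mapMatrix_apply, RingHom.mapMatrix_apply, h, sub_zero] at this
    exact this
  have h2 : IsUnit (1 - E) := (Matrix.isUnit_iff_isUnit_det _).2 (det_unit _ h1)
  exact h2.mul_left_eq_zero.1 (by rw [mul_sub, mul_one, hE, sub_self])

theorem xqoidem_lift {m n : Type} (B : Matrix m n Kp) : ∃ B0 : Matrix m n Oo, B0.map res = B := by
  choose F hF using fun i j => IsLocalRing.residue_surjective (R := Oo) (B i j)
  exact ⟨Matrix.of F, Matrix.ext hF⟩

theorem ofact {n : Type} [Fintype n] [DecidableEq n] {d : Type} [Fintype d] [DecidableEq d] (E : Matrix n n Oo)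
    (hE : E * E = E) (i0 : Matrix n d Kp) (p0 : Matrix d n Kp) (h1 : p0 * i0 = 1)
    (h2 : i0 * p0 = E.map res) :
    ∃ (i : Matrix n d Oo) (p : Matrix d n Oo), p * i = 1 ∧ i * p = E ∧ i.map res = i0 ∧
      p.map res = p0 := by
  obtain ⟨i', hi'⟩ := xqoidem_lift i0
  obtain ⟨p', hp'⟩ := xqoidem_lift p0
  have hi1 : (E * i').map res = i0 := by
    rw [Matrix.map_mul, hi', ← h2, Matrix.mul_assoc, h1, Matrix.mul_one]
  have hp1 : (p' * E).map res = p0 := by
    rw [Matrix.map_mul, hp', ← h2, ← Matrix.mul_assoc, h1, Matrix.one_mul]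
  have hS : (p' * E * (E * i')).map res = 1 := by
    rw [Matrix.map_mul, hi1, hp1, h1]
  have hT := Matrix.nonsing_inv_mul _ (det_unit _ hS)
  generalize (p' * E * (E * i'))⁻¹ = T at hT
  have hTm : T.map res = 1 := by
    have := congrArg (fun A => Matrix.map A res) hT
    simp only [Matrix.map_mul (L := T), hS, Matrix.mul_one] at this
    rw [this]
    exact Matrix.map_one _ (map_zero _) (map_one _)
  have hPI : T * (p' * E) * (E * i') = 1 := by
    rw [Matrix.mul_assoc]
    exact hT
  have hP : (T * (p' * E)).map res = p0 := by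
    rw [Matrix.map_mul, hTm, hp1, Matrix.one_mul]
  have hEI : E * (E * i') = E * i' := by
    rw [← Matrix.mul_assoc, hE]
  have hPE : T * (p' * E) * E = T * (p' * E) := by
    rw [Matrix.mul_assoc, Matrix.mul_assoc, hE]
  refine ⟨E * i', T * (p' * E), hPI, ?_, hi1, hP⟩
  generalize E * i' = I at hPI hEI hi1
  generalize T * (p' * E) = P at hPI hPE hP
  have e1 : E * (I * P) = I * P := by rw [← Matrix.mul_assoc, hEI]
  have e2 : I * P * E = I * P := by rw [Matrix.mul_assoc, hPE]
  have e3 : I * P * (I * P) = I * P := by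
    rw [Matrix.mul_assoc, ← Matrix.mul_assoc P, hPI, Matrix.one_mul]
  have hD : (E - I * P) * (E - I * P) = E - I * P := by
    rw [mul_sub, sub_mul, sub_mul, hE, e1, e2, e3]
    abel
  have h0 : (E - I * P).map res = 0 := by
    have : res.mapMatrix (E - I * P) = res.mapMatrix E - res.mapMatrix (I * P) := map_sub _ _ _
    rw [RingHom.mapMatrix_apply, RingHom.mapMatrix_apply, RingHom.mapMatrix_apply] at this
    rw [this, Matrix.map_mul, hi1, hP, h2, sub_self]
  exact (sub_eq_zero.mp (idem_zero _ hD h0)).symm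

open Polynomial in
theorem xqoidem_split (p : Oo[X]) (hp : p.Monic) :
    ∃ s : Multiset Oo, p = (s.map fun c => X - C c).prod := by
  have h1 : (p.map (algebraMap Oo ℂ)).Monic := hp.map _
  have h2 := (IsAlgClosed.splits (p.map (algebraMap Oo ℂ))).eq_prod_roots_of_monic h1
  have h3 : ∀ z ∈ (p.map (algebraMap Oo ℂ)).roots, z ∈ Oo := fun z hz =>
    mem_Oo_of_root p hp z (by rw [← eval_map_algebraMap]; exact isRoot_of_mem_roots hz)
  generalize (p.map (algebraMap Oo ℂ)).roots = t at h2 h3
  lift t to Multiset Oo using h3 with s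
  refine ⟨s, Polynomial.map_injective (algebraMap Oo ℂ) Subtype.val_injective ?_⟩
  rw [h2, Polynomial.map_multiset_prod, Multiset.map_map, Multiset.map_map]
  congr 2
  funext c
  simp

open Polynomial in
theorem xqoidem_cop (s t : Multiset Oo) (hs : ∀ a ∈ s, res a = 0) (ht : ∀ b ∈ t, res b ≠ 0) :
    IsCoprime (s.map fun c => X - C c).prod (t.map fun c => X - C c).prod := by
  refine Multiset.prod_induction (fun f => IsCoprime f _) _ (fun a b => IsCoprime.mul_left)
    isCoprime_one_left fun f hf => ?_
  obtain ⟨a, ha, rfl⟩ := Multiset.mem_map.1 hf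
  refine Multiset.prod_induction (fun g => IsCoprime _ g) _ (fun a b => IsCoprime.mul_right)
    isCoprime_one_right fun g hg => ?_
  obtain ⟨b, hb, rfl⟩ := Multiset.mem_map.1 hg
  refine isCoprime_X_sub_C_of_isUnit_sub (unit_of_res _ ?_)
  rw [map_sub, hs a ha, zero_sub, neg_ne_zero]
  exact ht b hb

open Polynomial in
theorem xqoidem_poly (p : Oo[X]) (hp : p.Monic) :
    ∃ w q : Oo[X], (X + X * (X - 1) * w) * (1 - (X + X * (X - 1) * w)) = q * p := by
  classical
  obtain ⟨s, rfl⟩ := xqoidem_split p hp
  obtain ⟨u, v, huv⟩ := xqoidem_cop (0 ::ₘ s.filter fun c => res c = 0)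
    (1 ::ₘ s.filter fun c => ¬ res c = 0)
    (fun a ha => by
      rcases Multiset.mem_cons.1 ha with rfl | ha
      · exact map_zero _
      · exact (Multiset.mem_filter.1 ha).2)
    (fun a ha => by
      rcases Multiset.mem_cons.1 ha with rfl | ha
      · rw [map_one]
        exact one_ne_zero
      · exact (Multiset.mem_filter.1 ha).2)
  have h1 : (s.map fun c => X - C c).prod =
      ((s.filter fun c => res c = 0).map fun c => X - C c).prod *
        ((s.filter fun c => ¬ res c = 0).map fun c => X - C c).prod := by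
    rw [← Multiset.prod_add, ← Multiset.map_add, Multiset.filter_add_not]
  rw [h1]
  simp only [Multiset.map_cons, Multiset.prod_cons, map_zero, sub_zero, map_one] at huv
  generalize ((s.filter fun c => res c = 0).map fun c => X - C c).prod = A at huv
  generalize ((s.filter fun c => ¬ res c = 0).map fun c => X - C c).prod = B at huv
  have e : X + X * (X - 1) * (-(u * A) - v * B) = u * (X * A) := by
    linear_combination (-X) * huv
  refine ⟨-(u * A) - v * B, u * v * X * (X - 1), ?_⟩
  rw [e]
  linear_combination (-(u * (X * A))) * huv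

theorem oidem {n : Type} [Fintype n] [DecidableEq n] (x : Matrix n n Oo) (h : x.map res * x.map res = x.map res) :
    ∃ E : Matrix n n Oo, E * E = E ∧ E.map res = x.map res ∧
      ∀ y : Matrix n n Oo, y * x = x * y → y * E = E * y := by
  obtain ⟨w, q, hw⟩ := xqoidem_poly x.charpoly x.charpoly_monic
  have h1 := congrArg (Polynomial.aeval x) hw
  rw [map_mul, map_mul (Polynomial.aeval x) q, Matrix.aeval_self_charpoly, mul_zero, map_sub,
    map_one, mul_sub, mul_one, sub_eq_zero] at h1
  refine ⟨_, h1.symm, ?_, fun y hy => ?_⟩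
  · have h2 : res.mapMatrix x * (res.mapMatrix x - 1) = 0 := by
      rw [mul_sub, mul_one, RingHom.mapMatrix_apply, h, sub_self]
    rw [← RingHom.mapMatrix_apply, ← RingHom.mapMatrix_apply]
    simp only [map_add, map_mul, map_sub, map_one, Polynomial.aeval_X]
    rw [h2, zero_mul, add_zero]
  · exact (Algebra.commute_of_mem_adjoin_singleton_of_commute
      (Polynomial.aeval_mem_adjoin_singleton Oo x) hy).eq

end Pool.Agent.N9181
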