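import Pool.Agent.MP_9181f8_al.Q.OIdem

namespace Pool.Agent.N9181

open scoped commutatorElement

section

variable {L : Type} [Group L] [Fintype L] [DecidableEq L] {d : Type} [Fintype d] [DecidableEq d]

/-- the regular representation with multiplicity -/
def xqoliftP (d : Type) [DecidableEq d] (R : Type) [CommRing R] (h : L) : Matrix (L × d) (L × d) R :=
  Matrix.of fun a b => if a = (h * b.1, b.2) then 1 else 0

theorem xqolift_mulP {R : Type} [CommRing R] {m : Type} (X : Matrix m (L × d) R) (h : L) (a : m)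
    (b : L × d) : (X * xqoliftP d R h : Matrix m (L × d) R) a b = X a (h * b.1, b.2) := by
  simp [Matrix.mul_apply, xqoliftP]

theorem xqolift_Pmul {R : Type} [CommRing R] {m : Type} (X : Matrix (L × d) m R) (h : L)
    (a : L × d) (b : m) : (xqoliftP d R h * X : Matrix (L × d) m R) a b = X (h⁻¹ * a.1, a.2) b := by
  rw [Matrix.mul_apply, Finset.sum_eq_single (h⁻¹ * a.1, a.2)]
  · simp [xqoliftP]
  · intro c _ hc
    rw [xqoliftP, Matrix.of_apply, if_neg, zero_mul]
    rintro rfl
    exact hc (by simp)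
  · simp

omit [Fintype L] [Fintype d] in
theorem xqolift_one {R : Type} [CommRing R] :
    (xqoliftP d R (1 : L) : Matrix (L × d) (L × d) R) = 1 := by
  ext a b
  simp [xqoliftP, Matrix.one_apply]

theorem xqolift_mul {R : Type} [CommRing R] (g h : L) :
    (xqoliftP d R (g * h) : Matrix (L × d) (L × d) R) = xqoliftP d R g * xqoliftP d R h := by
  ext a b
  rw [xqolift_mulP]
  simp [xqoliftP, mul_assoc]

omit [Fintype L] [Fintype d] in
theorem xqolift_map (h : L) :
    (xqoliftP d Oo h : Matrix (L × d) (L × d) Oo).map res = xqoliftP d Kp h := by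
  ext a b
  simp only [xqoliftP, Matrix.map_apply, Matrix.of_apply]
  split_ifs <;> simp

theorem xqolift_aux (h13 : ¬ 13 ∣ Nat.card L) (s : L →* Matrix d d Kp) :
    ∃ A : L →* Matrix d d Oo, ∀ l, (A l).map res = s l := by
  obtain ⟨u, hu⟩ := (unit_nat _ h13).exists_left_inv
  have hu' : res u * (Fintype.card L : Kp) = 1 := by
    have := congrArg res hu
    rwa [map_mul, map_natCast, map_one, Nat.card_eq_fintype_card] at this
  choose t ht using fun l k k' => IsLocalRing.residue_surjective (R := Oo) (s l k k')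
  let x : Matrix (L × d) (L × d) Oo := Matrix.of fun a b => u * t (a.1⁻¹ * b.1) a.2 b.2
  let i0 : Matrix (L × d) d Kp := Matrix.of fun a k => res u * s a.1⁻¹ a.2 k
  let p0 : Matrix d (L × d) Kp := Matrix.of fun k b => s b.1 k b.2
  have h3 : ∀ h : L, p0 * xqoliftP d Kp h * i0 = s h := by
    intro h
    ext k k'
    rw [Matrix.mul_apply, Fintype.sum_prod_type]
    have : ∀ g : L, ∑ j : d, (p0 * xqoliftP d Kp h : Matrix d (L × d) Kp) k (g, j) * i0 (g, j) k'
        = res u * s h k k' := by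
      intro g
      have e : s h = s (h * g) * s g⁻¹ := by rw [← map_mul, mul_inv_cancel_right]
      rw [e, Matrix.mul_apply, Finset.mul_sum]
      refine Finset.sum_congr rfl fun j _ => ?_
      rw [xqolift_mulP]
      simp only [p0, i0, Matrix.of_apply]
      ring
    rw [Finset.sum_congr rfl fun g _ => this g, Finset.sum_const, Finset.card_univ, nsmul_eq_mul,
      ← mul_assoc, mul_comm (Fintype.card L : Kp), hu', one_mul]
  have h1 : p0 * i0 = 1 := by
    have := h3 1
    rwa [xqolift_one, Matrix.mul_one, map_one] at this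
  have h2 : i0 * p0 = x.map res := by
    ext a b
    simp only [Matrix.mul_apply, Matrix.map_apply, x, i0, p0, Matrix.of_apply, map_mul, ht,
      Finset.mul_sum, mul_assoc]
  obtain ⟨E, hE, hE1, hE2⟩ := oidem x (by
    rw [← h2, Matrix.mul_assoc, ← Matrix.mul_assoc p0, h1, Matrix.one_mul])
  obtain ⟨i, p, e1, e2, e3, e4⟩ := ofact E hE i0 p0 h1 (h2.trans hE1.symm)
  have hc : ∀ h : L, xqoliftP d Oo h * E = E * xqoliftP d Oo h := by
    intro h
    refine hE2 _ ?_
    ext a b
    rw [xqolift_mulP, xqolift_Pmul]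
    simp [x, mul_assoc]
  have hp : p * E = p := by rw [← e2, ← Matrix.mul_assoc, e1, Matrix.one_mul]
  refine ⟨⟨⟨fun h => p * xqoliftP d Oo h * i, ?_⟩, ?_⟩, ?_⟩
  · rw [xqolift_one, Matrix.mul_one, e1]
  · intro g h
    calc p * xqoliftP d Oo (g * h) * i = p * E * xqoliftP d Oo g * xqoliftP d Oo h * i := by
          rw [hp, xqolift_mul, ← Matrix.mul_assoc]
      _ = p * (xqoliftP d Oo g * E) * xqoliftP d Oo h * i := by
          rw [hc, ← Matrix.mul_assoc]
      _ = _ := by
          rw [← e2]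
          simp only [Matrix.mul_assoc]
  · intro h
    change (p * xqoliftP d Oo h * i).map res = s h
    rw [Matrix.map_mul, Matrix.map_mul, e3, e4, xqolift_map, h3]

end

theorem olift {M : Type} [AddCommGroup M] [Module Kp M] [Module.Finite Kp M] {L : Type} [Group L] [Finite L] (h13 : ¬ 13 ∣ Nat.card L)
    (σ : Representation Kp L M) {n : ℕ} (b : Module.Basis (Fin n) Kp M) :
    ∃ A : L →* Matrix (Fin n) (Fin n) Oo, ∀ l, (A l).map res = LinearMap.toMatrix b b (σ l) := by
  classical
  have := Fintype.ofFinite L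
  exact xqolift_aux h13 ((LinearMap.toMatrixAlgEquiv b).toAlgHom.toMonoidHom.comp σ)

theorem xqolift_scale {n : ℕ} (w : Fin n → ℂ) (hw : w ≠ 0) :
    ∃ (c : ℂ) (w' : Fin n → Oo) (k : Fin n), (fun j => (w' j : ℂ)) = c • w ∧ w' k = 1 := by
  obtain ⟨k1, hk1⟩ := Function.ne_iff.1 hw
  obtain ⟨k, -, hk⟩ := Finset.exists_max_image Finset.univ (fun j => Oo.valuation (w j))
    ⟨k1, Finset.mem_univ _⟩
  have h0 : w k ≠ 0 := by
    intro h
    have := hk k1 (Finset.mem_univ _)
    rw [h, map_zero, le_zero_iff, map_eq_zero] at this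
    exact hk1 this
  have hm : ∀ j, (w k)⁻¹ * w j ∈ Oo := by
    intro j
    rw [← Oo.valuation_le_one_iff, map_mul, map_inv₀]
    have h1 : 0 < Oo.valuation (w k) := zero_lt_iff.2 (by rwa [Ne, map_eq_zero])
    rw [inv_mul_le_iff₀ h1, mul_one]
    exact hk j (Finset.mem_univ _)
  exact ⟨(w k)⁻¹, fun j => ⟨_, hm j⟩, k, rfl, Subtype.ext (inv_mul_cancel₀ h0)⟩

theorem oirr {M : Type} [AddCommGroup M] [Module Kp M] [Module.Finite Kp M] {L : Type} [Group L] (σ : Representation Kp L M) (hσ : IrrF σ)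
    {n : ℕ} (b : Module.Basis (Fin n) Kp M) (A : L →* Matrix (Fin n) (Fin n) Oo)
    (hA : ∀ l, (A l).map res = LinearMap.toMatrix b b (σ l)) (W : Submodule ℂ (Fin n → ℂ))
    (hW : ∀ l, ∀ w ∈ W, ((A l).map Oo.subtype).mulVec w ∈ W) : W = ⊥ ∨ W = ⊤ := by
  classical
  let W0 : Submodule Kp M :=
    { carrier := {v | ∃ w : Fin n → Oo, (fun j => (w j : ℂ)) ∈ W ∧ ∀ k, b.repr v k = res (w k)}
      zero_mem' := ⟨0, W.zero_mem, fun k => by simp⟩
      add_mem' := by
        rintro v v' ⟨w, h1, h2⟩ ⟨w', h1', h2'⟩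
        exact ⟨w + w', W.add_mem h1 h1', fun k => by simp [h2, h2']⟩
      smul_mem' := by
        rintro c v ⟨w, h1, h2⟩
        obtain ⟨c', rfl⟩ := IsLocalRing.residue_surjective (R := Oo) c
        exact ⟨c' • w, W.smul_mem (c' : ℂ) h1, fun k => by simp [h2]⟩ }
  have hinv : ∀ l, ∀ v ∈ W0, σ l v ∈ W0 := by
    rintro l v ⟨w, h1, h2⟩
    refine ⟨(A l).mulVec w, ?_, fun k => ?_⟩
    · have e : (fun j => (((A l).mulVec w j : Oo) : ℂ))
          = ((A l).map Oo.subtype).mulVec fun j => (w j : ℂ) :=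
        funext fun j => RingHom.map_mulVec Oo.subtype (A l) w j
      rw [e]
      exact hW l _ h1
    · rw [RingHom.map_mulVec, hA, ← LinearMap.toMatrix_mulVec_repr b b (σ l) v]
      congr 2
      exact funext h2
  by_cases hb : W = ⊥
  · exact Or.inl hb
  right
  obtain ⟨w, hw, hw0⟩ := (Submodule.ne_bot_iff W).1 hb
  obtain ⟨c, w', k, e1, e2⟩ := xqolift_scale w hw0
  have hm : b.equivFun.symm (fun j => res (w' j)) ∈ W0 := by
    refine ⟨w', e1 ▸ W.smul_mem c hw, fun j => ?_⟩
    rw [← Module.Basis.equivFun_apply, LinearEquiv.apply_symm_apply]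
  rcases hσ.2 W0 hinv with h0 | h0
  · exfalso
    rw [h0, Submodule.mem_bot, LinearEquiv.map_eq_zero_iff] at hm
    have := congrFun hm k
    rw [e2, map_one] at this
    exact one_ne_zero this
  have hk : ∀ k, b k ∈ W0 := fun k => h0 ▸ Submodule.mem_top
  choose z hz1 hz2 using hk
  let S : Matrix (Fin n) (Fin n) Oo := Matrix.of fun j k => z k j
  have hS : S.map res = 1 := by
    ext j k
    change res (z k j) = _
    rw [← hz2, b.repr_self, Finsupp.single_apply, Matrix.one_apply]
    simp [eq_comm]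
  have hd : IsUnit (S.map Oo.subtype).det := by
    have := (det_unit S hS).map Oo.subtype
    rwa [RingHom.map_det] at this
  rw [eq_top_iff]
  intro y _
  have e : y = ∑ k, ((S.map Oo.subtype)⁻¹.mulVec y k) • fun j => (z k j : ℂ) := by
    conv_lhs => rw [← Matrix.one_mulVec y, ← Matrix.mul_nonsing_inv _ hd, ← Matrix.mulVec_mulVec]
    ext j
    rw [Finset.sum_apply, Matrix.mulVec, dotProduct]
    refine Finset.sum_congr rfl fun k _ => ?_
    simp [S, mul_comm]
  rw [e]
  exact W.sum_mem fun k _ => W.smul_mem _ (hz1 k)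

end Pool.Agent.N9181
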