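import Pool.Agent.MP_9181f8_al.Q.QBasic
import Pool.Agent.MP_9181f8_al.N.ModB
import Pool.Agent.MP_9181f8_al.N.Fpf

namespace Pool.Agent.N9181

open scoped commutatorElement

theorem ep_of_sq {V : Type} [AddCommGroup V] [Module K V] [Module.Finite K V]
    {G : Type} [Group G] [Finite G] (ρ : Representation K G V) (ι : V → G) (hι : Emb ρ ι) (N : ℕ) (hd : Nat.card G ∣ N) (hN : 0 < N)
    (hsq : ∀ (x : G) (j : ℕ), j.Coprime N → IsConj x (x ^ (j * j))) : HEP ρ 3 := by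
  intro v
  obtain ⟨h0, h1, h2, _⟩ := emb_basic ρ ι hι
  by_cases hv : v = 0
  · exact ⟨1, by rw [hv, map_zero, smul_zero]⟩
  have hne : ι v ≠ 1 := fun h => hv (hι.inj (h.trans h0.symm))
  have hord : orderOf (ι v) = 13 := orderOf_eq_prime (h2 v) hne
  have hdiv : 13 ∣ N := by
    have h := orderOf_dvd_natCard (ι v)
    rw [hord] at h
    exact h.trans hd
  obtain ⟨j, hj, hj4⟩ := exists_j 13 N 4 hdiv hN (by norm_num)
  have hconj := hsq (ι v) j hj
  obtain ⟨c, hc⟩ := isConj_iff.1 hconj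
  refine ⟨c, hι.inj ?_⟩
  have hj' : (j : K) = ((4 : ℕ) : K) := (ZMod.natCast_eq_natCast_iff j 4 13).2 hj4
  have h3 : ((j * j : ℕ) : K) = 3 := by
    rw [Nat.cast_mul, hj']
    decide
  rw [hι.act, hc, ← h1, h3]

theorem jordanQ {V : Type} [AddCommGroup V] [Module K V] [Module.Finite K V]
    {G : Type} [Group G] [Finite G] (ρ : Representation K G V) (ι : V → G) (hι : Emb ρ ι) (N : ℕ) (hP : AP G N) (Y : Subgroup G)
    (hY1 : ∀ v, ι v ∈ Y → v = 0) (hY2 : ∀ g : G, ∃ v, ∃ h ∈ Y, g = ι v * h) (u : G)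
    (huY : u ∈ Y) (a : ℕ) (hu : u ^ (13 ^ a) = 1) (hne : (ρ u - 1) ^ 2 ≠ 0) :
    ∃ (t : G) (b j : ℕ), t ^ (3 ^ b) = 1 ∧ j ≡ 3 [MOD 13] ∧ t * u * t⁻¹ = u ^ j ∧
      ∃ v, v ≠ 0 ∧ ρ t v = v := by
  have h0 : ι 0 = 1 := (emb_basic ρ ι hι).1
  have hneg : ∀ v, ι (-v) = (ι v)⁻¹ := fun v => by
    rw [eq_inv_iff_mul_eq_one, ← hι.add, neg_add_cancel, h0]
  have : Nontrivial (Module.End K V) := ⟨⟨_, _, hne⟩⟩
  have : CharP (Module.End K V) 13 :=
    charP_of_injective_algebraMap (algebraMap K (Module.End K V)).injective 13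
  have hnil : (ρ u - 1) ^ (13 ^ a) = 0 := by
    rw [sub_pow_char_pow_of_commute 13 a (Commute.one_right _), ← map_pow, hu, map_one, one_pow,
      sub_self]
  have hu1 : u ≠ 1 := by
    rintro rfl
    apply hne
    simp
  have h13 : 13 ∣ N := by
    have h1 : orderOf u ∣ 13 ^ a := orderOf_dvd_of_pow_eq_one hu
    obtain ⟨c, -, hc⟩ := (Nat.dvd_prime_pow fact13.out).mp h1
    have hc0 : c ≠ 0 := by
      rintro rfl
      exact hu1 (orderOf_eq_one_iff.mp (by simpa using hc))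
    exact ((hc ▸ dvd_pow_self 13 hc0 : 13 ∣ orderOf u).trans (orderOf_dvd_natCard u)).trans (ap_self N hP).dvd
  obtain ⟨v, hv⟩ := xmodb_ex (ρ u - 1) _ hnil hne
  obtain ⟨j0, hj0, hj4⟩ := exists_j 13 N 4 h13 (ap_self N hP).pos (by norm_num)
  have hj3 : j0 * j0 ≡ 3 [MOD 13] := (hj4.mul hj4).trans (by decide)
  obtain ⟨g, hg⟩ := isConj_iff.mp ((ap_self N hP).sq (ι v * u) j0 hj0)
  generalize j0 * j0 = j at hj3 hg
  obtain ⟨v1, h, hhY, rfl⟩ := hY2 g
  rw [xmodb_xpow ρ ι hι] at hg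
  have hu' : h * u * h⁻¹ ∈ Y := Y.mul_mem (Y.mul_mem hhY huY) (Y.inv_mem hhY)
  have e1 : ι (-((∑ i ∈ Finset.range j, (ρ u) ^ i) v) + (v1 + ρ h v + -(ρ (h * u * h⁻¹) v1)))
      = u ^ j * (h * u * h⁻¹)⁻¹ := by
    rw [hι.add, hι.add, hι.add, hneg, hneg, hι.act, hι.act, inv_mul_eq_iff_eq_mul,
      ← mul_assoc (ι ((∑ i ∈ Finset.range j, (ρ u) ^ i) v)), ← hg]
    group
  have e2 := hY1 _ (e1 ▸ Y.mul_mem (Y.pow_mem huY j) (Y.inv_mem hu'))
  rw [e2, h0, eq_comm, mul_inv_eq_one] at e1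
  have hc : ∀ (t : G) (i : ℕ), t * u * t⁻¹ = u ^ i → ρ t * ρ u = ρ u ^ i * ρ t := by
    intro t i ht
    rw [← map_pow, ← ht, ← map_mul, ← map_mul, inv_mul_cancel_right]
  obtain ⟨y1, hy1⟩ := xmodb_sum (ρ u) j v
  have hB : ρ h v = (j : K) • v + (ρ u - 1) (y1 + (∑ i ∈ Finset.range j, (ρ u) ^ i) v1) := by
    have e3 : (ρ u - 1) ((∑ i ∈ Finset.range j, (ρ u) ^ i) v1) = (ρ u ^ j) v1 - v1 := by
      rw [← Module.End.mul_apply, ← xmodb_geom]; simp
    rw [← e1, map_pow, hy1] at e2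
    rw [map_add, e3, ← sub_eq_zero, ← e2]
    abel
  obtain ⟨b, r, hr, hbr⟩ := Nat.exists_eq_pow_mul_and_not_dvd (orderOf_pos h).ne' 3 (by norm_num)
  obtain ⟨q, hq⟩ : ∃ q, r * r = 3 * q + 1 := by
    refine ⟨r * r / 3, ?_⟩
    have : r % 3 = 1 ∨ r % 3 = 2 := by omega
    have h2 : r * r % 3 = 1 := by
      rcases this with h | h <;> simp [Nat.mul_mod, h]
    omega
  have hje : j ^ (r * r) ≡ 3 [MOD 13] := by
    refine (hj3.pow _).trans ?_
    rw [hq, pow_succ, pow_mul]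
    have : (3 ^ 3) ^ q ≡ 1 ^ q [MOD 13] := Nat.ModEq.pow q (by decide)
    simpa using this.mul_right 3
  have ht := xmodb_powG h u j e1.symm (r * r)
  refine ⟨h ^ (r * r), b, j ^ (r * r), ?_, hje, ht, ?_⟩
  · rw [← pow_mul, ← orderOf_dvd_iff_pow_eq_one, hbr]
    exact ⟨r, by ring⟩
  · obtain ⟨y, hy⟩ := xmodb_powB (ρ u) (ρ h) j (hc h j e1.symm) v _ hB (r * r)
    rw [← map_pow] at hy
    refine xmodb_fix (ρ u) (ρ (h ^ (r * r))) (j ^ (r * r)) ?_ (hc _ _ ht) v hv y hy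
    have := (ZMod.natCast_eq_natCast_iff _ _ _).mpr hje
    simpa using this

theorem exp13Q {G : Type} [Group G] [Finite G] (N : ℕ) (hP : AP G N) (Q : Subgroup G) (hQ : Q.Normal)
    (hQp : IsPGroup 13 Q) (hQi : ¬ 13 ∣ Q.index) (z : G) (hz : z ^ 3 = 1)
    (hf : ∀ x ∈ Q, x * z = z * x → x = 1) : ∀ x ∈ Q, x ^ 13 = 1 := by
  have main : ∀ x ∈ Q, x ^ 169 = 1 → x ^ 13 = 1 := by
    intro x hx h169
    by_contra h13
    obtain ⟨y, hy, y169, y13, a, ha⟩ := xfpf_eig Q hQ z hz hf x hx h169 h13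
    have ho : orderOf y = 13 ^ 2 :=
      orderOf_eq_prime_pow (p := 13) (n := 1) (by simpa using y13) (by simpa using y169)
    have hG : 169 ∣ Nat.card G := by
      have := orderOf_dvd_natCard y
      rwa [ho] at this
    obtain ⟨j, hj, hj14⟩ := exists_j 169 N 14 (hG.trans (ap_self N hP).dvd) (ap_self N hP).pos (by decide)
    obtain ⟨g, hg⟩ := isConj_iff.1 ((ap_self N hP).sq y j hj)
    have hg27 : g * y * g⁻¹ = y ^ 27 := by
      rw [hg]
      exact xfpf_mod y y169 _ _ ((hj14.mul hj14).trans (by decide))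
    obtain ⟨e, b, hb, he, -⟩ := p_part 13 (by norm_num) g
    have he1 : e ≡ 1 [MOD 13] := by
      have := he 1 (by rw [pow_one]; exact Dvd.dvd.trans (by decide) hG)
      rwa [pow_one] at this
    have hqQ : g ^ e ∈ Q := xfpf_mem Q hQ hQi _ b hb
    have hq : g ^ e * y * (g ^ e)⁻¹ = y ^ 27 := by
      rw [xfpf_pow y g 27 hg27 e]
      apply xfpf_mod y y169
      have h1 : e = 13 * (e / 13) + 1 := by
        have := Nat.div_add_mod e 13
        have h2 : e % 13 = 1 := he1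
        omega
      rw [h1, pow_succ, pow_mul]
      have h3 : 27 ^ 13 ≡ 1 [MOD 169] := by decide
      have h4 := (h3.pow (e / 13)).mul_right 27
      simpa using h4
    have h3 := xfpf_pow y _ _ (xfpf_mul y _ _ _ _ hq ha) 3
    rw [(fpf_norm Q hQ z hz hf _ hqQ).1] at h3
    have h4 := xfpf_pow y _ _ ha 3
    rw [hz] at h4
    simp only [one_mul, inv_one, mul_one] at h3 h4
    have h5 : y ^ ((27 * a) ^ 3) = y ^ 79 := by
      rw [mul_pow, mul_comm, pow_mul, ← h4]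
      exact xfpf_mod y y169 _ _ (by decide)
    rw [h5] at h3
    have h6 : y ^ 78 = 1 := by
      have : y ^ 78 * y = 1 * y := by rw [← pow_succ, one_mul]; exact h3.symm
      exact mul_right_cancel this
    apply y13
    have h7 : y ^ 169 = y ^ 13 * (y ^ 78) ^ 2 := by rw [← pow_mul, ← pow_add]
    rw [h6, one_pow, mul_one, y169] at h7
    exact h7.symm
  have ind : ∀ k : ℕ, ∀ x ∈ Q, x ^ (13 ^ k) = 1 → x ^ 13 = 1 := by
    intro k
    induction k with
    | zero =>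
      intro x _ h
      rw [pow_zero, pow_one] at h
      rw [h, one_pow]
    | succ k ih =>
      intro x hx h
      apply main x hx
      have h1 := ih (x ^ 13) (Q.pow_mem hx _) (by rw [← pow_mul, ← pow_succ']; exact h)
      rw [← pow_mul] at h1
      exact h1
  intro x hx
  obtain ⟨k, hk⟩ := hQp ⟨x, hx⟩
  exact ind k x hx (congrArg Subtype.val hk)

end Pool.Agent.N9181
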