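import Pool.Agent.MP_9181f8_al.Q.QRm
import Pool.Agent.MP_9181f8_al.Q.TModB
import Pool.Agent.MP_9181f8_al.N.CopM

namespace Pool.Agent.N9181

open scoped commutatorElement

theorem xqqap_cm {V : Type} [AddCommGroup V] [Module K V] [Module.Finite K V]
    {G : Type} [Group G] [Finite G] [Group.IsSolvable G] (ρ : Representation K G V) (ι : V → G)
    (hι : Emb ρ ι) (N : ℕ) (hP : QP G N) (hirr : Irr ρ) (h13 : T13 ρ) :
    Scal ρ ∧ ∃ v, Reg ρ v := by
  have hR : HReal ρ := fun h v hv hh M => by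
    obtain ⟨c, h1, h2, h3⟩ := xcopm_part ρ h13 h
    obtain ⟨k, rfl⟩ := Nat.exists_eq_add_one_of_ne_zero hP.2.1.ne'
    have h4 : c ^ k = c⁻¹ := by
      rw [eq_inv_iff_mul_eq_one, ← pow_succ]
      exact orderOf_dvd_iff_pow_eq_one.1 ((orderOf_dvd_natCard c).trans hP.1)
    have h5 : IsConj c (c ^ k) := by
      by_contra hn
      exact hv (qp_rm1 ρ ι hι hirr _ hP h13 c h1 ⟨k, by simp, hn⟩ v (by rw [h2, hh]))
    rw [← h2, ← h3, ← h4]
    exact bt_isConj ρ _ _ h5 M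
  obtain ⟨m, hm, hU⟩ := qp_U1 ρ hirr N hP h13
  obtain ⟨H, _, _, π, σ, hs, -, he, hd, hc⟩ := exists_faithful ρ
  have : Group.IsSolvable H := Group.isSolvable_of_surjective hs
  have hU' : HU σ N m := by
    intro h' j hj M
    obtain ⟨h, rfl⟩ := hs h'
    obtain ⟨e, h1, -, h2, -⟩ := q_part 13 fact13.out h
    rw [← h2 H π (Nat.card H) (hc h13) pow_card_eq_one']
    generalize h ^ e = h0 at h1
    rw [← map_pow, ← map_pow, ← map_pow, he, he, he, he]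
    exact hU h0 h1 j hj M
  obtain ⟨⟨z, hz⟩, v, hv, hv'⟩ := thmM (hc h13) σ
    ⟨hirr.1, fun W hW => hirr.2 W fun h w hw => he h ▸ hW (π h) w hw⟩ N m
    ⟨hd.trans hP.1, hP.2.1, hm⟩ hU'
    (fun h v hv hh M => by
      obtain ⟨g, rfl⟩ := hs h
      rw [← map_inv, he, he]
      exact hR g v hv (he g ▸ hh) M)
    (fun v => by
      obtain ⟨g, hg⟩ := ep_of_sq ρ ι hι N hP.1 hP.2.1 (qp_sq N hP) v
      exact ⟨π g, by rw [he, hg]⟩)
  obtain ⟨g, rfl⟩ := hs z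
  refine ⟨⟨g, fun w => by rw [← he, hz]⟩, v, hv, fun h a h1 h2 => ?_⟩
  rw [← he] at h1 h2 ⊢
  exact hv' _ a h1 h2

theorem ap_of_qp {G : Type} [Group G] [Finite G] [Group.IsSolvable G] (N : ℕ) (hP : QP G N) : AP G N := by
  intro G' _ _ f hf
  have : Group.IsSolvable G' := Group.isSolvable_of_surjective hf
  have hP' := qp_surj f hf N hP
  exact ⟨hP'.1, hP'.2.1, qp_sq N hP',
    fun V _ _ _ ρ ι hι hirr h13 c hc hn => qp_rm1 ρ ι hι hirr N hP' h13 c hc hn,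
    fun V _ _ _ ρ ι hι hirr B R Q z hB hD t a ht hf hn =>
      qp_rm2 ρ ι hι hirr N hP' B R Q z hB hD t a ht hf hn,
    fun V _ _ _ ρ ι hι hirr h13 => xqqap_cm ρ ι hι N hP' hirr h13⟩

end Pool.Agent.N9181
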