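import Pool.Agent.MP_9181f8_al.Q.Defs

namespace Pool.Agent.N9181

open scoped commutatorElement

theorem ap_self {G : Type} [Group G] [Finite G] (N : ℕ) (h : AP G N) : AP0 G N :=
  h G (MonoidHom.id G) Function.surjective_id

theorem ap_surj {G : Type} [Group G] {G' : Type} [Group G'] (f : G →* G')
    (hf : Function.Surjective f) (N : ℕ) (h : AP G N) : AP G' N :=
  fun G'' _ _ g hg => h G'' (g.comp f) (hg.comp hf)

theorem gev_single {F : Type} [CommRing F] (f : Oo →+* F) {S : Type} [Ring S] [Algebra F S]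
    {R : Type} [Group R] (τ : R →* S) (r : R) (c : Oo) :
    gev f τ (MonoidAlgebra.single r c) = f c • τ r := by
  rw [gev, MonoidAlgebra.liftNCRingHom_single, Algebra.smul_def]
  rfl

theorem gev_of {F : Type} [CommRing F] (f : Oo →+* F) {S : Type} [Ring S] [Algebra F S]
    {R : Type} [Group R] (τ : R →* S) (r : R) : gev f τ (MonoidAlgebra.of Oo R r) = τ r := by
  rw [MonoidAlgebra.of_apply, gev_single, map_one, one_smul]

theorem cj_single {G : Type} [Group G] (R : Subgroup G) [R.Normal] (g : G) (r : R) (c : Oo) :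
    cj R g (MonoidAlgebra.single r c) = MonoidAlgebra.single (MulAut.conjNormal g r) c := by
  simp [cj]

theorem gev_ind {R : Type} [Group R] (p : MonoidAlgebra Oo R → Prop) (h0 : p 0)
    (hadd : ∀ x y, p x → p y → p (x + y)) (hs : ∀ r c, p (MonoidAlgebra.single r c))
    (x : MonoidAlgebra Oo R) : p x := by
  induction x using MonoidAlgebra.induction_linear with
  | zero => exact h0
  | add x y hx hy => exact hadd x y hx hy
  | single r c => exact hs r c

/-- conjugation formula -/
theorem gev_cj {F : Type} [CommRing F] (f : Oo →+* F) {S : Type} [Ring S] [Algebra F S]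
    {G : Type} [Group G] (R : Subgroup G) [R.Normal] (τ τ' : R →* S) (g : G) (s : S)
    (h : ∀ r : R, s * τ r = τ' (MulAut.conjNormal g r) * s) (x : MonoidAlgebra Oo R) :
    s * gev f τ x = gev f τ' (cj R g x) * s := by
  refine gev_ind (fun x => s * gev f τ x = gev f τ' (cj R g x) * s) (by simp) ?_ ?_ x
  · intro x y hx hy
    simp only [map_add, mul_add, add_mul, hx, hy]
  · intro r c
    simp only [cj_single, gev_single, mul_smul_comm, smul_mul_assoc, h]

theorem gv_cj {F : Type} [CommRing F] (f : Oo →+* F) {S : Type} [Ring S] [Algebra F S]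
    {G : Type} [Group G] (σ : G →* S) (R : Subgroup G) [R.Normal] (g : G)
    (x : MonoidAlgebra Oo R) : σ g * gv f σ R x = gv f σ R (cj R g x) * σ g := by
  refine gev_cj f R _ _ g (σ g) (fun r => ?_) x
  simp only [MonoidHom.comp_apply, Subgroup.coe_subtype, ← map_mul, MulAut.conjNormal_apply]
  congr 1
  group

/-- change of the target algebra -/
theorem gev_map {F F' : Type} [CommRing F] [CommRing F'] (f : Oo →+* F) (f' : Oo →+* F')
    {S S' : Type} [Ring S] [Algebra F S] [Ring S'] [Algebra F' S'] {R : Type} [Group R]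
    (τ : R →* S) (τ' : R →* S') (ψ : S →+* S')
    (h1 : ∀ c, ψ (algebraMap F S (f c)) = algebraMap F' S' (f' c)) (h2 : ∀ r, ψ (τ r) = τ' r)
    (x : MonoidAlgebra Oo R) : ψ (gev f τ x) = gev f' τ' x := by
  refine gev_ind (fun x => ψ (gev f τ x) = gev f' τ' x) (by simp) ?_ ?_ x
  · intro x y hx hy
    simp only [map_add, hx, hy]
  · intro r c
    simp only [gev_single, Algebra.smul_def, map_mul, h1, h2]

/-- intertwiners -/
theorem gev_int {F : Type} [Field F] (f : Oo →+* F) {U M : Type} [AddCommGroup U] [Module F U]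
    [AddCommGroup M] [Module F M] {R : Type} [Group R] (τ : R →* Module.End F U)
    (τ' : R →* Module.End F M) (j : U →ₗ[F] M) (h : ∀ r u, j (τ r u) = τ' r (j u))
    (x : MonoidAlgebra Oo R) (u : U) : j (gev f τ x u) = gev f τ' x (j u) := by
  refine gev_ind (fun x => j (gev f τ x u) = gev f τ' x (j u)) (by simp) ?_ ?_ x
  · intro x y hx hy
    simp only [map_add, LinearMap.add_apply, hx, hy]
  · intro r c
    simp only [gev_single, LinearMap.smul_apply, map_smul, h]

theorem gev_mem {F : Type} [Field F] (f : Oo →+* F) {M : Type} [AddCommGroup M] [Module F M]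
    {R : Type} [Group R] (τ : R →* Module.End F M) (W : Submodule F M)
    (h : ∀ r, ∀ w ∈ W, τ r w ∈ W) (x : MonoidAlgebra Oo R) : ∀ w ∈ W, gev f τ x w ∈ W := by
  intro w hw
  refine gev_ind (fun x => gev f τ x w ∈ W) (by simp) ?_ ?_ x
  · intro x y hx hy
    simp only [map_add, LinearMap.add_apply]
    exact W.add_mem hx hy
  · intro r c
    simp only [gev_single, LinearMap.smul_apply]
    exact W.smul_mem _ (h r w hw)

theorem gev_comm {F : Type} [CommRing F] (f : Oo →+* F) {S : Type} [Ring S] [Algebra F S]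
    {R : Type} [Group R] (τ : R →* S) (s : S) (h : ∀ r, s * τ r = τ r * s)
    (x : MonoidAlgebra Oo R) : s * gev f τ x = gev f τ x * s := by
  refine gev_ind (fun x => s * gev f τ x = gev f τ x * s) (by simp) ?_ ?_ x
  · intro x y hx hy
    simp only [map_add, mul_add, add_mul, hx, hy]
  · intro r c
    simp only [gev_single, mul_smul_comm, smul_mul_assoc, h]

/-- a trace is the sum of the traces on the fixed blocks -/
theorem tr_blocks {S C : Type} [Ring S] [AddCommGroup C] (t : S →+ C)
    (ht : ∀ x y, t (x * y) = t (y * x)) {I : Type} [Fintype I] [DecidableEq I] (E : I → S)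
    (hs : ∑ i, E i = 1) (hi : ∀ i, E i * E i = E i) (ho : ∀ i j, i ≠ j → E i * E j = 0)
    (x : S) (π : I → I) (hx : ∀ i, x * E i = E (π i) * x) :
    t x = ∑ i ∈ Finset.univ.filter (fun i => π i = i), t (x * E i) := by
  have h1 : t x = ∑ i, t (x * E i) := by rw [← map_sum, ← Finset.mul_sum, hs, mul_one]
  rw [h1, Finset.sum_filter]
  refine Finset.sum_congr rfl fun i _ => ?_
  split_ifs with h
  · rfl
  · rw [← hi i, ← mul_assoc, hx, mul_assoc, ht, mul_assoc, ho i (π i) (Ne.symm h), mul_zero,
      map_zero]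

theorem exists_resF {F : Type} [Field F] {M : Type} [AddCommGroup M] [Module F M]
    {H : Type} [Group H] (σ : Representation F H M) (H1 : Subgroup H) (W : Submodule F M)
    (hW : ∀ h ∈ H1, ∀ w ∈ W, σ h w ∈ W) :
    ∃ s : Representation F H1 W, ∀ (h : H1) (w : W), (s h w : M) = σ h w :=
  ⟨Representation.subrepresentation (σ.comp H1.subtype) W (fun g w hw => hW g g.2 w hw),
    fun _ _ => rfl⟩

theorem unit_of_res (x : Oo) (h : res x ≠ 0) : IsUnit x := by
  by_contra hx
  exact h ((IsLocalRing.residue_eq_zero_iff x).2 ((IsLocalRing.mem_maximalIdeal x).2 hx))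

theorem unit_nat (n : ℕ) (h : ¬ 13 ∣ n) : IsUnit (n : Oo) := by
  refine unit_of_res _ ?_
  rw [map_natCast, Ne, CharP.cast_eq_zero_iff Kp 13]
  exact h

end Pool.Agent.N9181
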