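import Pool.Agent.MP_9181f8_al.Q.TInd
import Pool.Agent.MP_9181f8_al.N.Main

namespace Pool.Agent.N9181

open scoped commutatorElement

theorem sylowQ (P : Type) [Group P] [Finite P] (hPp : IsPGroup 13 P)
    {G : Type} [Group G] [Finite G] [Group.IsSolvable G] (N : ℕ) (hP : AP G N) (f : P →* G) (hf : Function.Injective f) :
    (∀ g : P, g ^ 13 = 1) ∧ commutator P ≤ Subgroup.center P := by
  by_cases h13 : 13 ∣ Nat.card G
  · obtain ⟨G', _, _, π, Q, z, hπ, hk, hQ, hQp, hQi, hz, hfp⟩ := fpf_dataQ N hP h13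
    have hinj : Function.Injective (π.comp f) := by
      rw [injective_iff_map_eq_one]
      intro x hx
      obtain ⟨a, ha⟩ := hPp x
      have h1 : orderOf (f x) ∣ Nat.card π.ker := Subgroup.orderOf_dvd_natCard _ hx
      have h2 : orderOf (f x) ∣ 13 ^ a := orderOf_dvd_of_pow_eq_one (by rw [← map_pow, ha, map_one])
      have h3 : orderOf (f x) = 1 := Nat.eq_one_of_dvd_coprimes
        (Nat.Coprime.pow_left a ((Nat.Prime.coprime_iff_not_dvd (by norm_num)).2 hk)) h2 h1
      exact hf (by rw [orderOf_eq_one_iff.1 h3, map_one])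
    have hmem : ∀ x : P, (π.comp f) x ∈ Q := by
      intro x
      obtain ⟨a, ha⟩ := hPp x
      have h1 : (QuotientGroup.mk' Q ((π.comp f) x)) ^ (13 ^ a) = 1 := by
        rw [← map_pow, ← map_pow, ha, map_one, map_one]
      have h2 : (QuotientGroup.mk' Q ((π.comp f) x)) ^ Q.index = 1 := pow_card_eq_one'
      have h3 := pow_gcd_eq_one.2 ⟨h1, h2⟩
      rw [Nat.Coprime.pow_left a ((Nat.Prime.coprime_iff_not_dvd (by norm_num)).2 hQi),
        pow_one] at h3
      exact (QuotientGroup.eq_one_iff _).1 h3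
    refine ⟨fun g => hinj ?_, ?_⟩
    · rw [map_pow, map_one]
      exact exp13Q N (ap_surj π hπ N hP) Q hQ hQp hQi z hz hfp _ (hmem g)
    · rw [commutator_def, Subgroup.commutator_le]
      intro x _ y _
      rw [Subgroup.mem_center_iff]
      intro w
      apply hinj
      rw [map_mul, map_mul, map_commutatorElement]
      exact (class2 Q hQ hQp z hz hfp _ (hmem x) _ (hmem y) _ (hmem w)).symm
  · have h1 : ∀ x : P, x = 1 := by
      intro x
      obtain ⟨a, ha⟩ := hPp x
      have h2 : orderOf (f x) ∣ 13 ^ a := orderOf_dvd_of_pow_eq_one (by rw [← map_pow, ha, map_one])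
      have h3 : orderOf (f x) = 1 := Nat.eq_one_of_dvd_coprimes
        (Nat.Coprime.pow_left a ((Nat.Prime.coprime_iff_not_dvd (by norm_num)).2 h13)) h2
        (orderOf_dvd_natCard _)
      exact hf (by rw [orderOf_eq_one_iff.1 h3, map_one])
    exact ⟨fun g => h1 _, fun x _ => by rw [h1 x]; exact Subgroup.one_mem _⟩

end Pool.Agent.N9181
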