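import Pool.Agent.MP_9181f8_al.Q.QAP
import Pool.Agent.MP_9181f8_al.Q.TMain

namespace Pool.Agent.N9181

theorem sylowQR (P : Type) [Group P] [Finite P] (hP : IsPGroup 13 P) {G : Type} [Group G]
    [Finite G] [Group.IsSolvable G] (hG : Pool.Agent.MP_9181f8_al.IsQR G) (f : P →* G)
    (hf : Function.Injective f) : (∀ g : P, g ^ 13 = 1) ∧ commutator P ≤ Subgroup.center P :=
  sylowQ P hP _ (ap_of_qp _ (qp_of_qr hG)) f hf

end Pool.Agent.N9181
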