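import Pool.Agent.MP_9181f8_al.Q.QU
import Pool.Agent.MP_9181f8_al.Q.CDual
import Pool.Agent.MP_9181f8_al.Q.AtomD
import Pool.Agent.MP_9181f8_al.Q.HallT
import Pool.Agent.MP_9181f8_al.N.ModC

namespace Pool.Agent.N9181

open scoped commutatorElement

/-- the stabiliser of the line through a linear form -/
def xqqrm_stab {V : Type} [AddCommGroup V] [Module K V] {G : Type} [Group G]
    (ρ : Representation K G V) (f : Module.Dual K V) : Subgroup G where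
  carrier := {g | ∃ u : K, u ≠ 0 ∧ f ∘ₗ ρ g = u • f}
  one_mem' := ⟨1, one_ne_zero, by rw [map_one, one_smul]; rfl⟩
  mul_mem' := by
    rintro a b ⟨u, hu, ha⟩ ⟨w, hw, hb⟩
    refine ⟨u * w, mul_ne_zero hu hw, ?_⟩
    rw [map_mul, Module.End.mul_eq_comp, ← LinearMap.comp_assoc, ha, LinearMap.smul_comp, hb,
      smul_smul]
  inv_mem' := by
    rintro a ⟨u, hu, ha⟩
    refine ⟨u⁻¹, inv_ne_zero hu, ?_⟩
    rw [eq_inv_smul_iff₀ hu, ← LinearMap.smul_comp, ← ha, LinearMap.comp_assoc,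
      ← Module.End.mul_eq_comp, ← map_mul, mul_inv_cancel, map_one]
    rfl

theorem xqqrm_pow {V : Type} [AddCommGroup V] [Module K V] {G : Type} [Group G]
    (ρ : Representation K G V) (f : Module.Dual K V) {g : G} {c : K} (h : f ∘ₗ ρ g = c • f)
    (n : ℕ) : f ∘ₗ ρ (g ^ n) = c ^ n • f := by
  induction n with
  | zero =>
    rw [pow_zero, pow_zero, map_one, one_smul]
    rfl
  | succ n ih =>
    rw [pow_succ, map_mul, Module.End.mul_eq_comp, ← LinearMap.comp_assoc, ih,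
      LinearMap.smul_comp, h, smul_smul, pow_succ]

theorem rm_core {V : Type} [AddCommGroup V] [Module K V] [Module.Finite K V]
    {G : Type} [Group G] [Finite G] [Group.IsSolvable G] (ρ : Representation K G V) (N m : ℕ) (hNM : NM G N m) (hU : HU' ρ N m) (L : Subgroup G)
    (h13 : ∀ g ∈ L, ∀ a : ℕ, g ^ (13 ^ a) = 1 → ρ g = 1) (c : G) (hc : c ∈ L)
    (hE : ∀ f : Module.Dual K V, f ∘ₗ ρ c = f → ∀ l : K, l ≠ 0 →
      ∃ h ∈ L, f ∘ₗ ρ h = l • f) : ∀ v, ρ c v = v → v = 0 := by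
  let σ : Representation K L V := ρ.comp L.subtype
  have hσ : ∀ h : L, σ h = ρ (h : G) := fun _ => rfl
  obtain ⟨H', _, _, π, ρ', hπ, -, hρ', hcard, h13'⟩ := exists_faithful σ
  have : Group.IsSolvable H' := Group.isSolvable_of_surjective hπ
  have hH : ¬ 13 ∣ Nat.card H' := h13' fun h a ha =>
    h13 h h.2 a (by simpa using congrArg Subtype.val ha)
  have hNM' : NM H' N m :=
    ⟨(hcard.trans (Subgroup.card_subgroup_dvd_card L)).trans hNM.1, hNM.2.1, hNM.2.2⟩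
  have hU' : HU ρ' N m := by
    intro h' j hj M
    obtain ⟨h, rfl⟩ := hπ h'
    obtain ⟨e, he, -, he', -⟩ := q_part 13 fact13.out h
    rw [← he' H' π (Nat.card H') hH pow_card_eq_one']
    generalize h ^ e = h0 at he
    rw [← map_pow, ← map_pow, ← map_pow, hρ', hρ', hρ', hρ', hσ, hσ, hσ, hσ]
    exact hU h0 (by rwa [Subgroup.orderOf_coe]) j hj M
  have hcc : ρ' (π ⟨c, hc⟩) = ρ c := hρ' _
  have key := atomD hH ρ' N m hNM' hU' (π ⟨c, hc⟩) fun f hf l hl => by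
    rw [hcc] at hf
    obtain ⟨g, hg, hgv⟩ := hE f hf l hl
    exact ⟨π ⟨g, hg⟩, by rw [hρ']; exact hgv⟩
  intro v hv
  exact key v (by rw [hcc]; exact hv)

theorem qp_U1 {V : Type} [AddCommGroup V] [Module K V] [Module.Finite K V]
    {G : Type} [Group G] [Finite G] (ρ : Representation K G V) (hirr : Irr ρ) (N : ℕ) (hP : QP G N) (h13 : T13 ρ) :
    ∃ m : ℕ, m.Coprime N ∧ HU' ρ N m := by
  obtain ⟨H', _, _, π, ρ', hπ, hinj, hρ', -, h13'⟩ := exists_faithful ρ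
  refine qp_U2 ρ hirr N hP π.ker π.ker π.ker
    ⟨inferInstance, inferInstance, le_rfl, fun k hk => ⟨0, by rwa [pow_zero, pow_one]⟩⟩
    (fun b hb => by rw [← hρ', MonoidHom.mem_ker.1 hb, map_one])
    (by rw [Subgroup.relIndex_self]; norm_num) ?_
  rw [Subgroup.index_ker, MonoidHom.range_eq_top.2 hπ, Subgroup.card_top]
  exact h13' h13

theorem qp_rm1 {V : Type} [AddCommGroup V] [Module K V] [Module.Finite K V]
    {G : Type} [Group G] [Finite G] [Group.IsSolvable G] (ρ : Representation K G V) (ι : V → G) (hι : Emb ρ ι) (hirr : Irr ρ) (N : ℕ) (hP : QP G N) (h13 : T13 ρ) (c : G)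
    (hc : ¬ 13 ∣ orderOf c) (hn : Nonrat N c) : ∀ v, ρ c v = v → v = 0 := by
  obtain ⟨m, hm, hU⟩ := qp_U1 ρ hirr N hP h13
  exact rm_core ρ N m ⟨hP.1, hP.2.1, hm⟩ hU ⊤ (fun g _ a hg => h13 g a hg) c trivial
    fun f hf l hl => (qp_dual ρ ι hι N hP c hc hn f hf l hl).imp fun g hg => ⟨trivial, hg⟩

theorem qp_rm2 {V : Type} [AddCommGroup V] [Module K V] [Module.Finite K V]
    {G : Type} [Group G] [Finite G] [Group.IsSolvable G] (ρ : Representation K G V) (ι : V → G) (hι : Emb ρ ι) (hirr : Irr ρ) (N : ℕ) (hP : QP G N) (B R Q : Subgroup G) (z : G)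
    (hB : ∀ g, g ∈ B ↔ ∃ v, ι v = g) (hD : GD B R Q z) (t : G) (a : ℕ) (ht : t ^ (3 ^ a) = 1)
    (hf : ∀ x ∈ Q, ⁅x, t⁆ ∈ R → x ∈ R) (hn : Nonrat N t) : ∀ v, ρ t v = v → v = 0 := by
  have hQ : RQ R Q := ⟨hD.nR, hD.nQ, hD.le2, hD.pw⟩
  have hB1 : ∀ b ∈ B, ρ b = 1 := fun b hb => by
    obtain ⟨y, rfl⟩ := (hB b).1 hb
    exact (emb_basic ρ ι hι).2.2.2 y
  have hBn : B.Normal := ⟨fun x hx y => by
    obtain ⟨c, rfl⟩ := (hB x).1 hx
    exact (hB _).2 ⟨_, hι.act y c⟩⟩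
  obtain ⟨m, hm, hU⟩ := qp_U2 ρ hirr N hP B R Q hQ hB1 hD.cop hD.idx
  obtain ⟨L, -, htL, hL, hY⟩ := hall_t R Q hQ hD.idx t (xmodc_ord ht) hf
  refine rm_core ρ N m ⟨hP.1, hP.2.1, hm⟩ hU L (fun x hx c hc => ?_) t htL fun f hft l hl => ?_
  · have h2 : (⟨x, hx⟩ : L) ∈ R.subgroupOf L :=
      xmodc_mem _ (hD.nR.subgroupOf L) hL _ c (by
        rw [Subgroup.mem_subgroupOf, SubmonoidClass.coe_pow, hc]; exact R.one_mem)
    have h4 : (⟨x, h2⟩ : R) ∈ B.subgroupOf R :=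
      xmodc_mem _ (hBn.subgroupOf R) hD.cop _ c (by
        rw [Subgroup.mem_subgroupOf, SubmonoidClass.coe_pow, hc]; exact B.one_mem)
    exact hB1 x h4
  · obtain ⟨g, hg⟩ := qp_dual ρ ι hι N hP t (xmodc_ord ht) hn f hft l hl
    obtain ⟨u, ⟨c, -, hc⟩, ⟨b, hb⟩, y, -, hyL, rfl⟩ := hY (xqqrm_stab ρ f)
      ⟨1, one_ne_zero, by rw [hft, one_smul]⟩ g ⟨l, hl, hg⟩
    have h1 := xqqrm_pow ρ f hc (13 ^ b)
    rw [hb, map_one, ZMod.pow_card_pow, ← hc] at h1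
    refine ⟨y, hyL, ?_⟩
    rw [← hg, map_mul, Module.End.mul_eq_comp, ← LinearMap.comp_assoc, ← h1]
    rfl

end Pool.Agent.N9181
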