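import Pool.Agent.MP_9181f8_al.Q.FS
import Pool.Agent.MP_9181f8_al.Q.Frob
import Pool.Agent.MP_9181f8_al.Q.KerEd
import Pool.Agent.MP_9181f8_al.Q.OChar
import Pool.Agent.MP_9181f8_al.Q.CQP

namespace Pool.Agent.N9181

open scoped commutatorElement

theorem qp_U {V : Type} [AddCommGroup V] [Module K V] [Module.Finite K V]
    {G : Type} [Group G] [Finite G] (ρ : Representation K G V) (hirr : Irr ρ) (N : ℕ) (hP : QP G N) (R Q : Subgroup G) (hQ : RQ R Q)
    (h13 : ¬ 13 ∣ Nat.card R) (hidx : ¬ 13 ∣ Q.index) : ∃ m : ℕ, m.Coprime N ∧ HU' ρ N m := by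
  obtain ⟨X, _, _, _, τ, M, _, _, _, σ, hσ, hker, hed⟩ := frob ρ hirr
  obtain ⟨M', _, _, _, χ, hχ, hct⟩ := fs R Q hQ h13 hidx σ hσ
  have hp : ∀ (h : G) (k : ℕ), ¬ 13 ∣ orderOf h → ¬ 13 ∣ orderOf (h ^ k) :=
    fun h k hh hk => hh (hk.trans (orderOf_pow_dvd k))
  have key : ∀ (h : G) (a b : ℕ), ¬ 13 ∣ orderOf h →
      (∀ g, χ.character (g ^ a) = χ.character (g ^ b)) →
      ∀ L, bt (ρ (h ^ a)) L = bt (ρ (h ^ b)) L := by
    intro h a b hh hab L
    have h1 : ∀ c, (h ^ c) ^ orderOf h = 1 := fun c => by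
      rw [← pow_mul, mul_comm, pow_mul, pow_orderOf_eq_one, one_pow]
    have e1 := ochar (σ (h ^ a)) (σ (h ^ b)) _ hh (by rw [← map_pow, h1, map_one])
      (by rw [← map_pow, h1, map_one]) (fun k => χ.character ((h ^ k) ^ a))
      (fun k => by
        rw [← map_pow, pow_right_comm]
        exact hct _ (hp _ _ (hp _ _ hh)))
      (fun k => by
        rw [← map_pow, pow_right_comm, hab]
        exact hct _ (hp _ _ (hp _ _ hh)))
    obtain ⟨e, he⟩ := conj_of_ker (ρ (h ^ a)) (ρ (h ^ b)) _ hh (by rw [← map_pow, h1, map_one])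
      (by rw [← map_pow, h1, map_one]) fun g => by
        rw [← hker, ← hker]
        exact ker_ed _ _ _ hh (by rw [← map_pow, h1, map_one]) (by rw [← map_pow, h1, map_one])
          (hed _ _ e1) _
    exact bt_conj e _ _ he L
  obtain ⟨m, hm, hmm, hj⟩ : ∃ m : ℕ, m.Coprime N ∧ SS χ (m * m) ∧
      ∀ j : ℕ, j.Coprime N → SS χ j ∨ SS χ (j * m) := by
    by_cases hall : ∀ j : ℕ, j.Coprime N → SS χ j
    · exact ⟨1, Nat.coprime_one_left N, hall 1 (Nat.coprime_one_left N),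
        fun j hj => Or.inl (hall j hj)⟩
    · obtain ⟨m, hm⟩ := not_forall.1 hall
      obtain ⟨hm, hm'⟩ := Classical.not_imp.1 hm
      refine ⟨m, hm, ?_, fun j hj => ?_⟩
      · exact ((hP.2.2 M' χ hχ m m hm hm).resolve_left hm').resolve_left hm'
      · exact (hP.2.2 M' χ hχ j m hj hm).imp_right fun h => h.resolve_left hm'
  refine ⟨m, hm, fun h hh j hj' L => ?_⟩
  have k1 : ∀ a, SS χ a → bt (ρ (h ^ a)) L = bt (ρ h) L := fun a ha => by
    have := key h a 1 hh (fun g => by rw [ha, pow_one]) L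
    rwa [pow_one] at this
  rcases hj j hj' with hs | hs
  · rw [k1 j hs, key h (j * m) m hh (fun g => by rw [mul_comm, pow_mul, hs]) L]
  · rw [k1 _ hs, add_comm, key h j m hh (fun g => by
      rw [← hmm (g ^ j), ← hs (g ^ m), ← pow_mul, ← pow_mul, mul_left_comm]) L]

theorem qp_U2 {V : Type} [AddCommGroup V] [Module K V] [Module.Finite K V]
    {G : Type} [Group G] [Finite G] (ρ : Representation K G V) (hirr : Irr ρ) (N : ℕ) (hP : QP G N) (B R Q : Subgroup G) (hQ : RQ R Q)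
    (hB : ∀ b ∈ B, ρ b = 1) (h13 : ¬ 13 ∣ B.relIndex R) (hidx : ¬ 13 ∣ Q.index) :
    ∃ m : ℕ, m.Coprime N ∧ HU' ρ N m := by
  obtain ⟨H, _, _, π, ρ', hs, hi, he, -⟩ := exists_faithful ρ
  have hk : B ≤ π.ker := fun b hb => hi (by rw [he, hB b hb, map_one])
  obtain ⟨m, hm, hU⟩ := qp_U ρ' ⟨hirr.1, fun W hW => hirr.2 W fun h => he h ▸ hW (π h)⟩ N
    (qp_surj π hs N hP) (R.map π) (Q.map π)
    ⟨hQ.nR.map π hs, hQ.nQ.map π hs, Subgroup.map_mono hQ.le, by
      rintro _ ⟨k, hk, rfl⟩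
      obtain ⟨a, ha⟩ := hQ.pw k hk
      exact ⟨a, k ^ 13 ^ a, ha, map_pow _ _ _⟩⟩
    (fun h => h13 (h.trans (by
      rw [← Subgroup.relIndex_ker]
      exact Subgroup.relIndex_dvd_of_le_left R hk)))
    (fun h => hidx (h.trans (Q.index_map_dvd hs)))
  refine ⟨m, hm, fun h hh j hj L => ?_⟩
  have := hU (π h) (fun hd => hh (hd.trans (orderOf_map_dvd π h))) j hj L
  simpa only [← map_pow, he] using this

end Pool.Agent.N9181
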