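import Pool.Agent.MP_9181f8_al.Q.TStep
import Pool.Agent.MP_9181f8_al.Q.TModC
import Pool.Agent.MP_9181f8_al.N.GoodInd

namespace Pool.Agent.N9181

open scoped commutatorElement

theorem xqtind_ind (N n : ℕ) : ∀ (G : Type) [Group G] [Finite G] [Group.IsSolvable G],
    Nat.card G = n → AP G N → 13 ∣ Nat.card G → Good G := by
  induction n using Nat.strong_induction_on with
  | _ n ih =>
    intro G _ _ _ hn hP h
    have hne : (⊤ : Subgroup G) ≠ ⊥ := fun e => by
      rw [← Subgroup.card_top, e, Subgroup.card_bot] at h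
      norm_num at h
    obtain ⟨B, p, hB, -, hB0, hp, hc, hpw, hmin⟩ := exists_min (⊤ : Subgroup G) inferInstance hne
    have hq : 13 ∣ B.index → ∃ (R Q : Subgroup G) (z : G), GD B R Q z := fun hi => by
      refine xgoodind_pull B (ih (Nat.card (G ⧸ B)) ?_ _ rfl
        (ap_surj _ (QuotientGroup.mk'_surjective B) N hP) hi)
      rw [← hn, ← B.card_mul_index]
      have h1 : 1 < Nat.card B := (Subgroup.one_lt_card_iff_ne_bot B).2 hB0
      have h2 : 0 < B.index := Nat.pos_of_ne_zero Subgroup.index_ne_zero_of_finite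
      exact (lt_mul_iff_one_lt_left h2).2 h1
    by_cases h13 : p = 13
    · subst h13
      obtain ⟨V, _, _, _, ρ, ι, hι, hBι⟩ := exists_emb B hB hc hpw
      have hirr := emb_irr ρ ι hι B hBι hB0 hmin
      by_cases hi : 13 ∣ B.index
      · obtain ⟨R, Q, z, hD⟩ := hq hi
        exact good_stepQ ρ ι hι N hP hirr B R Q hBι z hD hi
          (modularQ ρ ι hι N hP hirr B R Q hBι z hD)
      · exact good_baseQ ρ ι hι N hP hirr B hBι hi
    · have hB13 : ¬ 13 ∣ Nat.card B := fun hd => by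
        obtain ⟨x, hx⟩ := exists_prime_orderOf_dvd_card' 13 hd
        have h1 : x ^ p = 1 := Subtype.ext (hpw x x.2)
        have h2 := orderOf_dvd_of_pow_eq_one h1
        rw [hx] at h2
        exact h13 ((Nat.prime_dvd_prime_iff_eq fact13.out hp).1 h2).symm
      have hi : 13 ∣ B.index := by
        rw [← B.card_mul_index] at h
        exact (fact13.out.dvd_mul.1 h).resolve_left hB13
      obtain ⟨R, Q, z, hD⟩ := hq hi
      refine ⟨R, Q, z, hD.nR, hD.nQ, bot_le, hD.le2, fun hd => ?_, hD.pw, hD.idx, hD.zn, hD.z3,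
        hD.zc⟩
      rw [← Subgroup.relIndex_mul_relIndex ⊥ B R bot_le hD.le1, Subgroup.relIndex_bot_left] at hd
      exact (fact13.out.dvd_mul.1 hd).elim hB13 hD.cop

theorem goodQ {G : Type} [Group G] [Finite G] [Group.IsSolvable G] (N : ℕ) (hP : AP G N) (h : 13 ∣ Nat.card G) : Good G :=
  xqtind_ind N _ G rfl hP h

theorem fpf_dataQ {G : Type} [Group G] [Finite G] [Group.IsSolvable G] (N : ℕ) (hP : AP G N) (h : 13 ∣ Nat.card G) :
    ∃ (G' : Type) (_ : Group G') (_ : Finite G') (π : G →* G') (Q : Subgroup G') (z : G'),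
      Function.Surjective π ∧ ¬ 13 ∣ Nat.card π.ker ∧ Q.Normal ∧ IsPGroup 13 Q ∧
      ¬ 13 ∣ Q.index ∧ z ^ 3 = 1 ∧ ∀ x ∈ Q, x * z = z * x → x = 1 := by
  obtain ⟨R, Q, z, hD⟩ := goodQ N hP h
  have := hD.nR
  have hs := QuotientGroup.mk'_surjective R
  have hP' := ap_surj _ hs N hP
  have hker : (QuotientGroup.mk' R).ker ≤ Q := by
    rw [QuotientGroup.ker_mk']
    exact hD.le2
  have hQn : (Q.map (QuotientGroup.mk' R)).Normal := hD.nQ.map _ hs
  have hQp : IsPGroup 13 (Q.map (QuotientGroup.mk' R)) := by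
    rintro ⟨_, k, hk, rfl⟩
    obtain ⟨a, ha⟩ := hD.pw k hk
    refine ⟨a, Subtype.ext ?_⟩
    change QuotientGroup.mk' R k ^ 13 ^ a = 1
    rw [← map_pow]
    exact (QuotientGroup.eq_one_iff _).2 ha
  have hQi : ¬ 13 ∣ (Q.map (QuotientGroup.mk' R)).index := by
    rw [Subgroup.index_map_eq _ hs hker]
    exact hD.idx
  generalize hQ' : Q.map (QuotientGroup.mk' R) = Q' at hQn hQp hQi
  have hmem : ∀ g, QuotientGroup.mk' Q' (QuotientGroup.mk' R g) = 1 ↔ g ∈ Q := fun g => by
    rw [QuotientGroup.mk'_apply, QuotientGroup.eq_one_iff, ← hQ', ← Subgroup.mem_comap,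
      Subgroup.comap_map_eq_self hker]
  have hz3 : QuotientGroup.mk' Q' (QuotientGroup.mk' R z) ^ 3 = 1 := by
    rw [← map_pow, ← map_pow]
    exact (hmem _).2 hD.z3
  obtain ⟨e, a, ha, -, hf⟩ := p_part 3 Nat.prime_three (QuotientGroup.mk' R z)
  have h1 := hf _ (QuotientGroup.mk' Q') 1 (by rw [pow_one]; exact hz3)
  generalize QuotientGroup.mk' R z ^ e = c at ha h1
  have hc3 : c ^ 3 = 1 := by
    have h2 : c ^ 3 ∈ Q' := by
      rw [← QuotientGroup.eq_one_iff, ← QuotientGroup.mk'_apply, map_pow, h1, hz3]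
    obtain ⟨b, hb⟩ := hQp ⟨_, h2⟩
    have h3 : (c ^ 3) ^ 13 ^ b = 1 := congrArg Subtype.val hb
    have h4 : (c ^ 3) ^ 3 ^ a = 1 := by rw [← pow_mul, mul_comm, pow_mul, ha, one_pow]
    exact orderOf_eq_one_iff.1 (Nat.eq_one_of_dvd_coprimes
      (Nat.Coprime.pow b a (by norm_num : Nat.Coprime 13 3)) (orderOf_dvd_of_pow_eq_one h3)
      (orderOf_dvd_of_pow_eq_one h4))
  refine ⟨G ⧸ R, inferInstance, inferInstance, QuotientGroup.mk' R, Q', c, hs, ?_, hQn, hQp, hQi,
    hc3, rgrpQ N hP' Q' hQn hQp hQi c (fun hd => ?_) (N - 1) ?_ fun g hg => ?_⟩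
  · rw [QuotientGroup.ker_mk', ← Subgroup.relIndex_bot_left]
    exact hD.cop
  · have := hd.trans (orderOf_dvd_of_pow_eq_one hc3)
    norm_num at this
  · exact (Nat.coprime_self_sub_left (ap_self N hP).pos).2 (Nat.coprime_one_left N)
  · obtain ⟨g, rfl⟩ := hs g
    have h2 : c ^ (N - 1) * c = 1 := by
      rw [← pow_succ, Nat.sub_add_cancel (ap_self N hP).pos]
      exact orderOf_dvd_iff_pow_eq_one.1 ((orderOf_dvd_natCard c).trans (ap_self N hP').dvd)
    rw [eq_inv_of_mul_eq_one_left h2, inv_inv, ← QuotientGroup.eq_one_iff,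
      ← QuotientGroup.mk'_apply] at hg
    have h3 := (hmem _).2 (hD.zc g)
    rw [map_commutatorElement, map_commutatorElement, commutatorElement_eq_one_iff_mul_comm] at h3
    simp only [map_mul, map_inv, h1] at hg
    rw [h3, mul_inv_cancel_right] at hg
    rw [pow_succ, pow_two, hg, one_mul] at hz3
    exact hD.zn ((hmem z).1 hz3)

end Pool.Agent.N9181
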