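import Pool.Agent.MP_9181f8_al.Q.BlkQ
import Pool.Agent.MP_9181f8_al.Q.OLift
import Pool.Agent.MP_9181f8_al.Q.Ext
import Pool.Agent.MP_9181f8_al.Q.HallA

namespace Pool.Agent.N9181

open scoped commutatorElement

theorem xqtlift_red {M : Type} [AddCommGroup M] [Module Kp M] {R : Type} [Group R] {n : ℕ}
    (b : Module.Basis (Fin n) Kp M) (A : R →* Matrix (Fin n) (Fin n) Oo)
    (σ : R →* Module.End Kp M) (h : ∀ r, (A r).map res = LinearMap.toMatrix b b (σ r))
    (x : MonoidAlgebra Oo R) :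
    (gev (RingHom.id Oo) A x).map res = LinearMap.toMatrix b b (gev res σ x) := by
  refine gev_ind (fun x => (gev (RingHom.id Oo) A x).map res =
    LinearMap.toMatrix b b (gev res σ x)) (by simp) ?_ ?_ x
  · intro x y hx hy
    rw [map_add, map_add, map_add, ← hx, ← hy]
    exact res.mapMatrix.map_add _ _
  · intro r c
    rw [gev_single, gev_single, map_smul, ← h]
    ext i j
    simp

theorem xqtlift_card {G : Type} [Group G] [Finite G] (R L : Subgroup G) (h : R ≤ L)
    (h1 : ¬ 13 ∣ Nat.card R) (h2 : ¬ 13 ∣ R.relIndex L) : ¬ 13 ∣ Nat.card L := by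
  rw [← (R.subgroupOf L).card_mul_index,
    Nat.card_congr (Subgroup.subgroupOfEquivOfLe h).toEquiv]
  intro hd
  exact ((Nat.Prime.dvd_mul (by norm_num)).1 hd).elim h1 h2

theorem tlift {M : Type} [AddCommGroup M] [Module Kp M] [Module.Finite Kp M] {G : Type} [Group G] [Finite G] (R Q : Subgroup G) [R.Normal] {I : Type} [Fintype I] [MulAction G I]
    (e : I → MonoidAlgebra Oo R) (a : I → G → MonoidAlgebra Oo R) (hC : CD R Q I e a) (hQ : RQ R Q) (h13 : ¬ 13 ∣ Nat.card R)
    (σ : Representation Kp G M) (hσ : IrrF σ) (i : I) (hi : gv res σ R (e i) ≠ 0)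
    (L : Subgroup G) (hL : HT R Q (MulAction.stabilizer G i) L) :
    ∃ (n : ℕ) (τ0 : Representation ℂ (MulAction.stabilizer G i) (Fin n → ℂ)), IrrF τ0 ∧
      gev Oo.subtype (τ0.comp (Subgroup.inclusion (hL.le1.trans hL.le2))) (e i) = 1 ∧
      ∀ (l : G) (hl : l ∈ L) (s : Module.End Kp (LinearMap.range (gv res σ R (e i)))),
        (∀ w, (s w : M) = σ l w) → IsCt s (τ0.character ⟨l, hL.le2 hl⟩) := by
  have hWT : ∀ g : G, g • i = i → ∀ w ∈ LinearMap.range (gv res σ R (e i)),
      σ g w ∈ LinearMap.range (gv res σ R (e i)) := by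
    rintro g hg _ ⟨v, rfl⟩
    have h := blk_act res R Q e a hC σ g i
    rw [hg] at h
    exact ⟨σ g v, (LinearMap.congr_fun h v).symm⟩
  obtain ⟨σL, hσL⟩ := exists_resF σ L _ (fun g hg => hWT g (hL.le2 hg))
  have hne : ∃ v : LinearMap.range (gv res σ R (e i)), v ≠ 0 := by
    by_contra h
    push Not at h
    exact hi (LinearMap.ext fun v => congrArg Subtype.val (h ⟨_, v, rfl⟩))
  have hirr : IrrF σL := by
    refine ⟨hne, fun W' hW' => ?_⟩
    have h1 : ∀ l ∈ L, ∀ w ∈ W'.map (Submodule.subtype _), σ l w ∈ W'.map (Submodule.subtype _) := by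
      rintro l hl _ ⟨w, hw, rfl⟩
      exact ⟨_, hW' ⟨l, hl⟩ w hw, hσL ⟨l, hl⟩ w⟩
    have h2 := blk_irr res R Q e a hC σ hσ i (W'.map (Submodule.subtype _))
      (Submodule.map_subtype_le _ _) (fun g hg w hw => by
        obtain ⟨q, hq, hqi, l, hl, rfl⟩ := hL.dec g hg
        have h3 := h1 l hl w hw
        rw [map_mul, Module.End.mul_apply,
          blk_q R Q e a hC hQ σ hσ i q hq hqi _ (Submodule.map_subtype_le _ _ h3)]
        exact gev_mem res (σ.comp R.subtype) _ (fun r => h1 r (hL.le1 r.2)) _ _ h3)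
    refine h2.imp (fun h => ?_) fun h => ?_
    · exact Submodule.map_injective_of_injective (Submodule.injective_subtype _)
        (h.trans (Submodule.map_bot _).symm)
    · exact Submodule.map_injective_of_injective (Submodule.injective_subtype _)
        (h.trans (Submodule.map_subtype_top _).symm)
  have hcL := xqtlift_card R L hL.le1 h13 hL.cop
  let b := Module.finBasis Kp (LinearMap.range (gv res σ R (e i)))
  obtain ⟨A, hA⟩ := olift hcL σL b
  have hone : gev (RingHom.id Oo) (A.comp (Subgroup.inclusion hL.le1)) (e i) = 1 := by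
    have h1 := xqtlift_red b (A.comp (Subgroup.inclusion hL.le1))
      (σL.comp (Subgroup.inclusion hL.le1)) (fun r => hA _) (e i)
    have h2 : gev res (σL.comp (Subgroup.inclusion hL.le1)) (e i) = 1 := by
      refine LinearMap.ext fun w => Subtype.ext ?_
      refine (gev_int res (σL.comp (Subgroup.inclusion hL.le1)) (σ.comp R.subtype)
        (Submodule.subtype _) (fun r u => hσL ⟨r, hL.le1 r.2⟩ u) (e i) w).trans ?_
      obtain ⟨_, v, rfl⟩ := w
      show (gv res σ R (e i) * gv res σ R (e i)) v = gv res σ R (e i) v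
      rw [← map_mul, hC.idem]
    rw [h2, LinearMap.toMatrix_one] at h1
    refine (sub_eq_zero.1 (idem_zero _ ?_ ?_)).symm
    · rw [sub_mul, mul_sub, mul_sub, ← map_mul, hC.idem]
      simp
    · show res.mapMatrix _ = 0
      rw [map_sub, map_one, RingHom.mapMatrix_apply, h1, sub_self]
  obtain ⟨τ, hτ⟩ := ext_hom R Q (MulAction.stabilizer G i) L hQ.nQ hL.le2 hL.dec
    (rel_int R Q L hQ hL.le1 hL.cop) R.one_mem A
    (fun q => gev (RingHom.id Oo) (A.comp (Subgroup.inclusion hL.le1)) (a i q))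
    (fun q hq q' hq' h h' => by rw [hC.mul i q hq q' hq' h h', map_mul])
    (fun l hl => by
      have h := hC.rst i ⟨l, hl⟩
      simp only at h
      simp only [h, map_mul, hone, mul_one, gev_of]
      rfl)
    (fun l q hq h => by
      have h1 := hC.equi i l q hq h
      rw [show (l : G) • i = i from hL.le2 l.2] at h1
      rw [← h1]
      refine gev_cj _ R _ _ (l : G) (A l) (fun r => ?_) _
      simp only [MonoidHom.comp_apply, ← map_mul]
      congr 1
      apply Subtype.ext
      simp)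
  let ψ : Matrix _ _ Oo →+* Module.End ℂ (Fin (Module.finrank Kp
      (LinearMap.range (gv res σ R (e i)))) → ℂ) :=
    (Matrix.toLinAlgEquiv' : _ ≃ₐ[ℂ] _).toRingEquiv.toRingHom.comp Oo.subtype.mapMatrix
  have hψ : ∀ X, ψ X = Matrix.toLin' (X.map Oo.subtype) := fun _ => rfl
  refine ⟨_, ψ.toMonoidHom.comp τ, ⟨?_, fun W' hW' => ?_⟩, ?_, fun l hl s hs => ?_⟩
  · obtain ⟨v, hv⟩ := hne
    have : Nontrivial (LinearMap.range (gv res σ R (e i))) := ⟨v, 0, hv⟩
    have : Nonempty (Fin (Module.finrank Kp (LinearMap.range (gv res σ R (e i))))) :=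
      ⟨⟨0, Module.finrank_pos⟩⟩
    exact exists_ne 0
  · refine oirr σL hirr b A hA W' fun l w hw => ?_
    have h := hW' ⟨l, hL.le2 l.2⟩ w hw
    rw [← hτ]
    exact h
  · refine (gev_map (RingHom.id Oo) _ (A.comp (Subgroup.inclusion hL.le1)) _ ψ (fun c => ?_)
      (fun r => ?_) _).symm.trans (by rw [hone, map_one])
    · rw [← (Matrix.toLinAlgEquiv' : _ ≃ₐ[ℂ] _).commutes]
      refine congrArg (Matrix.toLinAlgEquiv' : _ ≃ₐ[ℂ] _) ?_
      ext i j
      simp only [RingHom.mapMatrix_apply, Matrix.map_apply, Matrix.algebraMap_matrix_apply]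
      split_ifs <;> simp
    · exact congrArg ψ (hτ ⟨r, hL.le1 r.2⟩).symm
  · refine ⟨_, b, A ⟨l, hl⟩, Nat.card L, hcL, by rw [← map_pow, pow_card_eq_one', map_one], ?_, ?_⟩
    · rw [hA]
      congr 1
      exact LinearMap.ext fun w => Subtype.ext ((hσL _ w).trans (hs w).symm)
    · show _ = LinearMap.trace ℂ _ (ψ (τ ⟨l, hL.le2 hl⟩))
      rw [hτ ⟨l, hl⟩, hψ, Matrix.trace_toLin'_eq]
      exact AddMonoidHom.map_trace Oo.subtype _

end Pool.Agent.N9181
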