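import Pool.Agent.MP_9181f8_al.Q.QBasic
import Pool.Agent.MP_9181f8_al.N.CopM

namespace Pool.Agent.N9181

open scoped commutatorElement

theorem xqtrgrp_ind (n : ℕ) : ∀ (G : Type) [Group G] [Finite G] [Group.IsSolvable G],
    Nat.card G = n → ∀ (N : ℕ), AP G N → ∀ (Q : Subgroup G), Q.Normal → IsPGroup 13 Q →
    ¬ 13 ∣ Q.index → ∀ c : G, ¬ 13 ∣ orderOf c → ∀ j0 : ℕ, j0.Coprime N →
    (∀ g : G, g * c * g⁻¹ * (c ^ j0)⁻¹ ∉ Q) → ∀ x ∈ Q, x * c = c * x → x = 1 := by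
  induction n using Nat.strong_induction_on with
  | _ n ih =>
  intro G _ _ _ hn N hP Q hQ hQp hQi c hc j0 hj0 hnc x hx hxc
  by_cases hQb : Q = ⊥
  · rw [hQb] at hx
    exact Subgroup.mem_bot.1 hx
  obtain ⟨B, p, hBn, hBQ, hBne, hp, hBc, hBp, hBmin⟩ := exists_min Q hQ hQb
  have hp13 : p = 13 := by
    obtain ⟨b, hb1⟩ := Subgroup.ne_bot_iff_exists_ne_one.1 hBne
    have hb1' : (b : G) ≠ 1 := fun h => hb1 (Subtype.ext h)
    have : Fact p.Prime := ⟨hp⟩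
    have ho : orderOf (b : G) = p := orderOf_eq_prime (hBp b b.2) hb1'
    obtain ⟨k, hk⟩ := hQp ⟨b, hBQ b.2⟩
    have hk' : (b : G) ^ (13 ^ k) = 1 := by simpa using congrArg Subtype.val hk
    have hd : p ∣ 13 ^ k := ho ▸ orderOf_dvd_of_pow_eq_one hk'
    exact (Nat.prime_dvd_prime_iff_eq hp (by norm_num)).1 (hp.dvd_of_dvd_pow hd)
  subst hp13
  obtain ⟨V, _, _, _, ρ, ι, hι, hB⟩ := exists_emb B hBn hBc hBp
  have hirr := emb_irr ρ ι hι B hB hBne hBmin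
  have htriv := xrmod_triv ρ hirr Q hQ hQp
  let f : G →* G ⧸ B := QuotientGroup.mk' B
  have hf : Function.Surjective f := QuotientGroup.mk'_surjective B
  have hker : f.ker = B := QuotientGroup.ker_mk' B
  have hlt : Nat.card (G ⧸ B) < n := by
    rw [← hn, Subgroup.card_eq_card_quotient_mul_card_subgroup B]
    exact lt_mul_of_one_lt_right Nat.card_pos ((Subgroup.one_lt_card_iff_ne_bot B).2 hBne)
  have hcm : (Q.map f).comap f = Q := Subgroup.comap_map_eq_self (hker.le.trans hBQ)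
  have hxB : f x = 1 := by
    refine ih _ hlt (G ⧸ B) rfl N (ap_surj f hf N hP) (Q.map f) (hQ.map f hf) (hQp.map f)
      (fun h => hQi (h.trans (Subgroup.index_map_dvd Q hf))) (f c)
      (fun h => hc (h.trans (orderOf_map_dvd f c))) j0 hj0 (fun g' hg' => ?_) (f x)
      (Subgroup.mem_map_of_mem f hx) (by rw [← map_mul, hxc, map_mul])
    obtain ⟨g, rfl⟩ := hf g'
    apply hnc g
    rw [← hcm, Subgroup.mem_comap]
    simpa only [map_mul, map_inv, map_pow] using hg'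
  obtain ⟨v, rfl⟩ := (hB x).1 (hker.le ((MonoidHom.mem_ker).2 hxB))
  have hv : ρ c v = v := hι.inj (by
    rw [hι.act, ← hxc]
    group)
  have hv0 := (ap_self N hP).rm1 V ρ ι hι hirr
    (fun g a hg => htriv g (xrmod_mem Q hQ hQi g a hg)) c hc ⟨j0, hj0, fun h => by
    obtain ⟨g, hg⟩ := isConj_iff.1 h
    apply hnc g
    rw [hg, mul_inv_cancel]
    exact Q.one_mem⟩ v hv
  rw [hv0]
  exact (emb_basic ρ ι hι).1

theorem rgrpQ {G : Type} [Group G] [Finite G] [Group.IsSolvable G] (N : ℕ) (hP : AP G N) (Q : Subgroup G) (hQ : Q.Normal)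
    (hQp : IsPGroup 13 Q) (hQi : ¬ 13 ∣ Q.index) (c : G) (hc : ¬ 13 ∣ orderOf c) (j0 : ℕ)
    (hj0 : j0.Coprime N) (hn : ∀ g : G, g * c * g⁻¹ * (c ^ j0)⁻¹ ∉ Q) :
    ∀ x ∈ Q, x * c = c * x → x = 1 :=
  xqtrgrp_ind _ G rfl N hP Q hQ hQp hQi c hc j0 hj0 hn

theorem copMQ {V : Type} [AddCommGroup V] [Module K V] [Module.Finite K V]
    {G : Type} [Group G] [Finite G] [Group.IsSolvable G] (ρ : Representation K G V) (ι : V → G) (hι : Emb ρ ι) (N : ℕ) (hP : AP G N) (hirr : Irr ρ)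
    (h13 : ∀ (g : G) (a : ℕ), g ^ (13 ^ a) = 1 → ρ g = 1) :
    Cop ρ ∧ HReal ρ ∧ Scal ρ ∧ ∃ v, Reg ρ v := by
  have hR : HReal ρ := fun h v hv hh M => by
    obtain ⟨c, h1, h2, h3⟩ := xcopm_part ρ h13 h
    obtain ⟨k, rfl⟩ := Nat.exists_eq_add_one_of_ne_zero (ap_self N hP).pos.ne'
    have h4 : c ^ k = c⁻¹ := by
      rw [eq_inv_iff_mul_eq_one, ← pow_succ]
      exact orderOf_dvd_iff_pow_eq_one.1 ((orderOf_dvd_natCard c).trans (ap_self _ hP).dvd)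
    have h5 : IsConj c (c ^ k) := by
      by_contra hn
      exact hv ((ap_self _ hP).rm1 V ρ ι hι hirr h13 c h1 ⟨k, by simp, hn⟩ v
        (by rw [h2, hh]))
    rw [← h2, ← h3, ← h4]
    exact bt_isConj ρ _ _ h5 M
  refine ⟨fun h => ?_, hR, ?_⟩
  · obtain ⟨c, h1, h2, -⟩ := xcopm_part ρ h13 h
    exact ⟨orderOf c, h1, by rw [← h2, ← map_pow, pow_orderOf_eq_one, map_one]⟩
  · exact (ap_self N hP).cm V ρ ι hι hirr h13

end Pool.Agent.N9181
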