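import Pool.Agent.MP_9181f8_al.Q.TRgrp
import Pool.Agent.MP_9181f8_al.N.GoodStep

namespace Pool.Agent.N9181

open scoped commutatorElement

theorem xqtstep_pred {G : Type} [Group G] [Finite G] (N : ℕ) (hP : AP G N) :
    (N - 1).Coprime N ∧ ∀ x : G, x ^ (N - 1) = x⁻¹ := by
  have hd := (ap_self N hP).dvd
  have hN := (ap_self N hP).pos
  obtain ⟨n, rfl⟩ : ∃ n, N = n + 1 := ⟨N - 1, by omega⟩
  refine ⟨by simp, fun x => ?_⟩
  have h : x ^ (n + 1) = 1 := orderOf_dvd_iff_pow_eq_one.1 ((orderOf_dvd_natCard x).trans hd)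
  rw [Nat.add_sub_cancel, eq_inv_iff_mul_eq_one, ← pow_succ, h]

/-- an element that is central of order three modulo a normal subgroup fixes no vector -/
theorem xqtstep_tool {V : Type} [AddCommGroup V] [Module K V] [Module.Finite K V]
    {G : Type} [Group G] [Finite G] [Group.IsSolvable G] (ρ : Representation K G V) (ι : V → G)
    (hι : Emb ρ ι) (N : ℕ) (hP : AP G N) (hirr : Irr ρ)
    (h13 : ∀ (g : G) (a : ℕ), g ^ (13 ^ a) = 1 → ρ g = 1) {T : Type} [Group T] (f : G →* T)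
    (g : G) (hc : ∀ y, f y * f g = f g * f y) (h1 : f g ≠ 1) (h3 : (f g) ^ 3 = 1) :
    ∀ v, ρ g v = v → v = 0 := by
  obtain ⟨e, ho, hr, hf⟩ := xgoodstep_q ρ h13 g
  have hf' := hf T f h3
  obtain ⟨hN, hinv⟩ := xqtstep_pred N hP
  rw [← hr]
  refine (ap_self N hP).rm1 V ρ ι hι hirr h13 (g ^ e) ho ⟨N - 1, hN, ?_⟩
  intro hj
  rw [hinv] at hj
  obtain ⟨y, hy⟩ := isConj_iff.1 hj
  have h := congrArg f hy
  rw [map_mul, map_mul, map_inv, map_inv, hf', hc y, mul_inv_cancel_right] at h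
  apply h1
  calc f g = (f g) ^ 3 * ((f g)⁻¹ * (f g)⁻¹) := by group
    _ = (f g)⁻¹ * (f g)⁻¹ := by rw [h3, one_mul]
    _ = f g * (f g)⁻¹ := by rw [← h]
    _ = 1 := mul_inv_cancel _

/-- elements of `Q` act as real operators -/
theorem xqtstep_real {V : Type} [AddCommGroup V] [Module K V] [Module.Finite K V]
    {G : Type} [Group G] [Finite G] [Group.IsSolvable G] (ρ : Representation K G V)
    (N : ℕ) (hP : AP G N) (B R Q : Subgroup G) (z : G) (hD : GD B R Q z)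
    (hBC : B ≤ MonoidHom.ker ρ) (hi : 13 ∣ B.index)
    (h13 : ∀ (g : G) (a : ℕ), g ^ (13 ^ a) = 1 → ρ g = 1) (q : G) (hq : q ∈ Q) :
    RealOp ρ q := by
  have nR := hD.nR
  have nQ := hD.nQ
  set C : Subgroup G := MonoidHom.ker ρ with hC
  have nC : C.Normal := MonoidHom.normal_ker ρ
  have nD : (R ⊓ C).Normal := inferInstance
  have nK : (Q ⊓ C).Normal := inferInstance
  have hKi : ¬ 13 ∣ (Q ⊓ C).index := xgoodstep_idx2 Q C nQ hD.idx (xgoodstep_idx ρ h13)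
  have hDK : R ⊓ C ≤ Q ⊓ C := inf_le_inf_right C hD.le2
  obtain ⟨e, ho, hr, -⟩ := xgoodstep_q ρ h13 q
  obtain ⟨hN, hinv⟩ := xqtstep_pred N hP
  have hqR : q ^ e ∈ R := by
    obtain ⟨a, ha⟩ := hD.pw (q ^ e) (Q.pow_mem hq e)
    refine xgoodstep_mem R _ _ _ (xgoodstep_cop a _ ho) ha ?_
    rw [pow_orderOf_eq_one]
    exact R.one_mem
  let f : G →* G ⧸ (R ⊓ C) := QuotientGroup.mk' (R ⊓ C)
  have hfs : Function.Surjective f := QuotientGroup.mk'_surjective _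
  have hf1 : ∀ x, f x = 1 ↔ x ∈ R ⊓ C := fun x => QuotientGroup.eq_one_iff x
  have key : ∃ g : G, g * q ^ e * g⁻¹ * (q ^ e) ∈ C := by
    by_contra hno
    push Not at hno
    have h := rgrpQ N (ap_surj f hfs N hP) ((Q ⊓ C).map f) (nK.map f hfs) ?_ ?_ (f (q ^ e)) ?_
      (N - 1) hN ?_
    · have hle : Q ⊓ C ≤ R ⊓ C := by
        intro k hk
        rw [← hf1]
        refine h (f k) ⟨k, hk, rfl⟩ ?_
        have hk2 : k * q ^ e * k⁻¹ * (q ^ e)⁻¹ ∈ R ⊓ C := by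
          refine Subgroup.mem_inf.2 ⟨R.mul_mem (nR.conj_mem _ hqR k) (R.inv_mem hqR), ?_⟩
          have h5 := C.mul_mem hk.2 (nC.conj_mem _ (C.inv_mem hk.2) (q ^ e))
          simpa only [mul_assoc] using h5
        rw [← hf1] at hk2
        simp only [map_mul, map_inv] at hk2
        rw [mul_inv_eq_one, mul_inv_eq_iff_eq_mul] at hk2
        exact hk2
      have heq : R ⊓ C = Q ⊓ C := le_antisymm hDK hle
      have hBD : B ≤ R ⊓ C := le_inf hD.le1 hBC
      rw [← Subgroup.relIndex_mul_index hBD] at hi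
      rcases (Nat.Prime.dvd_mul fact13.out).1 hi with h6 | h6
      · exact xgoodstep_rel B _ R hBD inf_le_left hD.cop h6
      · rw [heq] at h6
        exact hKi h6
    · rintro ⟨_, k, hk, rfl⟩
      obtain ⟨a, ha⟩ := hD.pw k hk.1
      refine ⟨a, Subtype.ext ?_⟩
      show (f k) ^ 13 ^ a = 1
      rw [← map_pow, hf1]
      exact ⟨ha, C.pow_mem hk.2 _⟩
    · exact fun h => hKi (h.trans (Subgroup.index_map_dvd _ hfs))
    · exact fun h => ho (h.trans (orderOf_map_dvd f _))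
    · intro y hy
      obtain ⟨g, rfl⟩ := hfs y
      obtain ⟨k, hk, hk'⟩ := hy
      rw [← map_pow, hinv, ← map_inv, ← map_inv, ← map_mul, ← map_mul, ← map_mul, inv_inv] at hk'
      have h7 : k⁻¹ * (g * q ^ e * g⁻¹ * q ^ e) ∈ R ⊓ C := by
        rw [← hf1, map_mul, map_inv, hk', inv_mul_cancel]
      apply hno g
      have h8 := C.mul_mem hk.2 h7.2
      simpa only [mul_inv_cancel_left] using h8
  obtain ⟨g, hg⟩ := key
  intro M
  have h9 : ρ (g * q ^ e * g⁻¹) = ρ q⁻¹ := by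
    have h10 : ρ (g * q ^ e * g⁻¹) * ρ q = 1 := by
      rw [← hr, ← map_mul]
      exact MonoidHom.mem_ker.1 hg
    calc ρ (g * q ^ e * g⁻¹) = ρ (g * q ^ e * g⁻¹) * ρ q * ρ q⁻¹ := by
          rw [mul_assoc (ρ _), ← map_mul ρ q, mul_inv_cancel, map_one, mul_one]
      _ = ρ q⁻¹ := by rw [h10, one_mul]
  rw [← hr, ← h9]
  exact bt_isConj ρ _ _ (isConj_iff.2 ⟨g, rfl⟩) M

theorem good_baseQ {V : Type} [AddCommGroup V] [Module K V] [Module.Finite K V]
    {G : Type} [Group G] [Finite G] [Group.IsSolvable G] (ρ : Representation K G V) (ι : V → G) (hι : Emb ρ ι) (N : ℕ) (hP : AP G N) (hirr : Irr ρ)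
    (B : Subgroup G) (hB : ∀ g, g ∈ B ↔ ∃ v, ι v = g) (hi : ¬ 13 ∣ B.index) : Good G := by
  obtain ⟨nB, pB, hBC, hcen⟩ := xgoodstep_B ρ ι hι B hB
  have h13 : ∀ (g : G) (a : ℕ), g ^ (13 ^ a) = 1 → ρ g = 1 := by
    intro g a hg
    refine MonoidHom.mem_ker.1 (hBC (xgoodstep_mem B g _ _ (xgoodstep_cop a _ hi) ?_
      (B.pow_index_mem g)))
    rw [hg]
    exact B.one_mem
  obtain ⟨-, -, ⟨y, hy⟩, -⟩ := copMQ ρ ι hι N hP hirr h13
  obtain ⟨R, nR, hle, hc, hpw⟩ := centralHall B (MonoidHom.ker ρ) (MonoidHom.normal_ker ρ) hBC pB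
    hcen (fun h => hi (h.trans (Subgroup.relIndex_dvd_index_of_le hBC)))
  obtain ⟨h3, hcm⟩ := xgoodstep_scal ρ y 1 (by simpa only [pow_one] using hy)
  refine ⟨R, MonoidHom.ker ρ, y, nR, MonoidHom.normal_ker ρ, bot_le, hle, ?_, hpw,
    xgoodstep_idx ρ h13, ?_, h3, hcm⟩
  · rw [Subgroup.relIndex_bot_left]
    exact hc
  · intro h
    obtain ⟨v, hv⟩ := hirr.1
    have h1 := hy v
    rw [MonoidHom.mem_ker.1 h, Module.End.one_apply] at h1
    have h2 : ((3 : K) - 1) • v = 0 := by rw [sub_smul, ← h1, one_smul, sub_self]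
    rcases smul_eq_zero.1 h2 with h4 | h4
    · revert h4; decide
    · exact hv h4

theorem good_stepQ {V : Type} [AddCommGroup V] [Module K V] [Module.Finite K V]
    {G : Type} [Group G] [Finite G] [Group.IsSolvable G] (ρ : Representation K G V) (ι : V → G) (hι : Emb ρ ι) (N : ℕ) (hP : AP G N) (hirr : Irr ρ)
    (B R Q : Subgroup G) (hB : ∀ g, g ∈ B ↔ ∃ v, ι v = g) (z : G) (hD : GD B R Q z)
    (hi : 13 ∣ B.index) (h13 : ∀ (g : G) (a : ℕ), g ^ (13 ^ a) = 1 → ρ g = 1) : Good G := by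
  obtain ⟨-, pB, hBC, hcen⟩ := xgoodstep_B ρ ι hι B hB
  obtain ⟨hcop, hreal, ⟨y, hy⟩, -⟩ := copMQ ρ ι hι N hP hirr h13
  have nR := hD.nR
  have nQ := hD.nQ
  have hRe := xqtstep_real ρ N hP B R Q z hD hBC hi h13
  have hCi := xgoodstep_idx ρ h13
  have hsc := fun (t : G) (s : ℕ) => xgoodstep_scal ρ t s
  have hmem : ∀ t, t ∈ MonoidHom.ker ρ ↔ ρ t = 1 := fun t => MonoidHom.mem_ker
  have nC : (MonoidHom.ker ρ).Normal := MonoidHom.normal_ker ρ
  generalize MonoidHom.ker ρ = C at *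
  by_cases hs : ∃ s : ℕ, z * (y ^ s)⁻¹ ∈ Q ⊔ C
  · obtain ⟨s, hs⟩ := hs
    obtain ⟨q, hq, c, hc, hqc'⟩ := Subgroup.mem_sup_of_normal_right.1 hs
    have hz : c * y ^ s = q⁻¹ * z := by
      rw [eq_inv_mul_iff_mul_eq, ← mul_assoc, hqc', inv_mul_cancel_right]
    obtain ⟨h3, hcm⟩ := hsc (c * y ^ s) s (by
      intro v
      rw [map_mul, (hmem c).1 hc, one_mul, xgoodstep_pow ρ y hy])
    have hf : QuotientGroup.mk' Q (c * y ^ s) = QuotientGroup.mk' Q z := by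
      have h1 : QuotientGroup.mk' Q q = 1 := (QuotientGroup.eq_one_iff _).2 hq
      rw [hz, map_mul, map_inv, h1, inv_one, one_mul]
    have hBD : B ≤ R ⊓ C := le_inf hD.le1 hBC
    obtain ⟨R0, nR0, hle, hc0, hpw⟩ := centralHall B (R ⊓ C) inferInstance hBD pB
      (fun b hb d hd => hcen b hb d hd.2) (xgoodstep_rel B _ R hBD inf_le_left hD.cop)
    refine ⟨R0, Q ⊓ C, c * y ^ s, nR0, inferInstance, bot_le,
      hle.trans (inf_le_inf_right C hD.le2), ?_, ?_, xgoodstep_idx2 Q C nQ hD.idx hCi, ?_,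
      ⟨?_, h3⟩, fun g => ⟨?_, hcm g⟩⟩
    · rw [Subgroup.relIndex_bot_left]
      exact hc0
    · intro k hk
      obtain ⟨a, ha⟩ := hD.pw k hk.1
      obtain ⟨b, hb⟩ := hpw (k ^ 13 ^ a) ⟨ha, C.pow_mem hk.2 _⟩
      exact ⟨a + b, by rw [pow_add, pow_mul]; exact hb⟩
    · intro h
      apply hD.zn
      have h1 := Q.mul_mem hq h.1
      rw [hz, mul_inv_cancel_left] at h1
      exact h1
    · have h1 : QuotientGroup.mk' Q (z ^ 3) = 1 := (QuotientGroup.eq_one_iff _).2 hD.z3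
      have h2 : QuotientGroup.mk' Q ((c * y ^ s) ^ 3) = 1 := by
        rw [map_pow, hf, ← map_pow, h1]
      exact (QuotientGroup.eq_one_iff _).1 h2
    · have h1 := (xgoodstep_comm Q g z).1 (hD.zc g)
      rw [← hf] at h1
      exact (xgoodstep_comm Q g _).2 h1
  · exfalso
    push Not at hs
    obtain ⟨e, a, hx, -, hxf⟩ := p_part 3 (by norm_num) z
    have hz3 : ∀ (S : Subgroup G) [S.Normal], Q ≤ S → (QuotientGroup.mk' S z) ^ 3 = 1 := by
      intro S _ hS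
      rw [← map_pow]
      exact (QuotientGroup.eq_one_iff _).2 (hS hD.z3)
    refine sign3 ρ hirr.1 (hbal_of_hreal ρ hcop hreal) ⟨y, hy⟩ (z ^ e) a hx ?_ ?_
    · intro i hi1
      refine bal_of_realOp ρ hcop _ (fun k => hRe _ (Q.pow_mem ?_ k))
      obtain ⟨j, rfl⟩ : ∃ j, i = j + 1 := ⟨i - 1, by omega⟩
      have h : (z ^ e) ^ 3 ^ (j + 1) = (z ^ 3) ^ (e * 3 ^ j) := by
        rw [← pow_mul, ← pow_mul]
        congr 1
        ring
      rw [h]
      exact Q.pow_mem hD.z3 _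
    · intro s v hv
      have nS : (Q ⊔ C).Normal := inferInstance
      let f : G →* G ⧸ (Q ⊔ C) := QuotientGroup.mk' (Q ⊔ C)
      have hf1 : ∀ x, f x = 1 ↔ x ∈ Q ⊔ C := fun x => QuotientGroup.eq_one_iff x
      have hfz3 : (f z) ^ 3 = 1 := hz3 _ le_sup_left
      have hfe : f (z ^ e) = f z := hxf _ f 1 (by rw [pow_one]; exact hfz3)
      obtain ⟨h3, hcm⟩ := hsc (y ^ s) s (xgoodstep_pow ρ y hy s)
      have hcz : ∀ g, Commute (f g) (f z) := fun g =>
        (xgoodstep_comm (Q ⊔ C) g z).1 (Subgroup.mem_sup_left (hD.zc g))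
      have hcy : ∀ g, Commute (f g) (f (y ^ s)) := fun g =>
        (xgoodstep_comm (Q ⊔ C) g _).1 (Subgroup.mem_sup_right (hcm g))
      have hy3 : (f (y ^ s)) ^ 3 = 1 := by
        rw [← map_pow, hf1]
        exact Subgroup.mem_sup_right h3
      have hfg : f ((y ^ s)⁻¹ * z ^ e) = f z * (f (y ^ s))⁻¹ := by
        rw [map_mul, map_inv, hfe]
        exact ((hcy z).inv_right.eq).symm
      refine xqtstep_tool ρ ι hι N hP hirr h13 f ((y ^ s)⁻¹ * z ^ e) ?_ ?_ ?_ v ?_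
      · intro g
        rw [hfg]
        exact ((hcz g).mul_right (hcy g).inv_right).eq
      · rw [hfg, ← map_inv, ← map_mul, Ne, hf1]
        exact hs s
      · rw [hfg, (hcy z).inv_right.mul_pow, hfz3, inv_pow, hy3, inv_one, one_mul]
      · rw [map_mul, Module.End.mul_apply, hv, ← xgoodstep_pow ρ y hy s v,
          ← Module.End.mul_apply, ← map_mul, inv_mul_cancel, map_one, Module.End.one_apply]

end Pool.Agent.N9181
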